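import Mathlib

set_option autoImplicit false

/-!
# MP_5c3080_gt: the definitions of the problem

`IsAR X`: a metrizable space which is a retract of every metrizable space containing it as a closed subset.
`ProperAct`, `CocptAct`: proper and cocompact actions (by homeomorphisms). `TypeFAR G`: some absolute retract admits a
proper cocompact action of `G`. `TypeF G`: some contractible CW complex (Mathlib, of the whole Hausdorff space `X`) admits a
proper, cocompact, rigid cellular action of `G`.
-/

namespace Pool.Agent.H59.FS

open Set Topology TopologicalSpace

/-- a metrizable space which is a retract of every metrizable space containing it as a closed subset -/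
def IsAR (X : Type) [TopologicalSpace X] : Prop :=
  MetrizableSpace X ∧ ∀ (Z : Type) [TopologicalSpace Z] [MetrizableSpace Z] (i : X → Z),
    IsClosedEmbedding i → ∃ r : Z → X, Continuous r ∧ ∀ x, r (i x) = x

/-- a proper action by homeomorphisms: for every compact `K` the set of the `g` with `g K ∩ K` nonempty is finite -/
def ProperAct (G X : Type) [Group G] [TopologicalSpace X] [MulAction G X] : Prop :=
  (∀ g : G, Continuous fun x : X => g • x) ∧
    ∀ K : Set X, IsCompact K → {g : G | ((g • ·) '' K ∩ K).Nonempty}.Finite

/-- a cocompact action: the translates of some compact set cover the space -/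
def CocptAct (G X : Type) [Group G] [TopologicalSpace X] [MulAction G X] : Prop :=
  ∃ K : Set X, IsCompact K ∧ ∀ x, ∃ g : G, ∃ y ∈ K, x = g • y

/-- Type `F*_AR` -/
def TypeFAR (G : Type) [Group G] : Prop :=
  ∃ (X : Type) (_ : TopologicalSpace X) (_ : MulAction G X), IsAR X ∧ ProperAct G X ∧ CocptAct G X

/-- a cellular action: every group element maps every open cell onto an open cell of the same dimension -/
def CellAct (G X : Type) [Group G] [TopologicalSpace X] [T2Space X] [CWComplex (univ : Set X)] [MulAction G X] : Prop :=
  ∀ (g : G) (n : ℕ) (e : RelCWComplex.cell (univ : Set X) n), ∃ e' : RelCWComplex.cell (univ : Set X) n,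
    (g • ·) '' RelCWComplex.openCell n e = RelCWComplex.openCell n e'

/-- a rigid action: the stabilizer of each (open) cell fixes it pointwise -/
def RigidAct (G X : Type) [Group G] [TopologicalSpace X] [T2Space X] [CWComplex (univ : Set X)] [MulAction G X] : Prop :=
  ∀ (g : G) (n : ℕ) (e : RelCWComplex.cell (univ : Set X) n),
    (g • ·) '' RelCWComplex.openCell n e = RelCWComplex.openCell n e → ∀ x ∈ RelCWComplex.openCell n e, g • x = x

/-- Type `F*` -/
def TypeF (G : Type) [Group G] : Prop :=
  ∃ (X : Type) (_ : TopologicalSpace X) (_ : T2Space X) (_ : CWComplex (univ : Set X)) (_ : MulAction G X),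
    ContractibleSpace X ∧ ProperAct G X ∧ CocptAct G X ∧ CellAct G X ∧ RigidAct G X

end Pool.Agent.H59.FS
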