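import Mathlib

set_option autoImplicit false

/-!
# MP_5c3080_gt: chains of a poset, towers (interface of chapter E)

`Chn V n`: the strict chains with `n` elements of the partially ordered type `V`, `s.del i` forgets the element `i`.
`bdc k n : (Chn V (n+1) →₀ k) → (Chn V n →₀ k)`, the boundary (augmented: degree = number of elements).
`Inn W z`: all the chains in `z` have their elements in `W`.
`Tower P r e`: a partially ordered type `V` (countable) with commuting actions of `P` and of an automorphism `t`, with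
subsets `M i` (`i : ℤ`), `t (M i) = M (i + 1)`, each element is in an interval of them, comparable elements are in a common
one; with `W = M (-1) ∩ M 0`: the homology of the chains of `W` is free in degree 3 (three elements) with basis cycles
`ζ (p, j)`, zero otherwise; `sN`, `sS` are the two suspension points; `(M 0, t W)` is acyclic; and in `M 0` the cycle `ζ (p, j)` is homologous to
`Σ_(i, q) e j i q • t ζ (p q, i)`.
-/

namespace Pool.Agent.H59.FS

section
variable (V : Type) [PartialOrder V]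

/-- strict chains with `n` elements -/
def Chn (n : ℕ) : Type := {s : Fin n → V // StrictMono s}

variable {V}

/-- forget the element `i` -/
def Chn.del {n : ℕ} (s : Chn V (n + 1)) (i : Fin (n + 1)) : Chn V n :=
  ⟨s.1 ∘ i.succAbove, s.2.comp (Fin.strictMono_succAbove i)⟩

/-- the image under a strictly monotone map -/
def Chn.map {V' : Type} [PartialOrder V'] (f : V → V') (hf : StrictMono f) {n : ℕ} (s : Chn V n) : Chn V' n :=
  ⟨f ∘ s.1, hf.comp s.2⟩

variable (V) in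
/-- the boundary -/
noncomputable def bdc (k : Type) [CommRing k] (n : ℕ) : (Chn V (n + 1) →₀ k) →ₗ[k] (Chn V n →₀ k) :=
  Finsupp.linearCombination k fun s => ∑ i : Fin (n + 1), (-1 : k) ^ (i : ℕ) • Finsupp.single (s.del i) (1 : k)

/-- a chain with all elements in `W` -/
def Inn {k : Type} [CommRing k] {n : ℕ} (W : Set V) (z : Chn V n →₀ k) : Prop :=
  ∀ s ∈ z.support, ∀ i, s.1 i ∈ W

end

/-- see the head of the file -/
structure Tower (P : Type) [Group P] [Fintype P] (r : ℕ) (e : Fin r → Fin r → P → ℤ) where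
  V : Type
  [po : PartialOrder V]
  [cnt : Countable V]
  ρ : P →* (V ≃o V)
  t : V ≃o V
  comm : ∀ p v, t (ρ p v) = ρ p (t v)
  M : ℤ → Set V
  fin : (M 0).Finite
  M_t : ∀ i v, t v ∈ M (i + 1) ↔ v ∈ M i
  M_P : ∀ i p v, ρ p v ∈ M i ↔ v ∈ M i
  conv : ∀ v i j l, i ≤ j → j ≤ l → v ∈ M i → v ∈ M l → v ∈ M j
  cov : ∀ v w, v ≤ w → ∃ i, v ∈ M i ∧ w ∈ M i
  dim : IsEmpty (Chn V 5)
  dimW : ∀ s : Chn V 4, ∃ i, s.1 i ∉ M (-1) ∩ M 0
  /-- the homology of `W` is zero except in degree 3 -/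
  homW : ∀ (k : Type) [CommRing k] (n : ℕ), n + 1 ≠ 3 → ∀ z : Chn V (n + 1) →₀ k, Inn (M (-1) ∩ M 0) z →
    bdc V k n z = 0 → ∃ y : Chn V (n + 2) →₀ k, Inn (M (-1) ∩ M 0) y ∧ bdc V k (n + 1) y = z
  /-- the two suspension points: maximal elements above all the others, in all the `M i` -/
  sN : V
  sS : V
  s_ne : sN ≠ sS
  lt_s : ∀ v, v ≠ sN → v ≠ sS → v < sN ∧ v < sS
  not_lt : ¬ sN < sS ∧ ¬ sS < sN
  s_M : ∀ i, sN ∈ M i ∧ sS ∈ M i
  /-- without the suspension points `M (-1) ∩ M 0` is nonempty and `M 0` is connected -/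
  neW : ∃ v, v ∈ M (-1) ∩ M 0 ∧ v ≠ sN ∧ v ≠ sS
  con0 : ∀ f : V → Prop, (∀ v w, v ∈ M 0 → w ∈ M 0 → w ≠ sN → w ≠ sS → v < w → (f v ↔ f w)) →
    ∀ v w, v ∈ M 0 → w ∈ M 0 → v ≠ sN → v ≠ sS → w ≠ sN → w ≠ sS → (f v ↔ f w)
  ζ : ∀ (k : Type) [CommRing k], P × Fin r → (Chn V 3 →₀ k)
  ζW : ∀ (k : Type) [CommRing k] b, Inn (M (-1) ∩ M 0) (ζ k b) ∧ bdc V k 2 (ζ k b) = 0
  ζP : ∀ (k : Type) [CommRing k] (q p : P) (j : Fin r),
    ζ k (q * p, j) = Finsupp.mapDomain (Chn.map (ρ q) (ρ q).strictMono) (ζ k (p, j))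
  ζb : ∀ (k : Type) [CommRing k] (z : Chn V 3 →₀ k), Inn (M (-1) ∩ M 0) z → bdc V k 2 z = 0 →
    ∃! c : P × Fin r → k, z = ∑ b, c b • ζ k b
  /-- `(M 0, t W)` is acyclic -/
  rel : ∀ (k : Type) [CommRing k] (n : ℕ) (z : Chn V (n + 1) →₀ k), Inn (M 0) z → Inn (M 0 ∩ M 1) (bdc V k n z) →
    ∃ y : Chn V (n + 2) →₀ k, Inn (M 0) y ∧ Inn (M 0 ∩ M 1) (z - bdc V k (n + 1) y)
  /-- the cycle `ζ (p, j)` is homologous to `Σ_(i, q) e j i q • t ζ (p q, i)` in `M 0` -/
  hmg : ∀ (k : Type) [CommRing k] (p : P) (j : Fin r), ∃ y : Chn V 4 →₀ k, Inn (M 0) y ∧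
    bdc V k 3 y = ζ k (p, j) -
      ∑ i : Fin r, ∑ q : P, ((e j i q : ℤ) : k) • Finsupp.mapDomain (Chn.map t t.strictMono) (ζ k (p * q, i))

attribute [instance] Tower.po Tower.cnt

end Pool.Agent.H59.FS
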