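import Mathlib

set_option autoImplicit false

/-!
# MP_5c3080_gt: precubical sets, their chains, models

`PreCub`: a precubical set, `N.cub n` the `n`-cubes, `N.fa n i e c` the face `x_i = e` (`e : Bool`) of `c`.
`N.bd k n : (N.cub (n+1) →₀ k) → (N.cub n →₀ k)`, `∂ c = Σ (-1)^i (c | x_i = 1 - c | x_i = 0)`.
`N.Conn`, `N.SC`: connected, simply connected (every 1-cocycle with values in a group is a coboundary).
-/

namespace Pool.Agent.H59.FS

/-- a precubical set -/
structure PreCub where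
  cub : ℕ → Type
  fa : ∀ n, Fin (n + 1) → Bool → cub (n + 1) → cub n
  fa_fa : ∀ (n : ℕ) (i j : Fin (n + 1)) (e f : Bool) (c : cub (n + 2)), i ≤ j →
    fa n i e (fa (n + 1) j.succ f c) = fa n j f (fa (n + 1) i.castSucc e c)

namespace PreCub

/-- the boundary of cubical chains -/
noncomputable def bd (N : PreCub) (k : Type) [CommRing k] (n : ℕ) : (N.cub (n + 1) →₀ k) →ₗ[k] (N.cub n →₀ k) :=
  Finsupp.linearCombination k fun c => ∑ i : Fin (n + 1), (-1 : k) ^ (i : ℕ) •
    (Finsupp.single (N.fa n i true c) (1 : k) - Finsupp.single (N.fa n i false c) 1)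

/-- connected -/
def Conn (N : PreCub) : Prop :=
  Nonempty (N.cub 0) ∧ ∀ f : N.cub 0 → Prop, (∀ c : N.cub 1, f (N.fa 0 0 false c) ↔ f (N.fa 0 0 true c)) →
    ∀ x y, f x ↔ f y

/-- simply connected: every 1-cocycle with values in a group is a coboundary -/
def SC (N : PreCub) : Prop :=
  ∀ (H : Type) [Group H] (f : N.cub 1 → H),
    (∀ c : N.cub 2, f (N.fa 1 1 false c) * f (N.fa 1 0 true c) = f (N.fa 1 0 false c) * f (N.fa 1 1 true c)) →
    ∃ h : N.cub 0 → H, ∀ c : N.cub 1, f c = (h (N.fa 0 0 false c))⁻¹ * h (N.fa 0 0 true c)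

/-- the group acts by automorphisms of the precubical set -/
def Act (N : PreCub) (G : Type) [Group G] [∀ n, MulAction G (N.cub n)] : Prop :=
  ∀ (n : ℕ) (i : Fin (n + 1)) (e : Bool) (g : G) (c : N.cub (n + 1)), N.fa n i e (g • c) = g • N.fa n i e c

/-- every cube is a face of finitely many cubes -/
def LocFin (N : PreCub) : Prop :=
  ∀ (n : ℕ) (c : N.cub n), {d : N.cub (n + 1) | ∃ (i : Fin (n + 1)) (e : Bool), N.fa n i e d = c}.Finite

/-- finite stabilizers and finitely many orbits in every dimension -/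
def Fin' (N : PreCub) (G : Type) [Group G] [∀ n, MulAction G (N.cub n)] : Prop :=
  (∀ (n : ℕ) (c : N.cub n), Finite (MulAction.stabilizer G c)) ∧
    ∀ n : ℕ, ∃ s : Finset (N.cub n), ∀ c : N.cub n, ∃ g : G, ∃ d ∈ s, c = g • d

/-- `Σ_j x_j u_j` for chains `u_j` and finitely supported functions `x_j` on the group (elements of the group ring) -/
noncomputable def comb (N : PreCub) {G : Type} [Group G] [∀ n, MulAction G (N.cub n)] {k : Type} [CommRing k] {n r : ℕ}
    (u : Fin r → (N.cub n →₀ k)) (x : Fin r → (G →₀ k)) : N.cub n →₀ k :=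
  ∑ j : Fin r, (x j).sum fun g a => a • Finsupp.mapDomain (fun c => g • c) (u j)

end PreCub

/-- the row vector `x` times the matrix `e` over `ℤ[P]` (`ι : P → G`), in the group ring `k[G]` -/
noncomputable def mulE {P G : Type} [Group P] [Fintype P] [Group G] (ι : P →* G) {r : ℕ} (e : Fin r → Fin r → P → ℤ)
    {k : Type} [CommRing k] (x : Fin r → (G →₀ k)) (i : Fin r) : G →₀ k :=
  ∑ j : Fin r, ∑ p : P, ((e j i p : ℤ) : k) • Finsupp.mapDomain (fun g => g * ι p) (x j)

/-- `e * e = e` for a matrix over `ℤ[P]` -/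
def IsIdem {P : Type} [Group P] [Fintype P] {r : ℕ} (e : Fin r → Fin r → P → ℤ) : Prop :=
  ∀ i j p, ∑ l : Fin r, ∑ q : P, e i l q * e l j (q⁻¹ * p) = e i j p

namespace PreCub

/-- The homology of `N` with coefficients `k`: reduced homology zero in all degrees except `3`, and `H_3` is the
`k[G]`-module `k[G]^r / k[G]^r e` with generators the classes of the cycles `u_j`. -/
def Hom (N : PreCub) {P G : Type} [Group P] [Fintype P] [Group G] [∀ n, MulAction G (N.cub n)] (ι : P →* G) {r : ℕ}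
    (e : Fin r → Fin r → P → ℤ) (k : Type) [CommRing k] : Prop :=
  (∀ z : N.cub 0 →₀ k, (z.sum fun _ a => a) = 0 → z ∈ LinearMap.range (N.bd k 0)) ∧
  (∀ n, n ≠ 2 → ∀ z, N.bd k n z = 0 → z ∈ LinearMap.range (N.bd k (n + 1))) ∧
  ∃ u : Fin r → (N.cub 3 →₀ k), (∀ j, N.bd k 2 (u j) = 0) ∧
    (∀ z : N.cub 3 →₀ k, N.bd k 2 z = 0 → ∃ x : Fin r → (G →₀ k), z - N.comb u x ∈ LinearMap.range (N.bd k 3)) ∧
    ∀ x : Fin r → (G →₀ k), N.comb u x ∈ LinearMap.range (N.bd k 3) ↔ ∀ i, x i = mulE ι e x i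

end PreCub

/-- A group `G` with a retraction onto the finite group `P` with torsion-free kernel, acting on a locally finite, simply
connected precubical set of dimension at most 4 with finite stabilizers and finitely many orbits, with the only reduced
homology `k[G]^r / k[G]^r e` in degree 3, and a vertex fixed by `P`. -/
structure Model (P : Type) [Group P] [Fintype P] (r : ℕ) (e : Fin r → Fin r → P → ℤ) where
  G : Type
  [grp : Group G]
  [cnt : Countable G]
  ι : P →* G
  π : G →* P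
  π_ι : ∀ p, π (ι p) = p
  tf : ∀ g : G, π g = 1 → ∀ n, 0 < n → g ^ n = 1 → g = 1
  N : PreCub
  [act : ∀ n, MulAction G (N.cub n)]
  isAct : N.Act G
  fin : N.Fin' G
  locFin : N.LocFin
  dim : ∀ n, 4 < n → IsEmpty (N.cub n)
  conn : N.Conn
  sc : N.SC
  b : N.cub 0
  b_fix : ∀ p, ι p • b = b
  hom : ∀ (k : Type) [CommRing k], N.Hom ι e k

attribute [instance] Model.grp Model.cnt Model.act

end Pool.Agent.H59.FS
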