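import Pool.Agent.H59.FS.Zed

set_option autoImplicit false

/-!
# MP_5c3080_gt: chains of `WithTop V`, definitions for the homology of the ascending and descending complexes of a tower

`Sp Q κ`: all the chains in the support of `κ` satisfy `Q`. `lk u`: the part `Σ ± (s - u)` of the boundary. `cV`: chains of
`V` as chains of `WithTop V`. `T.zl k l b` is `t^l ζ b`, a cycle of `M (l-1) ∩ M l`, `T.zs k l x = Σ_b x_b t^l ζ b`.
`emul e x = x e` for the row vector `x`. `AlT M l`: the chains of the descending complex `D_l` at level `l` (the elements in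
`V` are in `M l`, and in `M (l-1)` if `⊤` is in the chain); `Alw M l`: the chains of the ascending complex `U_l`.
-/

namespace Pool.Agent.H59.FS

open Pool.Agent.H3.RA

section
variable {W : Type} [PartialOrder W] {k : Type} [CommRing k]

/-- the chains in the support satisfy `Q` -/
def Sp {n : ℕ} (Q : Chn W n → Prop) (κ : Chn W n →₀ k) : Prop := ∀ s ∈ κ.support, Q s

open Classical in
/-- the part of the boundary which forgets `u` -/
noncomputable def lk (k : Type) [CommRing k] {W : Type} [PartialOrder W] (u : W) (n : ℕ) :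
    (Chn W (n + 1) →₀ k) →ₗ[k] (Chn W n →₀ k) :=
  Finsupp.linearCombination k fun s => ∑ i : Fin (n + 1),
    if s.1 i = u then (-1 : k) ^ (i : ℕ) • Finsupp.single (s.del i) (1 : k) else 0

/-- a chain of `V` with `⊤` in the last place -/
def Chn.addT {V : Type} [PartialOrder V] {n : ℕ} (s : Chn V n) : Chn (WithTop V) (n + 1) :=
  ⟨Fin.snoc (α := fun _ => WithTop V) (fun i => (s.1 i : WithTop V)) ⊤, by
    intro i j hij
    refine Fin.lastCases ?_ (fun j => ?_) j (motive := fun j => i < j → Fin.snoc (α := fun _ => WithTop V)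
      (fun i => (s.1 i : WithTop V)) ⊤ i < Fin.snoc (α := fun _ => WithTop V) (fun i => (s.1 i : WithTop V)) ⊤ j) hij
    · intro h
      obtain ⟨i', rfl⟩ : ∃ i', i = Fin.castSucc i' := ⟨i.castPred (ne_of_lt h), by simp⟩
      rw [Fin.snoc_castSucc, Fin.snoc_last]
      exact WithTop.coe_lt_top _
    · intro h
      obtain ⟨i', rfl⟩ : ∃ i', i = Fin.castSucc i' := ⟨i.castPred (ne_of_lt (lt_of_lt_of_le h (Fin.le_last _))), by simp⟩
      rw [Fin.snoc_castSucc, Fin.snoc_castSucc]
      exact WithTop.coe_lt_coe.2 (s.2 (by simpa using h))⟩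

/-- append `⊤` to chains of `V` -/
noncomputable def cT (k : Type) [CommRing k] {V : Type} [PartialOrder V] (n : ℕ) :
    (Chn V n →₀ k) →ₗ[k] (Chn (WithTop V) (n + 1) →₀ k) :=
  Finsupp.lmapDomain k k Chn.addT

/-- chains of `V` as chains of `WithTop V` -/
noncomputable def cV (k : Type) [CommRing k] {V : Type} [PartialOrder V] (n : ℕ) :
    (Chn V n →₀ k) →ₗ[k] (Chn (WithTop V) n →₀ k) :=
  Finsupp.lmapDomain k k (Chn.map (fun v : V => (v : WithTop V)) WithTop.coe_strictMono)

end

variable {P : Type} [Group P] [Fintype P] {r : ℕ} {e : Fin r → Fin r → P → ℤ}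

/-- the row vector `x` times `e` -/
def emul (e : Fin r → Fin r → P → ℤ) {k : Type} [CommRing k] (x : P × Fin r → k) (b : P × Fin r) : k :=
  ∑ j : Fin r, ∑ q : P, ((e j b.2 q : ℤ) : k) * x (b.1 * q⁻¹, j)

/-- `t^l ζ b` -/
noncomputable def Tower.zl (T : Tower P r e) (k : Type) [CommRing k] (l : ℤ) (b : P × Fin r) : Chn T.V 3 →₀ k :=
  Finsupp.mapDomain (Chn.map (T.t ^ l) (T.t ^ l).strictMono) (T.ζ k b)

/-- `Σ_b x_b t^l ζ b` as a chain of `WithTop V` -/
noncomputable def Tower.zs (T : Tower P r e) (k : Type) [CommRing k] (l : ℤ) (x : P × Fin r → k) :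
    Chn (WithTop T.V) 3 →₀ k :=
  cV k 3 (∑ b, x b • T.zl k l b)

/-- the chains of the descending complex at level `l` -/
def AlT {V : Type} [PartialOrder V] (M : ℤ → Set V) (l : ℤ) {n : ℕ} (s : Chn (WithTop V) n) : Prop :=
  ∀ (i : Fin n) (v : V), s.1 i = ↑v → v ∈ M l ∧ ((∃ j, s.1 j = ⊤) → v ∈ M (l - 1))

end Pool.Agent.H59.FS
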