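import Pool.Agent.H59.FS.Blk

set_option autoImplicit false

/-!
# MP_5c3080_gt, row [H59 FS BlkA]: chains of `WithTop V` = chains of `V` plus chains of `V` with `⊤` appended

Proofs. A strict chain `s : Fin (n+1) → WithTop V` has `s i ≠ ⊤` for `i ≠ last` (else `s i < s last` is impossible). If
`s (last) ≠ ⊤` it is the image of a chain of `V`, otherwise it is `addT` of the chain of the first `n` elements
(`Fin.snoc_init_self`). So the map `Chn V (n+1) ⊕ Chn V n → Chn (WithTop V) (n+1)` is a bijection (`Chn.eqv`), and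
`dec`, `dec_uni` follow from `Finsupp.sumFinsuppLEquivProdFinsupp`, `Finsupp.mapDomain` of a bijection.
`bdc_cV`: on `Finsupp.single`, `(s.map f).del i = (s.del i).map f` by `rfl`. `bdc_cT`: on `single s 1`: `Fin.sum_univ_castSucc`;
`(addT s).del (castSucc i) = addT (s.del i)` (for `n + 1` elements) and `(addT s).del (last) = s` as a chain of `WithTop V`
(`Fin.succAbove_last`, `Fin.snoc_castSucc`; for the first: extensionality with `Fin.lastCases`).
`lk_cV`, `lk_cT`: only the index `last` has the value `⊤`.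
-/

namespace Pool.Agent.H59.FS

variable {V : Type} [PartialOrder V] {k : Type} [CommRing k]

/-- the inclusion of chains -/
private def inc {V : Type} [PartialOrder V] {n : ℕ} (s : Chn V n) : Chn (WithTop V) n :=
  Chn.map (fun v : V => (v : WithTop V)) WithTop.coe_strictMono s

private theorem inc_inj {n : ℕ} : Function.Injective (inc : Chn V n → Chn (WithTop V) n) := by
  intro s s' h
  apply Subtype.ext
  funext i
  have h2 := congrArg (fun z => z.1 i) h
  exact WithTop.coe_injective h2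

private theorem addT_cs {n : ℕ} (s : Chn V n) (i : Fin n) : s.addT.1 i.castSucc = (s.1 i : WithTop V) :=
  Fin.snoc_castSucc (α := fun _ => WithTop V) (⊤ : WithTop V) (fun i => (s.1 i : WithTop V)) i

private theorem addT_last {n : ℕ} (s : Chn V n) : s.addT.1 (Fin.last n) = ⊤ :=
  Fin.snoc_last (α := fun _ => WithTop V) (⊤ : WithTop V) (fun i => (s.1 i : WithTop V))

private theorem addT_inj {n : ℕ} : Function.Injective (Chn.addT : Chn V n → Chn (WithTop V) (n + 1)) := by
  intro s s' h
  apply Subtype.ext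
  funext i
  have h2 := congrArg (fun z => z.1 i.castSucc) h
  simp only [addT_cs] at h2
  exact WithTop.coe_injective h2

private theorem inc_ne {n : ℕ} (s : Chn V (n + 1)) (s' : Chn V n) : inc s ≠ s'.addT := by
  intro h
  have h2 := congrArg (fun z => z.1 (Fin.last n)) h
  simp only [addT_last] at h2
  exact WithTop.coe_ne_top h2

private theorem chn_cases {n : ℕ} (s : Chn (WithTop V) (n + 1)) :
    (∃ s' : Chn V (n + 1), s = inc s') ∨ ∃ s' : Chn V n, s = s'.addT := by
  by_cases h : s.1 (Fin.last n) = ⊤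
  · right
    have h1 : ∀ i : Fin n, ∃ v : V, (v : WithTop V) = s.1 i.castSucc := by
      intro i
      exact WithTop.ne_top_iff_exists.1 (ne_top_of_lt (s.2 (Fin.castSucc_lt_last i)))
    choose f hf using h1
    refine ⟨⟨f, ?_⟩, ?_⟩
    · intro i j hij
      rw [← WithTop.coe_lt_coe, hf, hf]
      exact s.2 (by simpa using hij)
    · apply Subtype.ext
      funext i
      refine Fin.lastCases ?_ (fun j => ?_) i
      · rw [addT_last, h]
      · rw [addT_cs]
        exact (hf j).symm
  · left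
    have h1 : ∀ i : Fin (n + 1), ∃ v : V, (v : WithTop V) = s.1 i := by
      intro i
      refine WithTop.ne_top_iff_exists.1 fun h2 => h ?_
      have h3 : s.1 i ≤ s.1 (Fin.last n) := s.2.monotone (Fin.le_last i)
      rw [h2, top_le_iff] at h3
      exact h3
    choose f hf using h1
    refine ⟨⟨f, ?_⟩, ?_⟩
    · intro i j hij
      rw [← WithTop.coe_lt_coe, hf, hf]
      exact s.2 hij
    · apply Subtype.ext
      funext i
      exact (hf i).symm

private theorem cV_def {n : ℕ} (κ : Chn V n →₀ k) : cV k n κ = Finsupp.mapDomain inc κ := rfl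

private theorem cT_def {n : ℕ} (κ : Chn V n →₀ k) : cT k n κ = Finsupp.mapDomain Chn.addT κ := rfl

private theorem ev_inc {n : ℕ} (κ' : Chn V (n + 1) →₀ k) (κ'' : Chn V n →₀ k) (s : Chn V (n + 1)) :
    (cV k (n + 1) κ' + cT k n κ'') (inc s) = κ' s := by
  rw [Finsupp.add_apply, cV_def, cT_def, Finsupp.mapDomain_apply inc_inj, Finsupp.mapDomain_of_notMem_range,
    add_zero]
  rintro ⟨s', hs'⟩
  exact inc_ne s s' hs'.symm

private theorem ev_addT {n : ℕ} (κ' : Chn V (n + 1) →₀ k) (κ'' : Chn V n →₀ k) (s : Chn V n) :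
    (cV k (n + 1) κ' + cT k n κ'') s.addT = κ'' s := by
  rw [Finsupp.add_apply, cV_def, cT_def, Finsupp.mapDomain_apply addT_inj, Finsupp.mapDomain_of_notMem_range,
    zero_add]
  rintro ⟨s', hs'⟩
  exact inc_ne s' s hs'

private theorem sp_iff {n : ℕ} (Q : Chn (WithTop V) (n + 1) → Prop) (κ' : Chn V (n + 1) →₀ k)
    (κ'' : Chn V n →₀ k) : Sp Q (cV k (n + 1) κ' + cT k n κ'') ↔
      (∀ s ∈ κ'.support, Q (inc s)) ∧ (∀ s ∈ κ''.support, Q s.addT) := by
  constructor
  · intro h
    refine ⟨fun s hs => h _ ?_, fun s hs => h _ ?_⟩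
    · rw [Finsupp.mem_support_iff, ev_inc]
      exact Finsupp.mem_support_iff.1 hs
    · rw [Finsupp.mem_support_iff, ev_addT]
      exact Finsupp.mem_support_iff.1 hs
  · rintro ⟨h1, h2⟩ s hs
    rcases chn_cases s with ⟨s', rfl⟩ | ⟨s', rfl⟩
    · rw [Finsupp.mem_support_iff, ev_inc] at hs
      exact h1 s' (Finsupp.mem_support_iff.2 hs)
    · rw [Finsupp.mem_support_iff, ev_addT] at hs
      exact h2 s' (Finsupp.mem_support_iff.2 hs)

theorem cV_zero_bij (κ : Chn (WithTop V) 0 →₀ k) : ∃ κ' : Chn V 0 →₀ k, κ = cV k 0 κ' := by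
  induction κ using Finsupp.induction_linear with
  | zero => exact ⟨0, (map_zero _).symm⟩
  | add f g hf hg =>
    obtain ⟨f', rfl⟩ := hf
    obtain ⟨g', rfl⟩ := hg
    exact ⟨f' + g', (map_add _ _ _).symm⟩
  | single s c =>
    refine ⟨Finsupp.single ⟨fun i => i.elim0, fun i => i.elim0⟩ c, ?_⟩
    rw [cV_def, Finsupp.mapDomain_single]
    congr 1
    apply Subtype.ext
    funext i
    exact i.elim0

/-- decomposition; `A`, `B` supports -/
theorem dec {n : ℕ} (κ : Chn (WithTop V) (n + 1) →₀ k) :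
    ∃ (κ' : Chn V (n + 1) →₀ k) (κ'' : Chn V n →₀ k), κ = cV k (n + 1) κ' + cT k n κ'' := by
  induction κ using Finsupp.induction_linear with
  | zero => exact ⟨0, 0, by rw [map_zero, map_zero, add_zero]⟩
  | add f g hf hg =>
    obtain ⟨f', f'', rfl⟩ := hf
    obtain ⟨g', g'', rfl⟩ := hg
    exact ⟨f' + g', f'' + g'', by rw [map_add, map_add]; abel⟩
  | single s c =>
    rcases chn_cases s with ⟨s', rfl⟩ | ⟨s', rfl⟩
    · refine ⟨Finsupp.single s' c, 0, ?_⟩
      rw [map_zero, add_zero, cV_def, Finsupp.mapDomain_single]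
    · refine ⟨0, Finsupp.single s' c, ?_⟩
      rw [map_zero, zero_add, cT_def, Finsupp.mapDomain_single]

theorem dec_uni {n : ℕ} (κ' : Chn V (n + 1) →₀ k) (κ'' : Chn V n →₀ k) (h : cV k (n + 1) κ' + cT k n κ'' = 0) :
    κ' = 0 ∧ κ'' = 0 := by
  constructor
  · ext s
    rw [← ev_inc κ' κ'' s, h]
    rfl
  · ext s
    rw [← ev_addT κ' κ'' s, h]
    rfl

theorem cV_inj {n : ℕ} (κ : Chn V n →₀ k) (h : cV k n κ = 0) : κ = 0 := by
  ext s
  rw [cV_def] at h
  rw [← Finsupp.mapDomain_apply inc_inj κ s, h]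
  rfl

theorem bdc_cV {n : ℕ} (κ : Chn V (n + 1) →₀ k) :
    bdc (WithTop V) k n (cV k (n + 1) κ) = cV k n (bdc V k n κ) := by
  have h : (bdc (WithTop V) k n).comp (cV k (n + 1)) = (cV k n).comp (bdc V k n) := by
    refine Finsupp.lhom_ext' fun s => LinearMap.ext_ring ?_
    simp only [LinearMap.comp_apply, Finsupp.lsingle_apply]
    rw [cV_def, Finsupp.mapDomain_single]
    simp only [bdc, Finsupp.linearCombination_single, one_smul]
    rw [map_sum]
    refine Finset.sum_congr rfl fun i _ => ?_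
    rw [map_smul, cV_def, Finsupp.mapDomain_single]
    rfl
  exact LinearMap.congr_fun h κ

private theorem addT_del {n : ℕ} (s : Chn V (n + 1)) (i : Fin (n + 1)) :
    s.addT.del i.castSucc = (s.del i).addT := by
  apply Subtype.ext
  funext j
  change s.addT.1 (i.castSucc.succAbove j) = (s.del i).addT.1 j
  refine Fin.lastCases ?_ (fun j => ?_) j
  · have h1 : i.castSucc.succAbove (Fin.last n) = Fin.last (n + 1) := by
      exact Fin.succAbove_ne_last_last (Fin.castSucc_lt_last i).ne
    rw [h1, addT_last, addT_last]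
  · rw [Fin.castSucc_succAbove_castSucc, addT_cs, addT_cs]
    rfl

private theorem addT_del_last {n : ℕ} (s : Chn V n) : s.addT.del (Fin.last n) = inc s := by
  apply Subtype.ext
  funext j
  change s.addT.1 ((Fin.last n).succAbove j) = (s.1 j : WithTop V)
  rw [Fin.succAbove_last_apply, addT_cs]

theorem bdc_cT {n : ℕ} (κ : Chn V (n + 1) →₀ k) :
    bdc (WithTop V) k (n + 1) (cT k (n + 1) κ) =
      cT k n (bdc V k n κ) + (-1 : k) ^ (n + 1) • cV k (n + 1) κ := by
  have h : (bdc (WithTop V) k (n + 1)).comp (cT k (n + 1)) =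
      (cT k n).comp (bdc V k n) + (-1 : k) ^ (n + 1) • cV k (n + 1) := by
    refine Finsupp.lhom_ext' fun s => LinearMap.ext_ring ?_
    simp only [LinearMap.comp_apply, Finsupp.lsingle_apply, LinearMap.add_apply, LinearMap.smul_apply]
    rw [cT_def, Finsupp.mapDomain_single, cV_def, Finsupp.mapDomain_single]
    simp only [bdc, Finsupp.linearCombination_single, one_smul]
    rw [map_sum, Fin.sum_univ_castSucc]
    congr 1
    · refine Finset.sum_congr rfl fun i _ => ?_
      rw [map_smul, cT_def, Finsupp.mapDomain_single, addT_del]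
      rfl
    · rw [addT_del_last]
      rfl
  exact LinearMap.congr_fun h κ

theorem bdc_cT0 (κ : Chn V 0 →₀ k) : bdc (WithTop V) k 0 (cT k 0 κ) = cV k 0 κ := by
  have h : (bdc (WithTop V) k 0).comp (cT k 0) = cV k 0 := by
    refine Finsupp.lhom_ext' fun s => LinearMap.ext_ring ?_
    simp only [LinearMap.comp_apply, Finsupp.lsingle_apply]
    rw [cT_def, Finsupp.mapDomain_single, cV_def, Finsupp.mapDomain_single]
    simp only [bdc, Finsupp.linearCombination_single, one_smul]
    rw [Fin.sum_univ_castSucc, Fin.sum_univ_zero, zero_add, addT_del_last]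
    rw [Fin.val_last, pow_zero, one_smul]
  exact LinearMap.congr_fun h κ

theorem lk_cV {n : ℕ} (κ : Chn V (n + 1) →₀ k) : lk k (⊤ : WithTop V) n (cV k (n + 1) κ) = 0 := by
  have h : (lk k (⊤ : WithTop V) n).comp (cV k (n + 1)) = (0 : (Chn V (n + 1) →₀ k) →ₗ[k] _) := by
    refine Finsupp.lhom_ext' fun s => LinearMap.ext_ring ?_
    simp only [LinearMap.comp_apply, Finsupp.lsingle_apply]
    rw [cV_def, Finsupp.mapDomain_single]
    simp only [lk, Finsupp.linearCombination_single, one_smul, LinearMap.zero_apply]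
    refine Finset.sum_eq_zero fun i _ => ?_
    rw [if_neg]
    exact WithTop.coe_ne_top
  exact LinearMap.congr_fun h κ

theorem lk_cT {n : ℕ} (κ : Chn V n →₀ k) :
    lk k (⊤ : WithTop V) n (cT k n κ) = (-1 : k) ^ n • cV k n κ := by
  have h : (lk k (⊤ : WithTop V) n).comp (cT k n) = (-1 : k) ^ n • cV k n := by
    refine Finsupp.lhom_ext' fun s => LinearMap.ext_ring ?_
    simp only [LinearMap.comp_apply, Finsupp.lsingle_apply, LinearMap.smul_apply]
    rw [cT_def, Finsupp.mapDomain_single, cV_def, Finsupp.mapDomain_single]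
    simp only [lk, Finsupp.linearCombination_single, one_smul]
    rw [Fin.sum_univ_castSucc, if_pos (addT_last s), addT_del_last, Fin.val_last]
    rw [Finset.sum_eq_zero, zero_add]
    intro i _
    rw [if_neg]
    rw [addT_cs]
    exact WithTop.coe_ne_top
  exact LinearMap.congr_fun h κ

private theorem alw_inc {M : ℤ → Set V} {l : ℤ} {n : ℕ} (s : Chn V n) :
    Alw M l (inc s) ↔ ∀ i, s.1 i ∈ M l := by
  constructor
  · intro h i
    exact (h i (s.1 i) rfl).1
  · intro h i v hv
    have h1 : s.1 i = v := WithTop.coe_injective hv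
    refine ⟨h1 ▸ h i, ?_⟩
    rintro ⟨j, hj⟩
    exact absurd hj WithTop.coe_ne_top

private theorem alt_inc {M : ℤ → Set V} {l : ℤ} {n : ℕ} (s : Chn V n) :
    AlT M l (inc s) ↔ ∀ i, s.1 i ∈ M l := by
  constructor
  · intro h i
    exact (h i (s.1 i) rfl).1
  · intro h i v hv
    have h1 : s.1 i = v := WithTop.coe_injective hv
    refine ⟨h1 ▸ h i, ?_⟩
    rintro ⟨j, hj⟩
    exact absurd hj WithTop.coe_ne_top

private theorem alw_addT {M : ℤ → Set V} {l : ℤ} {n : ℕ} (s : Chn V n) :
    Alw M l s.addT ↔ ∀ i, s.1 i ∈ M l ∩ M (l + 1) := by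
  constructor
  · intro h i
    have h1 := h i.castSucc (s.1 i) (addT_cs s i)
    exact ⟨h1.1, h1.2 ⟨Fin.last n, addT_last s⟩⟩
  · intro h i
    refine Fin.lastCases ?_ (fun j => ?_) i
    · intro v hv
      rw [addT_last] at hv
      exact absurd hv.symm WithTop.coe_ne_top
    · intro v hv
      rw [addT_cs] at hv
      have h1 : s.1 j = v := WithTop.coe_injective hv
      exact ⟨h1 ▸ (h j).1, fun _ => h1 ▸ (h j).2⟩

private theorem alt_addT {M : ℤ → Set V} {l : ℤ} {n : ℕ} (s : Chn V n) :
    AlT M l s.addT ↔ ∀ i, s.1 i ∈ M (l - 1) ∩ M l := by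
  constructor
  · intro h i
    have h1 := h i.castSucc (s.1 i) (addT_cs s i)
    exact ⟨h1.2 ⟨Fin.last n, addT_last s⟩, h1.1⟩
  · intro h i
    refine Fin.lastCases ?_ (fun j => ?_) i
    · intro v hv
      rw [addT_last] at hv
      exact absurd hv.symm WithTop.coe_ne_top
    · intro v hv
      rw [addT_cs] at hv
      have h1 : s.1 j = v := WithTop.coe_injective hv
      exact ⟨h1 ▸ (h j).2, fun _ => h1 ▸ (h j).1⟩

/-- supports of the ascending complex -/
theorem sp_alw {M : ℤ → Set V} {l : ℤ} {n : ℕ} (κ' : Chn V (n + 1) →₀ k) (κ'' : Chn V n →₀ k) :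
    Sp (Alw M l) (cV k (n + 1) κ' + cT k n κ'') ↔ Inn (M l) κ' ∧ Inn (M l ∩ M (l + 1)) κ'' := by
  rw [sp_iff]
  simp only [alw_inc, alw_addT]
  rfl

/-- supports of the descending complex -/
theorem sp_alT {M : ℤ → Set V} {l : ℤ} {n : ℕ} (κ' : Chn V (n + 1) →₀ k) (κ'' : Chn V n →₀ k) :
    Sp (AlT M l) (cV k (n + 1) κ' + cT k n κ'') ↔ Inn (M l) κ' ∧ Inn (M (l - 1) ∩ M l) κ'' := by
  rw [sp_iff]
  simp only [alt_inc, alt_addT]
  rfl

end Pool.Agent.H59.FS
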