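import Pool.Agent.H59.FS.Blk

set_option autoImplicit false

/-!
# MP_5c3080_gt, row [H59 FS BlkB]: the fields of a tower at level `l`

Everything follows from the fields `M_t`, `homW`, `rel`, `hmg`, `ζb`, `dim`, `dimW` by the automorphism `T.t ^ l` of `V`:
`mem_tl`: `(T.t ^ l) v ∈ T.M (i + l) ↔ v ∈ T.M i` (induction on `l : ℤ`, `Int.induction_on`, `zpow_add_one`,
`RelIso.mul_apply`). For an order isomorphism `f` the map `Finsupp.mapDomain (Chn.map f)` commutes with `bdc`, is bijective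
with inverse that of `f⁻¹ = T.t ^ (-l)` and maps `Inn (M i)` onto `Inn (M (i + l))`. So apply the field to
`mapDomain (Chn.map (T.t ^ (-l))) z` and transport back.
-/

namespace Pool.Agent.H59.FS

variable {P : Type} [Group P] [Fintype P] {r : ℕ} {e : Fin r → Fin r → P → ℤ}
variable (T : Tower P r e) (k : Type) [CommRing k] (l : ℤ)

theorem mem_tl (i : ℤ) (v : T.V) : (T.t ^ l) v ∈ T.M (i + l) ↔ v ∈ T.M i := by
  induction l using Int.induction_on generalizing i v with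
  | zero => rw [zpow_zero, add_zero]; exact Iff.rfl
  | succ n ih =>
    have h1 : (T.t ^ ((n : ℤ) + 1)) v = (T.t ^ (n : ℤ)) (T.t v) := by
      rw [zpow_add_one]
      rfl
    have h2 : i + ((n : ℤ) + 1) = i + 1 + n := by ring
    rw [h1, h2, ih, T.M_t]
  | pred n ih =>
    have h1 : (T.t ^ (-(n : ℤ) - 1)) v = (T.t ^ (-(n : ℤ))) (T.t⁻¹ v) := by
      rw [zpow_sub_one]
      rfl
    have h2 : i + (-(n : ℤ) - 1) = i - 1 + -n := by ring
    have h3 := T.M_t (i - 1) (T.t⁻¹ v)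
    have h4 : T.t (T.t⁻¹ v) = v := by
      change (T.t * T.t⁻¹) v = v
      rw [mul_inv_cancel]
      rfl
    rw [h4, sub_add_cancel] at h3
    rw [h1, h2, ih, h3]

/-- `mapDomain (Chn.map f)` commutes with the boundary -/
theorem bdc_map {V V' : Type} [PartialOrder V] [PartialOrder V'] (f : V → V') (hf : StrictMono f) {n : ℕ}
    (z : Chn V (n + 1) →₀ k) :
    bdc V' k n (Finsupp.mapDomain (Chn.map f hf) z) = Finsupp.mapDomain (Chn.map f hf) (bdc V k n z) := by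
  have h : (bdc V' k n).comp (Finsupp.lmapDomain k k (Chn.map f hf)) =
      (Finsupp.lmapDomain k k (Chn.map f hf)).comp (bdc V k n) := by
    refine Finsupp.lhom_ext' fun s => LinearMap.ext_ring ?_
    simp only [LinearMap.comp_apply, Finsupp.lsingle_apply, Finsupp.lmapDomain_apply,
      Finsupp.mapDomain_single, bdc, Finsupp.linearCombination_single, one_smul]
    have h2 : ∀ x : Chn V n →₀ k, Finsupp.mapDomain (Chn.map f hf) x =
        Finsupp.lmapDomain k k (Chn.map f hf) x := fun _ => rfl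
    rw [h2, map_sum]
    refine Finset.sum_congr rfl fun i _ => ?_
    rw [map_smul, Finsupp.lmapDomain_apply, Finsupp.mapDomain_single]
    rfl
  exact LinearMap.congr_fun h z

private theorem inn_map {V V' : Type} [PartialOrder V] [PartialOrder V'] (f : V → V') (hf : StrictMono f)
    {n : ℕ} {k : Type} [CommRing k] {W : Set V} {W' : Set V'} (h : ∀ v ∈ W, f v ∈ W')
    {z : Chn V n →₀ k} (hz : Inn W z) : Inn W' (Finsupp.mapDomain (Chn.map f hf) z) := by
  classical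
  intro s hs i
  obtain ⟨s', hs', rfl⟩ := Finset.mem_image.mp (Finsupp.mapDomain_support hs)
  exact h _ (hz s' hs' i)

private theorem map_tt {n : ℕ} (a b : ℤ) (hab : a + b = 0) (z : Chn T.V n →₀ k) :
    Finsupp.mapDomain (Chn.map (T.t ^ a) (T.t ^ a).strictMono)
      (Finsupp.mapDomain (Chn.map (T.t ^ b) (T.t ^ b).strictMono) z) = z := by
  rw [← Finsupp.mapDomain_comp]
  have h : (Chn.map (T.t ^ a) (T.t ^ a).strictMono) ∘ (Chn.map (T.t ^ b) (T.t ^ b).strictMono) =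
      (id : Chn T.V n → Chn T.V n) := by
    funext s
    apply Subtype.ext
    funext i
    change (T.t ^ a * T.t ^ b) (s.1 i) = s.1 i
    rw [← zpow_add, hab, zpow_zero]
    rfl
  rw [h, Finsupp.mapDomain_id]

private theorem dn_mem {v : T.V} (h : v ∈ T.M (l - 1) ∩ T.M l) : (T.t ^ (-l)) v ∈ T.M (-1) ∩ T.M 0 := by
  have h1 := mem_tl T (-l) (l - 1) v
  have h2 := mem_tl T (-l) l v
  rw [show l - 1 + -l = -1 by ring] at h1
  rw [show l + -l = 0 by ring] at h2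
  exact ⟨h1.2 h.1, h2.2 h.2⟩

private theorem up_mem {v : T.V} (h : v ∈ T.M (-1) ∩ T.M 0) : (T.t ^ l) v ∈ T.M (l - 1) ∩ T.M l := by
  have h1 := mem_tl T l (-1) v
  have h2 := mem_tl T l 0 v
  rw [show (-1 : ℤ) + l = l - 1 by ring] at h1
  rw [zero_add] at h2
  exact ⟨h1.2 h.1, h2.2 h.2⟩

theorem homWl (n : ℕ) (hn : n + 1 ≠ 3) (z : Chn T.V (n + 1) →₀ k) (h : Inn (T.M (l - 1) ∩ T.M l) z)
    (h0 : bdc T.V k n z = 0) :
    ∃ y : Chn T.V (n + 2) →₀ k, Inn (T.M (l - 1) ∩ T.M l) y ∧ bdc T.V k (n + 1) y = z := by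
  obtain ⟨y, hy, hyz⟩ := T.homW k n hn _
    (inn_map (T.t ^ (-l)) (T.t ^ (-l)).strictMono (fun v hv => dn_mem T l hv) h)
    (by rw [bdc_map, h0, Finsupp.mapDomain_zero])
  refine ⟨Finsupp.mapDomain (Chn.map (T.t ^ l) (T.t ^ l).strictMono) y,
    inn_map _ _ (fun v hv => up_mem T l hv) hy, ?_⟩
  rw [bdc_map, hyz, map_tt T k l (-l) (by ring)]

theorem rell (n : ℕ) (z : Chn T.V (n + 1) →₀ k) (h : Inn (T.M l) z) (h0 : Inn (T.M l ∩ T.M (l + 1)) (bdc T.V k n z)) :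
    ∃ y : Chn T.V (n + 2) →₀ k, Inn (T.M l) y ∧ Inn (T.M l ∩ T.M (l + 1)) (z - bdc T.V k (n + 1) y) := by
  have d1 : ∀ v ∈ T.M l, (T.t ^ (-l)) v ∈ T.M 0 := by
    intro v hv
    have h2 := mem_tl T (-l) l v
    rw [show l + -l = 0 by ring] at h2
    exact h2.2 hv
  have d2 : ∀ v ∈ T.M l ∩ T.M (l + 1), (T.t ^ (-l)) v ∈ T.M 0 ∩ T.M 1 := by
    intro v hv
    have h2 := mem_tl T (-l) (l + 1) v
    rw [show l + 1 + -l = 1 by ring] at h2
    exact ⟨d1 v hv.1, h2.2 hv.2⟩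
  have u1 : ∀ v ∈ T.M 0, (T.t ^ l) v ∈ T.M l := by
    intro v hv
    have h2 := mem_tl T l 0 v
    rw [zero_add] at h2
    exact h2.2 hv
  have u2 : ∀ v ∈ T.M 0 ∩ T.M 1, (T.t ^ l) v ∈ T.M l ∩ T.M (l + 1) := by
    intro v hv
    have h2 := mem_tl T l 1 v
    rw [add_comm] at h2
    exact ⟨u1 v hv.1, h2.2 hv.2⟩
  obtain ⟨y, hy, hyz⟩ := T.rel k n _
    (inn_map (T.t ^ (-l)) (T.t ^ (-l)).strictMono d1 h)
    (by
      rw [bdc_map]
      exact inn_map _ _ d2 h0)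
  refine ⟨Finsupp.mapDomain (Chn.map (T.t ^ l) (T.t ^ l).strictMono) y, inn_map _ _ u1 hy, ?_⟩
  have h3 := inn_map (T.t ^ l) (T.t ^ l).strictMono u2 hyz
  have h4 : ∀ a b : Chn T.V (n + 1) →₀ k,
      Finsupp.mapDomain (Chn.map (T.t ^ l) (T.t ^ l).strictMono) (a - b) =
      Finsupp.mapDomain (Chn.map (T.t ^ l) (T.t ^ l).strictMono) a -
      Finsupp.mapDomain (Chn.map (T.t ^ l) (T.t ^ l).strictMono) b := fun a b =>
    map_sub (Finsupp.lmapDomain k k (Chn.map (T.t ^ l) (T.t ^ l).strictMono)) a b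
  rw [h4, map_tt T k l (-l) (by ring)] at h3
  rw [bdc_map]
  exact h3

theorem zl_inn (b : P × Fin r) : Inn (T.M (l - 1) ∩ T.M l) (T.zl k l b) ∧ bdc T.V k 2 (T.zl k l b) = 0 := by
  obtain ⟨h1, h2⟩ := T.ζW k b
  refine ⟨inn_map _ _ (fun v hv => up_mem T l hv) h1, ?_⟩
  unfold Tower.zl
  rw [bdc_map, h2, Finsupp.mapDomain_zero]

private theorem mapD_sum {V V' : Type} {k : Type} [CommRing k] {ι : Type} (s : Finset ι)
    (f : V → V') (c : ι → k) (z : ι → (V →₀ k)) :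
    Finsupp.mapDomain f (∑ b ∈ s, c b • z b) = ∑ b ∈ s, c b • Finsupp.mapDomain f (z b) := by
  have h : Finsupp.lmapDomain k k f (∑ b ∈ s, c b • z b) =
      ∑ b ∈ s, c b • Finsupp.lmapDomain k k f (z b) := by
    rw [map_sum]
    simp only [map_smul]
  exact h

theorem zlb (z : Chn T.V 3 →₀ k) (h : Inn (T.M (l - 1) ∩ T.M l) z) (h0 : bdc T.V k 2 z = 0) :
    ∃! c : P × Fin r → k, z = ∑ b, c b • T.zl k l b := by
  obtain ⟨c, hc, hu⟩ := T.ζb k _
    (inn_map (T.t ^ (-l)) (T.t ^ (-l)).strictMono (fun v hv => dn_mem T l hv) h)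
    (by rw [bdc_map, h0, Finsupp.mapDomain_zero])
  refine ⟨c, ?_, fun c' hc' => hu c' ?_⟩
  · change z = ∑ b, c b • T.zl k l b
    have h1 := congrArg (Finsupp.mapDomain (Chn.map (T.t ^ l) (T.t ^ l).strictMono)) hc
    rw [map_tt T k l (-l) (by ring), mapD_sum] at h1
    exact h1
  · change Finsupp.mapDomain (Chn.map (T.t ^ (-l)) (T.t ^ (-l)).strictMono) z = ∑ b, c' b • T.ζ k b
    rw [hc', mapD_sum]
    refine Finset.sum_congr rfl fun b _ => ?_
    unfold Tower.zl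
    rw [map_tt T k (-l) l (by ring)]

/-- `t` raises the index of `zl` -/
theorem zl_t (b : P × Fin r) : Finsupp.mapDomain (Chn.map T.t T.t.strictMono) (T.zl k l b) = T.zl k (l + 1) b := by
  unfold Tower.zl
  rw [← Finsupp.mapDomain_comp]
  congr 1
  funext s
  apply Subtype.ext
  funext i
  change (T.t * T.t ^ l) (s.1 i) = (T.t ^ (l + 1)) (s.1 i)
  rw [← zpow_one_add, add_comm]

private theorem zl_t' (b : P × Fin r) :
    Finsupp.mapDomain (Chn.map (T.t ^ l) (T.t ^ l).strictMono)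
      (Finsupp.mapDomain (Chn.map T.t T.t.strictMono) (T.ζ k b)) = T.zl k (l + 1) b := by
  unfold Tower.zl
  rw [← Finsupp.mapDomain_comp]
  congr 1
  funext s
  apply Subtype.ext
  funext i
  change (T.t ^ l * T.t) (s.1 i) = (T.t ^ (l + 1)) (s.1 i)
  rw [← zpow_add_one]

private theorem reidx {P : Type} [Group P] [Fintype P] {r : ℕ} {A : Type} [AddCommMonoid A]
    (F G : P → Fin r → Fin r → P → A) (h : ∀ p j i q, F p j i q = G (p * q) i j q) :
    ∑ p, ∑ j, ∑ i, ∑ q, F p j i q = ∑ p, ∑ i, ∑ j, ∑ q, G p i j q := by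
  have hF : ∑ p, ∑ j, ∑ i, ∑ q, F p j i q =
      ∑ y : P × Fin r × Fin r × P, F y.1 y.2.1 y.2.2.1 y.2.2.2 := by
    simp only [Fintype.sum_prod_type]
  have hG : ∑ p, ∑ i, ∑ j, ∑ q, G p i j q =
      ∑ y : P × Fin r × Fin r × P, G y.1 y.2.1 y.2.2.1 y.2.2.2 := by
    simp only [Fintype.sum_prod_type]
  rw [hF, hG]
  let E : P × Fin r × Fin r × P ≃ P × Fin r × Fin r × P :=
    { toFun := fun y => (y.1 * y.2.2.2, y.2.2.1, y.2.1, y.2.2.2)
      invFun := fun y => (y.1 * y.2.2.2⁻¹, y.2.2.1, y.2.1, y.2.2.2)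
      left_inv := by
        rintro ⟨p, j, i, q⟩
        simp
      right_inv := by
        rintro ⟨p, j, i, q⟩
        simp }
  exact Fintype.sum_equiv E _ _ fun y => h _ _ _ _

/-- `Σ x_b t^l ζ b` is homologous in `M l` to `Σ (x e)_b t^(l+1) ζ b`; use `hmg`, linearity and the substitution
`(p, q) ↦ (p q, q)` -/
theorem hmgl (x : P × Fin r → k) : ∃ y : Chn T.V 4 →₀ k, Inn (T.M l) y ∧
    bdc T.V k 3 y = ∑ b, x b • T.zl k l b - ∑ b, emul e x b • T.zl k (l + 1) b := by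
  classical
  choose y hy hyb using fun b : P × Fin r => T.hmg k b.1 b.2
  have u1 : ∀ v ∈ T.M 0, (T.t ^ l) v ∈ T.M l := by
    intro v hv
    have h2 := mem_tl T l 0 v
    rw [zero_add] at h2
    exact h2.2 hv
  have hs : Inn (T.M 0) (∑ b, x b • y b) := by
    intro s hs i
    obtain ⟨b, -, hb⟩ := Finset.mem_biUnion.mp (Finsupp.support_finsetSum hs)
    exact hy b s (Finsupp.support_smul hb) i
  refine ⟨Finsupp.mapDomain (Chn.map (T.t ^ l) (T.t ^ l).strictMono) (∑ b, x b • y b),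
    inn_map _ _ u1 hs, ?_⟩
  rw [bdc_map, map_sum]
  simp only [map_smul]
  rw [mapD_sum]
  have h1 : ∀ b : P × Fin r, Finsupp.mapDomain (Chn.map (T.t ^ l) (T.t ^ l).strictMono)
      (bdc T.V k 3 (y b)) = T.zl k l b -
        ∑ i : Fin r, ∑ q : P, ((e b.2 i q : ℤ) : k) • T.zl k (l + 1) (b.1 * q, i) := by
    intro b
    rw [hyb b]
    have h2 : ∀ a c : Chn T.V 3 →₀ k,
        Finsupp.mapDomain (Chn.map (T.t ^ l) (T.t ^ l).strictMono) (a - c) =
        Finsupp.mapDomain (Chn.map (T.t ^ l) (T.t ^ l).strictMono) a -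
        Finsupp.mapDomain (Chn.map (T.t ^ l) (T.t ^ l).strictMono) c := fun a c =>
      map_sub (Finsupp.lmapDomain k k (Chn.map (T.t ^ l) (T.t ^ l).strictMono)) a c
    rw [h2]
    congr 1
    have h3 : ∀ f : Fin r → (Chn T.V 3 →₀ k),
        Finsupp.mapDomain (Chn.map (T.t ^ l) (T.t ^ l).strictMono) (∑ i, f i) =
        ∑ i, Finsupp.mapDomain (Chn.map (T.t ^ l) (T.t ^ l).strictMono) (f i) := fun f =>
      map_sum (Finsupp.lmapDomain k k (Chn.map (T.t ^ l) (T.t ^ l).strictMono)) f _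
    rw [h3]
    refine Finset.sum_congr rfl fun i _ => ?_
    rw [mapD_sum]
    refine Finset.sum_congr rfl fun q _ => ?_
    rw [zl_t']
  simp only [h1, smul_sub, Finset.sum_sub_distrib]
  congr 1
  simp only [emul, Finset.sum_smul, Finset.smul_sum, smul_smul]
  rw [Fintype.sum_prod_type, Fintype.sum_prod_type]
  refine reidx (fun p j i q => (x (p, j) * ((e j i q : ℤ) : k)) • T.zl k (l + 1) (p * q, i))
    (fun p i j q => (((e j i q : ℤ) : k) * x (p * q⁻¹, j)) • T.zl k (l + 1) (p, i)) ?_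
  intro p j i q
  change (x (p, j) * ((e j i q : ℤ) : k)) • T.zl k (l + 1) (p * q, i) =
    (((e j i q : ℤ) : k) * x (p * q * q⁻¹, j)) • T.zl k (l + 1) (p * q, i)
  rw [mul_inv_cancel_right, mul_comm]

theorem dimWl (s : Chn T.V 4) : ∃ i, s.1 i ∉ T.M (l - 1) ∩ T.M l := by
  obtain ⟨i, hi⟩ := T.dimW (Chn.map (T.t ^ (-l)) (T.t ^ (-l)).strictMono s)
  exact ⟨i, fun h => hi (dn_mem T l h)⟩

/-- `P` acts on the `zl` -/
theorem zl_P (q p : P) (j : Fin r) :
    Finsupp.mapDomain (Chn.map (T.ρ q) (T.ρ q).strictMono) (T.zl k l (p, j)) = T.zl k l (q * p, j) := by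
  unfold Tower.zl
  rw [T.ζP, ← Finsupp.mapDomain_comp, ← Finsupp.mapDomain_comp]
  congr 1
  funext s
  apply Subtype.ext
  funext i
  have h1 : Commute T.t (T.ρ q) := by
    refine RelIso.ext fun v => ?_
    exact T.comm q v
  have h2 := (h1.zpow_left l).eq
  change (T.ρ q * T.t ^ l) (s.1 i) = (T.t ^ l * T.ρ q) (s.1 i)
  rw [h2]

end Pool.Agent.H59.FS
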