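import Pool.Agent.H59.FS.BlkU

set_option autoImplicit false

/-!
# MP_5c3080_gt, row [H59 FS BlkD]: the descending complex

Tools: `dec`, `dec_uni`, `cV_inj`, `bdc_cV`, `bdc_cT`, `bdc_cT0`, `lk_cV`, `lk_cT`, `sp_alT` (BlkA), `homWl`, `rell`, `zl_inn`,
`zlb`, `hmgl`, `dimWl` (BlkB), `bdc_bdc`, `no5` (BlkU). Write `κ = cV a + cT b`, `a` in `M l`, `b` in `W_l = M (l-1) ∩ M l`;
`bdc κ = 0` says `bdc b = 0` and `bdc a = ± b` (for `n = 0`: `bdc a = - b`). Note `W_(l+1) = M l ∩ M (l+1)`.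

(rl) LEMMA. A cycle `a` of degree `n + 1` of `M l` is `bdc y + c`, `y` in `M l`, `c` a cycle of `W_(l+1)` (`rell`).
`dn_exact` (`n ≠ 2, 3`). (i) reduce to `b = 0`: if `n = 0`, `b` is a multiple of the empty chain: let `v` be an element of
`W_l` (`neW` translated; or use `homWl`-free argument: `b = bdc (b')` with `b' = b` on the chain `{v}`), replace `κ` by
`κ - bdc (± cT b')`; if `n ≥ 1`: `b` is a cycle of degree `n ≠ 3` of `W_l`, `b = bdc b'` (`homWl`). (ii) `b = 0`: `a` is a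
cycle of `M l` of degree `n + 1 ≠ 3`; (rl) and `homWl` for `c`.
`dn3`: (i) as above with `n = 2` (`b` has degree 2); (ii) `a` is a cycle of degree 3, (rl): `a = bdc y + c`, `c` a cycle of
`W_(l+1)` of degree 3, so `c = Σ x_b t^(l+1) ζ b` (`zlb` for `l + 1`).
`zs_inj`: `cV_inj` and uniqueness in `zlb`. `zs_alw`: `zl_inn`, `sp_alT`-like (only chains without `⊤`).
`dn3_inj`: `κ' = cV a + cT b`, `b` in `W_l` of degree 3: `bdc b = 0` and `zs (l+1) x = cV (bdc a - b)`. `b = Σ y_b t^l ζ b`,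
by `hmgl` `b = bdc d + Σ (y e)_b t^(l+1) ζ b`, so `Σ (x + y e)_b t^(l+1) ζ b = bdc (a - d)` with `a - d` in `M l` of degree
4; `rell` (`n = 3`): `a - d - bdc y'` is in `W_(l+1)`, so zero by `dimWl`; so `Σ (x + y e)_b t^(l+1) ζ b = 0`,
`x = - y e = emul e (-y)`.
`dn3_zero`: `hmgl` gives `y` with `bdc y = Σ x t^l ζ - Σ (x e) t^(l+1) ζ`; `κ' := - cV y - cT (Σ x t^l ζ)`: `bdc κ' =
- cV (Σ x t^l ζ) + cV (Σ (x e) ..) - ((-1)^3 cV (Σ x t^l ζ))`: right.
`dn4`: `x e = 0`: `y` with `bdc y = Σ x t^l ζ`; `κ := - cV' y ... `: `κ = cV y' + cT b` with `lk ⊤ κ = (-1)^3 cV b`, so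
`b = - Σ x t^l ζ`, `bdc κ = cV (bdc y') + (-1)^3 cV b`, so `bdc y' = b`, `y' = - y`.
`dn4'`: `lk ⊤ κ = - cV b`, `b = bdc a` (sign) cycle of `W_l`, `b = - Σ x t^l ζ`; by `hmgl` `Σ (x e)_b t^(l+1) ζ` is a
boundary in `M l` of degree 4, so zero as in `dn3_inj`.
`dn4_uni`: `b = 0`, `a` is a cycle of degree 4 of `M l`: `rell`: `a - bdc y` in `W_(l+1)`, so zero, and `y` has degree 5, `dim`.
-/

namespace Pool.Agent.H59.FS

variable {P : Type} [Group P] [Fintype P] {r : ℕ} {e : Fin r → Fin r → P → ℤ}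
variable (T : Tower P r e) (k : Type) [CommRing k] (l : ℤ)

private theorem Inn.zero' {V : Type} [PartialOrder V] {k : Type} [CommRing k] {n : ℕ} (W : Set V) :
    Inn W (0 : Chn V n →₀ k) := by
  intro s hs
  simp at hs

private theorem Inn.add' {V : Type} [PartialOrder V] {k : Type} [CommRing k] {n : ℕ} {W : Set V}
    {x y : Chn V n →₀ k} (hx : Inn W x) (hy : Inn W y) : Inn W (x + y) := by
  classical
  intro s hs
  rcases Finset.mem_union.1 (Finsupp.support_add hs) with h | h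
  · exact hx s h
  · exact hy s h

private theorem Inn.smul' {V : Type} [PartialOrder V] {k : Type} [CommRing k] {n : ℕ} {W : Set V}
    {x : Chn V n →₀ k} (c : k) (hx : Inn W x) : Inn W (c • x) :=
  fun s hs => hx s (Finsupp.support_smul hs)

private theorem Inn.neg' {V : Type} [PartialOrder V] {k : Type} [CommRing k] {n : ℕ} {W : Set V}
    {x : Chn V n →₀ k} (hx : Inn W x) : Inn W (-x) := by
  intro s hs
  rw [Finsupp.support_neg] at hs
  exact hx s hs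

private theorem Inn.mono' {V : Type} [PartialOrder V] {k : Type} [CommRing k] {n : ℕ} {W W' : Set V}
    (h : W ⊆ W') {x : Chn V n →₀ k} (hx : Inn W x) : Inn W' x :=
  fun s hs i => h (hx s hs i)

include l in
private theorem exists_mem_W : ∃ v, v ∈ T.M (l - 1) ∩ T.M l := by
  obtain ⟨v, ⟨h1, h2⟩, -, -⟩ := T.neW
  refine ⟨(T.t ^ l) v, ?_, ?_⟩
  · have h := (mem_tl T l (-1) v).2 h1
    have e1 : (-1 : ℤ) + l = l - 1 := by ring
    rwa [e1] at h
  · have h := (mem_tl T l 0 v).2 h2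
    rwa [zero_add] at h

private theorem cone0 (b : Chn T.V 0 →₀ k) :
    ∃ b' : Chn T.V 1 →₀ k, Inn (T.M (l - 1) ∩ T.M l) b' ∧ bdc T.V k 0 b' = b := by
  obtain ⟨v, hv⟩ := exists_mem_W T l
  have hs : Subsingleton (Chn T.V 0) := ⟨fun a b => Subtype.ext (funext fun i => i.elim0)⟩
  let e0 : Chn T.V 0 := ⟨fun i => i.elim0, fun i => i.elim0⟩
  let s : Chn T.V 1 := ⟨fun _ => v, Subsingleton.strictMono _⟩
  refine ⟨Finsupp.single s (b e0), ?_, ?_⟩
  · intro s' hs' i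
    have h1 := Finsupp.support_single_subset hs'
    rw [Finset.mem_singleton] at h1
    rw [h1]
    exact hv
  · have h2 : b = Finsupp.single e0 (b e0) := by
      ext a
      rw [Subsingleton.elim a e0, Finsupp.single_eq_same]
    unfold bdc
    rw [Finsupp.linearCombination_single, Fin.sum_univ_one]
    rw [Subsingleton.elim (s.del 0) e0]
    simp only [Fin.val_zero, pow_zero, one_smul]
    rw [Finsupp.smul_single_one]
    exact h2.symm

/-- the reduction to chains without `⊤` -/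
private theorem red (n : ℕ) (hn' : n ≠ 3) (κ : Chn (WithTop T.V) (n + 1) →₀ k) (h : Sp (AlT T.M l) κ)
    (h0 : bdc (WithTop T.V) k n κ = 0) :
    ∃ a b' : Chn T.V (n + 1) →₀ k, Inn (T.M l) a ∧ Inn (T.M (l - 1) ∩ T.M l) b' ∧ bdc T.V k n a = 0 ∧
      κ = cV k (n + 1) a + bdc (WithTop T.V) k (n + 1) (cT k (n + 1) b') := by
  obtain ⟨a, b, hab⟩ := dec κ
  have hsp := h
  rw [hab, sp_alT] at hsp
  obtain ⟨ha, hb⟩ := hsp
  have hb' : ∃ b' : Chn T.V (n + 1) →₀ k, Inn (T.M (l - 1) ∩ T.M l) b' ∧ bdc T.V k n b' = b := by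
    cases n with
    | zero => exact cone0 T k l b
    | succ m =>
      have h1 : bdc T.V k m b = 0 := by
        rw [hab, map_add, bdc_cV, bdc_cT] at h0
        have h2 : cV k (m + 1) (bdc T.V k (m + 1) a + (-1 : k) ^ (m + 1) • b) + cT k m (bdc T.V k m b) = 0 := by
          rw [← h0, map_add, map_smul]
          abel
        exact (dec_uni _ _ h2).2
      exact homWl T k l m hn' b hb h1
  obtain ⟨b', hb1, hb2⟩ := hb'
  refine ⟨a - (-1 : k) ^ (n + 1) • b', b', ?_, hb1, ?_, ?_⟩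
  · rw [sub_eq_add_neg]
    exact Inn.add' ha (Inn.neg' (Inn.smul' _ (Inn.mono' Set.inter_subset_right hb1)))
  · refine cV_inj _ ?_
    rw [← bdc_cV, map_sub, map_smul]
    have h3 : cV k (n + 1) a - (-1 : k) ^ (n + 1) • cV k (n + 1) b' =
        κ - bdc (WithTop T.V) k (n + 1) (cT k (n + 1) b') := by
      rw [hab, bdc_cT, hb2]
      abel
    rw [h3, map_sub, h0, bdc_bdc, sub_zero]
  · rw [bdc_cT, hb2, hab, map_sub, map_smul]
    abel

private theorem rl (n : ℕ) (a : Chn T.V (n + 1) →₀ k) (ha : Inn (T.M l) a) (h0 : bdc T.V k n a = 0) :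
    ∃ (y : Chn T.V (n + 2) →₀ k) (c : Chn T.V (n + 1) →₀ k), Inn (T.M l) y ∧
      Inn (T.M (l + 1 - 1) ∩ T.M (l + 1)) c ∧ bdc T.V k n c = 0 ∧ a = bdc T.V k (n + 1) y + c := by
  obtain ⟨y, hy, hc⟩ := rell T k l n a ha (by rw [h0]; exact Inn.zero' _)
  refine ⟨y, a - bdc T.V k (n + 1) y, hy, ?_, ?_, ?_⟩
  · rw [add_sub_cancel_right]
    exact hc
  · rw [map_sub, h0, bdc_bdc, sub_zero]
  · abel

theorem dn_exact (n : ℕ) (hn : n ≠ 2) (hn' : n ≠ 3) (κ : Chn (WithTop T.V) (n + 1) →₀ k) (h : Sp (AlT T.M l) κ)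
    (h0 : bdc (WithTop T.V) k n κ = 0) :
    ∃ κ' : Chn (WithTop T.V) (n + 2) →₀ k, Sp (AlT T.M l) κ' ∧ bdc (WithTop T.V) k (n + 1) κ' = κ := by
  obtain ⟨a, b', ha, hb', ha0, hk⟩ := red T k l n hn' κ h h0
  obtain ⟨y, c, hy, hc, hc0, hac⟩ := rl T k l n a ha ha0
  obtain ⟨y', hy', hy0⟩ := homWl T k (l + 1) n (by omega) c hc hc0
  refine ⟨cV k (n + 2) (y + y') + cT k (n + 1) b', ?_, ?_⟩
  · rw [sp_alT]
    refine ⟨Inn.add' hy ?_, hb'⟩
    rw [add_sub_cancel_right] at hy'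
    exact Inn.mono' Set.inter_subset_left hy'
  · rw [hk, hac, map_add, bdc_cV, map_add, hy0]

/-- `H_3 (D_l)` is generated by the `t^(l+1) ζ b` -/
theorem dn3 (κ : Chn (WithTop T.V) 3 →₀ k) (h : Sp (AlT T.M l) κ) (h0 : bdc (WithTop T.V) k 2 κ = 0) :
    ∃ (x : P × Fin r → k) (κ' : Chn (WithTop T.V) 4 →₀ k), Sp (AlT T.M l) κ' ∧
      κ = T.zs k (l + 1) x + bdc (WithTop T.V) k 3 κ' := by
  obtain ⟨a, b', ha, hb', ha0, hk⟩ := red T k l 2 (by norm_num) κ h h0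
  obtain ⟨y, c, hy, hc, hc0, hac⟩ := rl T k l 2 a ha ha0
  obtain ⟨x, hx, -⟩ := zlb T k (l + 1) c hc hc0
  refine ⟨x, cV k 4 y + cT k 3 b', ?_, ?_⟩
  · rw [sp_alT]
    exact ⟨hy, hb'⟩
  · have h1 : T.zs k (l + 1) x = cV k 3 c := by
      unfold Tower.zs
      rw [← hx]
    rw [h1, map_add, bdc_cV, hk, hac, map_add]
    abel

end Pool.Agent.H59.FS
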