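import Pool.Agent.H59.FS.BlkU

set_option autoImplicit false

/-!
# MP_5c3080_gt, row [H59 FS BlkE]: the cycles `zs` in the descending complex (proofs in the head of BlkD.lean)
-/

namespace Pool.Agent.H59.FS

variable {P : Type} [Group P] [Fintype P] {r : ℕ} {e : Fin r → Fin r → P → ℤ}
variable (T : Tower P r e) (k : Type) [CommRing k] (l : ℤ)

private theorem inn_zero {V : Type} [PartialOrder V] {k : Type} [CommRing k] {n : ℕ} (W : Set V) :
    Inn W (0 : Chn V n →₀ k) := by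
  intro s hs
  simp at hs

private theorem inn_add {V : Type} [PartialOrder V] {k : Type} [CommRing k] {n : ℕ} {W : Set V}
    {x y : Chn V n →₀ k} (hx : Inn W x) (hy : Inn W y) : Inn W (x + y) := by
  classical
  intro s hs
  rcases Finset.mem_union.1 (Finsupp.support_add hs) with h | h
  · exact hx s h
  · exact hy s h

private theorem inn_smul {V : Type} [PartialOrder V] {k : Type} [CommRing k] {n : ℕ} {W : Set V}
    {x : Chn V n →₀ k} (c : k) (hx : Inn W x) : Inn W (c • x) :=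
  fun s hs => hx s (Finsupp.support_smul hs)

private theorem inn_neg {V : Type} [PartialOrder V] {k : Type} [CommRing k] {n : ℕ} {W : Set V}
    {x : Chn V n →₀ k} (hx : Inn W x) : Inn W (-x) := by
  intro s hs
  rw [Finsupp.support_neg] at hs
  exact hx s hs

private theorem inn_mono {V : Type} [PartialOrder V] {k : Type} [CommRing k] {n : ℕ}
    {W W' : Set V} (h : W ⊆ W') {x : Chn V n →₀ k} (hx : Inn W x) : Inn W' x :=
  fun s hs i => h (hx s hs i)

private theorem inn_sum {V : Type} [PartialOrder V] {k : Type} [CommRing k] {n : ℕ} {W : Set V}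
    {ι : Type} (s : Finset ι) (f : ι → (Chn V n →₀ k)) (h : ∀ i ∈ s, Inn W (f i)) :
    Inn W (∑ i ∈ s, f i) := by
  classical
  induction s using Finset.induction_on with
  | empty =>
    rw [Finset.sum_empty]
    exact inn_zero W
  | insert a s ha ih =>
    rw [Finset.sum_insert ha]
    exact inn_add (h a (Finset.mem_insert_self a s))
      (ih fun i hi => h i (Finset.mem_insert_of_mem hi))

/-- the cycle as a chain of `V` -/
private noncomputable def zc (x : P × Fin r → k) : Chn T.V 3 →₀ k := ∑ b, x b • T.zl k l b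

private theorem zs_eq (x : P × Fin r → k) : T.zs k l x = cV k 3 (zc T k l x) := rfl

private theorem zc_inn (x : P × Fin r → k) : Inn (T.M (l - 1) ∩ T.M l) (zc T k l x) :=
  inn_sum _ _ fun b _ => inn_smul _ (zl_inn T k l b).1

private theorem zc_bdc (x : P × Fin r → k) : bdc T.V k 2 (zc T k l x) = 0 := by
  unfold zc
  rw [map_sum]
  refine Finset.sum_eq_zero fun b _ => ?_
  rw [map_smul, (zl_inn T k l b).2, smul_zero]

private theorem zc_inn' (x : P × Fin r → k) : Inn (T.M l ∩ T.M (l + 1)) (zc T k (l + 1) x) := by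
  have h := zc_inn T k (l + 1) x
  rw [add_sub_cancel_right] at h
  exact h

private theorem zc_add (x y : P × Fin r → k) : zc T k l (x + y) = zc T k l x + zc T k l y := by
  unfold zc
  rw [← Finset.sum_add_distrib]
  refine Finset.sum_congr rfl fun b _ => ?_
  rw [Pi.add_apply, add_smul]

private theorem zc_neg (x : P × Fin r → k) : zc T k l (-x) = -zc T k l x := by
  unfold zc
  rw [← Finset.sum_neg_distrib]
  refine Finset.sum_congr rfl fun b _ => ?_
  rw [Pi.neg_apply, neg_smul]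

private theorem zc_inj (x : P × Fin r → k) (h : zc T k l x = 0) : x = 0 := by
  have h1 := zlb T k l 0 (inn_zero _) (map_zero _)
  refine h1.unique (y₁ := x) (y₂ := 0) h.symm ?_
  change (0 : Chn T.V 3 →₀ k) = ∑ b, (0 : P × Fin r → k) b • T.zl k l b
  symm
  refine Finset.sum_eq_zero fun b _ => ?_
  rw [Pi.zero_apply, zero_smul]

private theorem emul_neg (x : P × Fin r → k) : emul e (-x) = -emul e x := by
  funext b
  simp only [emul, Pi.neg_apply, mul_neg, Finset.sum_neg_distrib]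

/-- no chains with four elements in `M l ∩ M (l + 1)` -/
private theorem dim4 (z : Chn T.V 4 →₀ k) (h : Inn (T.M l ∩ T.M (l + 1)) z) : z = 0 := by
  rw [← Finsupp.support_eq_empty, Finset.eq_empty_iff_forall_notMem]
  intro s hs
  obtain ⟨i, hi⟩ := dimWl T (l + 1) s
  rw [add_sub_cancel_right] at hi
  exact hi (h s hs i)

private theorem cyc4 (w : Chn T.V 4 →₀ k) (hw : Inn (T.M l) w)
    (h : Inn (T.M l ∩ T.M (l + 1)) (bdc T.V k 3 w)) :
    ∃ y : Chn T.V 5 →₀ k, w = bdc T.V k 4 y := by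
  obtain ⟨y, -, hy⟩ := rell T k l 3 w hw h
  refine ⟨y, ?_⟩
  have := dim4 T k l _ hy
  exact sub_eq_zero.1 this

private theorem bd_zero (w : Chn T.V 4 →₀ k) (hw : Inn (T.M l) w)
    (h : Inn (T.M l ∩ T.M (l + 1)) (bdc T.V k 3 w)) : bdc T.V k 3 w = 0 := by
  obtain ⟨y, rfl⟩ := cyc4 T k l w hw h
  exact bdc_bdc 3 y

/-- the two components of the boundary -/
private theorem bd_dec (a : Chn T.V 4 →₀ k) (b : Chn T.V 3 →₀ k) :
    bdc (WithTop T.V) k 3 (cV k 4 a + cT k 3 b) =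
      cV k 3 (bdc T.V k 3 a - b) + cT k 2 (bdc T.V k 2 b) := by
  rw [map_add, bdc_cV, bdc_cT, map_sub]
  have h : ((-1 : k) ^ (2 + 1)) • cV k (2 + 1) b = -cV k 3 b := by
    rw [show ((-1 : k) ^ (2 + 1)) = -1 by ring, neg_smul, one_smul]
  rw [h]
  abel

private theorem lk_dec (a : Chn T.V 4 →₀ k) (b : Chn T.V 3 →₀ k) :
    lk k (⊤ : WithTop T.V) 3 (cV k 4 a + cT k 3 b) = -cV k 3 b := by
  rw [map_add, lk_cV, lk_cT, zero_add, show ((-1 : k) ^ 3) = -1 by ring, neg_smul, one_smul]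

theorem zs_alw (x : P × Fin r → k) : Sp (AlT T.M l) (T.zs k (l + 1) x) ∧ bdc (WithTop T.V) k 2 (T.zs k l x) = 0 := by
  constructor
  · rw [zs_eq]
    have h : cV k 3 (zc T k (l + 1) x) = cV k (2 + 1) (zc T k (l + 1) x) + cT k 2 0 := by
      rw [map_zero, add_zero]
    rw [h, sp_alT]
    exact ⟨inn_mono Set.inter_subset_left (zc_inn' T k l x), inn_zero _⟩
  · rw [zs_eq, bdc_cV, zc_bdc, map_zero]

theorem zs_inj (x : P × Fin r → k) (h : T.zs k l x = 0) : x = 0 := by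
  rw [zs_eq] at h
  exact zc_inj T k l x (cV_inj _ h)

theorem zs_add (x y : P × Fin r → k) : T.zs k l (x + y) = T.zs k l x + T.zs k l y := by
  rw [zs_eq, zs_eq, zs_eq, zc_add, map_add]

theorem zs_smul (a : k) (x : P × Fin r → k) : T.zs k l (a • x) = a • T.zs k l x := by
  rw [zs_eq, zs_eq, ← map_smul]
  congr 1
  unfold zc
  rw [Finset.smul_sum]
  refine Finset.sum_congr rfl fun b _ => ?_
  rw [Pi.smul_apply, smul_smul, smul_eq_mul]

/-- `H_3 (D_l) = k[P]^r / k[P]^r e` -/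
theorem dn3_inj (x : P × Fin r → k) (κ' : Chn (WithTop T.V) 4 →₀ k) (h : Sp (AlT T.M l) κ')
    (h0 : T.zs k (l + 1) x = bdc (WithTop T.V) k 3 κ') : ∃ y : P × Fin r → k, x = emul e y := by
  obtain ⟨a, b, rfl⟩ := dec κ'
  rw [sp_alT] at h
  obtain ⟨ha, hb⟩ := h
  rw [zs_eq, bd_dec] at h0
  have h1 : cV k (2 + 1) (bdc T.V k 3 a - b - zc T k (l + 1) x) + cT k 2 (bdc T.V k 2 b) = 0 := by
    rw [map_sub, h0]
    abel
  obtain ⟨h2, h3⟩ := dec_uni _ _ h1
  obtain ⟨y, hy, -⟩ := zlb T k l b hb h3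
  obtain ⟨d, hd, hd2⟩ := hmgl T k l y
  have h4 : zc T k (l + 1) (x + emul e y) = bdc T.V k 3 (a - d) := by
    have e1 : bdc T.V k 3 d = b - zc T k (l + 1) (emul e y) := by
      rw [hd2]
      change _ = b - ∑ b, emul e y b • T.zl k (l + 1) b
      rw [← hy]
    rw [zc_add, map_sub, e1]
    have e2 : zc T k (l + 1) x = bdc T.V k 3 a - b := (sub_eq_zero.1 h2).symm
    rw [e2]
    abel
  have h5 : bdc T.V k 3 (a - d) = 0 := by
    refine bd_zero T k l _ ?_ ?_
    · rw [sub_eq_add_neg]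
      exact inn_add ha (inn_neg hd)
    · rw [← h4]
      exact zc_inn' T k l _
  rw [h5] at h4
  have h6 := zc_inj T k (l + 1) _ h4
  exact ⟨-y, by rw [emul_neg]; exact eq_neg_of_add_eq_zero_left h6⟩

theorem dn3_zero (x : P × Fin r → k) :
    ∃ κ' : Chn (WithTop T.V) 4 →₀ k, Sp (AlT T.M l) κ' ∧ bdc (WithTop T.V) k 3 κ' = T.zs k (l + 1) (emul e x) := by
  obtain ⟨y, hy, hy2⟩ := hmgl T k l x
  refine ⟨cV k 4 (-y) + cT k 3 (-zc T k l x), ?_, ?_⟩
  · rw [sp_alT]
    exact ⟨inn_neg hy, inn_neg (zc_inn T k l x)⟩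
  · rw [bd_dec, map_neg, map_neg, zc_bdc, neg_zero, map_zero, add_zero, zs_eq]
    congr 1
    rw [hy2]
    change -(zc T k l x - zc T k (l + 1) (emul e x)) - -zc T k l x = zc T k (l + 1) (emul e x)
    abel

/-- the cycles of degree 4 of `D_l` -/
theorem dn4 (x : P × Fin r → k) (h : emul e x = 0) : ∃ κ : Chn (WithTop T.V) 4 →₀ k, Sp (AlT T.M l) κ ∧
    bdc (WithTop T.V) k 3 κ = 0 ∧ lk k (⊤ : WithTop T.V) 3 κ = T.zs k l x := by
  obtain ⟨y, hy, hy2⟩ := hmgl T k l x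
  have hy3 : bdc T.V k 3 y = zc T k l x := by
    rw [hy2, h]
    change zc T k l x - ∑ b, (0 : P × Fin r → k) b • T.zl k (l + 1) b = zc T k l x
    rw [Finset.sum_eq_zero (fun b _ => by rw [Pi.zero_apply, zero_smul]), sub_zero]
  refine ⟨cV k 4 (-y) + cT k 3 (-zc T k l x), ?_, ?_, ?_⟩
  · rw [sp_alT]
    exact ⟨inn_neg hy, inn_neg (zc_inn T k l x)⟩
  · rw [bd_dec, map_neg, map_neg, zc_bdc, neg_zero, map_zero, add_zero, hy3, sub_self, map_zero]
  · rw [lk_dec, map_neg, neg_neg]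
    rfl

theorem dn4' (κ : Chn (WithTop T.V) 4 →₀ k) (h : Sp (AlT T.M l) κ) (h0 : bdc (WithTop T.V) k 3 κ = 0) :
    ∃ x : P × Fin r → k, emul e x = 0 ∧ lk k (⊤ : WithTop T.V) 3 κ = T.zs k l x := by
  obtain ⟨a, b, rfl⟩ := dec κ
  rw [sp_alT] at h
  obtain ⟨ha, hb⟩ := h
  rw [bd_dec] at h0
  obtain ⟨h2, h3⟩ := dec_uni (n := 2) _ _ h0
  obtain ⟨y, hy, -⟩ := zlb T k l b hb h3
  obtain ⟨d, hd, hd2⟩ := hmgl T k l y
  have h4 : zc T k (l + 1) (emul e y) = bdc T.V k 3 (a - d) := by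
    have e1 : bdc T.V k 3 d = b - zc T k (l + 1) (emul e y) := by
      rw [hd2]
      change _ = b - ∑ b, emul e y b • T.zl k (l + 1) b
      rw [← hy]
    rw [map_sub, e1, sub_eq_zero.1 h2]
    abel
  have h5 : bdc T.V k 3 (a - d) = 0 := by
    refine bd_zero T k l _ ?_ ?_
    · rw [sub_eq_add_neg]
      exact inn_add ha (inn_neg hd)
    · rw [← h4]
      exact zc_inn' T k l _
  rw [h5] at h4
  have h6 := zc_inj T k (l + 1) _ h4
  refine ⟨-y, ?_, ?_⟩
  · rw [emul_neg, h6, neg_zero]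
  · rw [lk_dec, zs_eq, zc_neg, map_neg]
    change -cV k 3 b = -cV k 3 (∑ b, y b • T.zl k l b)
    rw [← hy]

theorem dn4_uni (κ : Chn (WithTop T.V) 4 →₀ k) (h : Sp (AlT T.M l) κ) (h0 : bdc (WithTop T.V) k 3 κ = 0)
    (h1 : lk k (⊤ : WithTop T.V) 3 κ = 0) : κ = 0 := by
  obtain ⟨a, b, rfl⟩ := dec κ
  rw [sp_alT] at h
  obtain ⟨ha, hb⟩ := h
  rw [lk_dec, neg_eq_zero] at h1
  have hb0 : b = 0 := cV_inj _ h1
  rw [bd_dec, hb0] at h0
  obtain ⟨h2, -⟩ := dec_uni (n := 2) _ _ h0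
  rw [sub_zero] at h2
  obtain ⟨y, hy⟩ := cyc4 T k l a ha (by rw [h2]; exact inn_zero _)
  haveI := T.dim
  have hy0 : y = 0 := by
    ext s
    exact (T.dim.false s).elim
  rw [hb0, hy, hy0, map_zero, map_zero, map_zero, add_zero]

end Pool.Agent.H59.FS
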