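import Pool.Agent.H59.FS.BlkA
import Pool.Agent.H59.FS.BlkB

/-!
# MP_5c3080_gt, row [H59 FS BlkU]: the ascending complex is exact, no chains with five elements

Proofs. `up_exact0`, `dn_exact0`: `κ = cV κ'` (`cV_zero_bij`), take `cT κ'` (`bdc_cT0`, support: no elements of `V`).
`up_exact`: `κ = cV a + cT b` (`dec`, `sp_alw`: `a` in `M l`, `b` in `M l ∩ M (l+1)`). `n = 0`: `bdc κ = cV (bdc a + b)`, so
`b = - bdc a` (`cV_inj`) ; `n = m + 1`: `bdc κ = cV (bdc a + (-1)^n b) + cT (bdc b)`, so `bdc a = - (-1)^n b` and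
`bdc b = 0` (`dec_uni`). In both cases `bdc a` is in `M l ∩ M (l+1)`; `rell` gives `y` in `M l` with
`c := a - bdc y` in `M l ∩ M (l+1)`. Put `κ' := cV y + (-1)^(n+1) cT c`. Then
`bdc κ' = cV (bdc y) + (-1)^(n+1) (cT (bdc c) + (-1)^(n+1) cV c) = cV (bdc y + c) + (-1)^(n+1) cT (bdc c) = cV a + cT b`
because `bdc c = bdc a` (`bdc bdc = 0`) `= - (-1)^n b`. (`bdc bdc = 0`: `bdc_bdc` below, prove it as well: the usual
cancellation, `Chn.del_del` = `del_del` of Zed.lean; or the same computation as in helper files for `Fin.succAbove`.)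
`no5`: without `⊤`: five elements of `V` (`dim`); with `⊤`: the first four are in `M l ∩ M (l+1)` resp.
`M (l-1) ∩ M l`, against `dimWl`.
-/

set_option autoImplicit false

namespace Pool.Agent.H59.FS

private theorem alt_sum {M : Type} [AddCommGroup M] {n : ℕ} (f : Fin (n + 2) → Fin (n + 1) → M)
    (h : ∀ i j : Fin (n + 1), i ≤ j → f j.succ i = - f i.castSucc j) : ∑ a, ∑ b, f a b = 0 := by
  have h1 : ∀ (a : Fin (n + 2)) (b : Fin (n + 1)), f a b =
      (if b.castSucc < a then f a b else 0) + (if a ≤ b.castSucc then f a b else 0) := by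
    intro a b
    by_cases hc : b.castSucc < a
    · rw [if_pos hc, if_neg (not_le.2 hc), add_zero]
    · rw [if_neg hc, if_pos (not_lt.1 hc), zero_add]
  have h2 : ∑ a, ∑ b, f a b = (∑ a, ∑ b : Fin (n + 1), if b.castSucc < a then f a b else 0) +
      ∑ a, ∑ b : Fin (n + 1), if a ≤ b.castSucc then f a b else 0 := by
    rw [← Finset.sum_add_distrib]
    refine Finset.sum_congr rfl fun a _ => ?_
    rw [← Finset.sum_add_distrib]
    exact Finset.sum_congr rfl fun b _ => h1 a b
  have h3 : (∑ a, ∑ b : Fin (n + 1), if b.castSucc < a then f a b else 0) =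
      ∑ j : Fin (n + 1), ∑ i : Fin (n + 1), if i ≤ j then f j.succ i else 0 := by
    rw [Fin.sum_univ_succ]
    have h4 : (∑ b : Fin (n + 1), if b.castSucc < (0 : Fin (n + 2)) then f 0 b else 0) = 0 :=
      Finset.sum_eq_zero fun b _ => if_neg (Fin.not_lt_zero _)
    rw [h4, zero_add]
    refine Finset.sum_congr rfl fun j _ => Finset.sum_congr rfl fun i _ => ?_
    have h5 : i.castSucc < j.succ ↔ i ≤ j := by
      rw [Fin.lt_def, Fin.le_def]
      simp only [Fin.val_castSucc, Fin.val_succ]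
      omega
    simp only [h5]
  have h6 : (∑ a, ∑ b : Fin (n + 1), if a ≤ b.castSucc then f a b else 0) =
      ∑ i : Fin (n + 1), ∑ j : Fin (n + 1), if i ≤ j then f i.castSucc j else 0 := by
    rw [Fin.sum_univ_castSucc]
    have h4 : (∑ b : Fin (n + 1), if Fin.last (n + 1) ≤ b.castSucc then f (Fin.last (n + 1)) b
        else 0) = 0 :=
      Finset.sum_eq_zero fun b _ => if_neg (not_le.2 (Fin.castSucc_lt_last b))
    rw [h4, add_zero]
    refine Finset.sum_congr rfl fun i _ => Finset.sum_congr rfl fun j _ => ?_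
    simp only [Fin.castSucc_le_castSucc_iff]
  rw [h2, h3, h6, Finset.sum_comm, ← Finset.sum_add_distrib]
  refine Finset.sum_eq_zero fun i _ => ?_
  rw [← Finset.sum_add_distrib]
  refine Finset.sum_eq_zero fun j _ => ?_
  by_cases hc : i ≤ j
  · rw [if_pos hc, if_pos hc, h i j hc, neg_add_cancel]
  · rw [if_neg hc, if_neg hc, add_zero]

private theorem bdc_single {V : Type} [PartialOrder V] {k : Type} [CommRing k] (n : ℕ)
    (s : Chn V (n + 1)) : bdc V k n (Finsupp.single s 1) =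
      ∑ i : Fin (n + 1), (-1 : k) ^ (i : ℕ) • Finsupp.single (s.del i) (1 : k) := by
  unfold bdc
  rw [Finsupp.linearCombination_single, one_smul]

theorem bdc_bdc {V : Type} [PartialOrder V] {k : Type} [CommRing k] (n : ℕ) (z : Chn V (n + 2) →₀ k) :
    bdc V k n (bdc V k (n + 1) z) = 0 := by
  have h : (bdc V k n).comp (bdc V k (n + 1)) = 0 := by
    apply Finsupp.lhom_ext'
    intro s
    apply LinearMap.ext_ring
    simp only [LinearMap.comp_apply, Finsupp.lsingle_apply, LinearMap.zero_apply]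
    rw [bdc_single, map_sum]
    simp only [map_smul, bdc_single, Finset.smul_sum]
    apply alt_sum
    intro i j hij
    rw [del_del s hij, smul_smul, smul_smul, ← neg_smul]
    congr 1
    simp only [Fin.val_succ, Fin.val_castSucc]
    ring
  exact LinearMap.congr_fun h z

private theorem inn_smul {V : Type} [PartialOrder V] {k : Type} [CommRing k] {n : ℕ} {W : Set V}
    {z : Chn V n →₀ k} (c : k) (h : Inn W z) : Inn W (c • z) := by
  intro s hs
  refine h s ?_
  rw [Finsupp.mem_support_iff] at hs ⊢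
  intro h0
  apply hs
  rw [Finsupp.smul_apply, h0, smul_zero]

private theorem inn_zero {V : Type} [PartialOrder V] {k : Type} [CommRing k] {n : ℕ} {W : Set V} :
    Inn W (0 : Chn V n →₀ k) := by
  intro s hs
  simp at hs

private theorem inn_nil {V : Type} [PartialOrder V] {k : Type} [CommRing k] {W : Set V}
    (z : Chn V 0 →₀ k) : Inn W z := fun _ _ i => i.elim0

variable {P : Type} [Group P] [Fintype P] {r : ℕ} {e : Fin r → Fin r → P → ℤ}
variable (T : Tower P r e) (k : Type) [CommRing k] (l : ℤ)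

theorem up_exact0 (κ : Chn (WithTop T.V) 0 →₀ k) :
    ∃ κ' : Chn (WithTop T.V) 1 →₀ k, Sp (Alw T.M l) κ' ∧ bdc (WithTop T.V) k 0 κ' = κ := by
  obtain ⟨κ', rfl⟩ := cV_zero_bij κ
  refine ⟨cT k 0 κ', ?_, bdc_cT0 κ'⟩
  have h := (sp_alw (M := T.M) (l := l) (0 : Chn T.V 1 →₀ k) κ').2 ⟨inn_zero, inn_nil κ'⟩
  rwa [map_zero, zero_add (cT k 0 κ')] at h

theorem dn_exact0 (κ : Chn (WithTop T.V) 0 →₀ k) :
    ∃ κ' : Chn (WithTop T.V) 1 →₀ k, Sp (AlT T.M l) κ' ∧ bdc (WithTop T.V) k 0 κ' = κ := by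
  obtain ⟨κ', rfl⟩ := cV_zero_bij κ
  refine ⟨cT k 0 κ', ?_, bdc_cT0 κ'⟩
  have h := (sp_alT (M := T.M) (l := l) (0 : Chn T.V 1 →₀ k) κ').2 ⟨inn_zero, inn_nil κ'⟩
  rwa [map_zero, zero_add (cT k 0 κ')] at h

theorem up_exact (n : ℕ) (κ : Chn (WithTop T.V) (n + 1) →₀ k) (h : Sp (Alw T.M l) κ)
    (h0 : bdc (WithTop T.V) k n κ = 0) :
    ∃ κ' : Chn (WithTop T.V) (n + 2) →₀ k, Sp (Alw T.M l) κ' ∧ bdc (WithTop T.V) k (n + 1) κ' = κ := by
  obtain ⟨a, b, rfl⟩ := dec κ
  obtain ⟨ha, hb⟩ := (sp_alw a b).1 h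
  have key : bdc T.V k n a = (-1 : k) ^ (n + 1) • b := by
    cases n with
    | zero =>
      rw [map_add, bdc_cV, bdc_cT0, ← map_add] at h0
      have h1 := cV_inj _ h0
      rw [pow_one, neg_one_smul]
      exact eq_neg_of_add_eq_zero_left h1
    | succ m =>
      rw [map_add, bdc_cV, bdc_cT] at h0
      have h1 : cV k (m + 1) (bdc T.V k (m + 1) a + (-1 : k) ^ (m + 1) • b) +
          cT k m (bdc T.V k m b) = 0 := by
        rw [map_add, map_smul, ← h0]
        abel
      have h2 := (dec_uni _ _ h1).1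
      rw [pow_succ, mul_neg_one, neg_smul]
      exact eq_neg_of_add_eq_zero_left h2
  obtain ⟨y, hy, hc⟩ := rell T k l n a ha (by rw [key]; exact inn_smul _ hb)
  refine ⟨cV k (n + 2) y + cT k (n + 1) ((-1 : k) ^ (n + 1) • (a - bdc T.V k (n + 1) y)),
    (sp_alw _ _).2 ⟨hy, inn_smul _ hc⟩, ?_⟩
  rw [map_add, bdc_cV, map_smul (cT k (n + 1)), map_smul, bdc_cT, map_sub (bdc T.V k n), bdc_bdc,
    sub_zero, key, smul_add, smul_smul, map_smul, smul_smul, ← mul_pow, neg_one_mul, neg_neg,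
    one_pow, one_smul, one_smul, map_sub]
  abel

/-- no allowed chain has 5 elements -/
theorem no5 (s : Chn (WithTop T.V) 5) : ¬ Alw T.M l s ∧ ¬ AlT T.M l s := by
  by_cases ht : ∃ i, s.1 i = ⊤
  · have h1 : ∀ j : Fin 4, ∃ v : T.V, s.1 j.castSucc = ↑v := by
      intro j
      have h2 : s.1 j.castSucc < s.1 (Fin.last 4) := s.2 (Fin.castSucc_lt_last j)
      obtain ⟨v, hv⟩ := WithTop.ne_top_iff_exists.1 (ne_top_of_lt h2)
      exact ⟨v, hv.symm⟩
    choose v hv using h1
    have hmono : StrictMono v := by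
      intro i j hij
      have h3 : s.1 i.castSucc < s.1 j.castSucc := s.2 (Fin.castSucc_lt_castSucc_iff.2 hij)
      rw [hv, hv] at h3
      exact WithTop.coe_lt_coe.1 h3
    constructor
    · intro h
      obtain ⟨i, hi⟩ := dimWl T (l + 1) ⟨v, hmono⟩
      have h4 := h i.castSucc (v i) (hv i)
      apply hi
      refine ⟨?_, h4.2 ht⟩
      rw [add_sub_cancel_right]
      exact h4.1
    · intro h
      obtain ⟨i, hi⟩ := dimWl T l ⟨v, hmono⟩
      have h4 := h i.castSucc (v i) (hv i)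
      exact hi ⟨h4.2 ht, h4.1⟩
  · exfalso
    push Not at ht
    have h1 : ∀ j : Fin 5, ∃ v : T.V, s.1 j = ↑v := by
      intro j
      obtain ⟨v, hv⟩ := WithTop.ne_top_iff_exists.1 (ht j)
      exact ⟨v, hv.symm⟩
    choose v hv using h1
    have hmono : StrictMono v := by
      intro i j hij
      have h3 : s.1 i < s.1 j := s.2 hij
      rw [hv, hv] at h3
      exact WithTop.coe_lt_coe.1 h3
    exact T.dim.false ⟨v, hmono⟩

end Pool.Agent.H59.FS
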