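import Pool.Agent.H59.FS.Grp

set_option autoImplicit false

/-!
# MP_5c3080_gt: the slices of `Zed T` and the action of `GG T`

`Slc T α β`: the cubes of `Zed T` whose bottom vertex has height `≥ α` and whose top vertex has height `≤ β`.
`T.ι : P →* GG T`, `T.π : GG T →* P`.
-/

namespace Pool.Agent.H59.FS

variable {P : Type} [Group P] [Fintype P] {r : ℕ} {e : Fin r → Fin r → P → ℤ} (T : Tower P r e)

theorem zed_chi {n : ℕ} (i : Fin (n + 1)) (b : Bool) (c : (Zed T).cub (n + 1)) :
    chi c.1.1 ≤ chi ((Zed T).fa n i b c).1.1 ∧ chi ((Zed T).fa n i b c).1.1 ≤ chi c.1.1 + 1 := by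
  cases b with
  | false => exact ⟨le_refl _, by have : chi ((Zed T).fa n i false c).1.1 = chi c.1.1 := rfl
                                  omega⟩
  | true =>
    have h : chi ((Zed T).fa n i true c).1.1 = chi c.1.1 + 1 := chi_stp _ _
    omega

/-- the slice `α ≤ chi ≤ β` -/
def Slc (α β : ℤ) : PreCub where
  cub n := {c : (Zed T).cub n // α ≤ chi c.1.1 ∧ chi c.1.1 + n ≤ β}
  fa n i b c := ⟨(Zed T).fa n i b c.1, by
    have h := zed_chi T i b c.1
    have h1 := c.2
    push_cast at h1
    omega⟩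
  fa_fa n i j a b c h := Subtype.ext ((Zed T).fa_fa n i j a b c.1 h)

theorem Tower.ch_GG (g : GG T) : T.ch g.1 = 1 := g.2

theorem Tower.chi_GG (g : GG T) (x : RA T.V × ℤ) : chi (T.vact g.1 x) = chi x := by
  rw [T.chi_vact, T.ch_GG, toAdd_one, zero_add]

instance Tower.sinst (α β : ℤ) (n : ℕ) : MulAction (GG T) ((Slc T α β).cub n) where
  smul g c := ⟨g.1 • c.1, by
    have h : chi (g.1 • c.1).1.1 = chi c.1.1.1 := T.chi_GG g _
    rw [h]
    exact c.2⟩
  one_smul c := Subtype.ext (one_smul (Gam T) c.1)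
  mul_smul g h c := Subtype.ext (mul_smul g.1 h.1 c.1)

theorem slc_smul (α β : ℤ) {n : ℕ} (g : GG T) (c : (Slc T α β).cub n) : (g • c).1 = g.1 • c.1 := rfl

theorem zed_smul {n : ℕ} (g : Gam T) (c : (Zed T).cub n) : (g • c).1 = (T.vact g c.1.1, T.sact g.right c.1.2) := rfl

theorem slc_act (α β : ℤ) : (Slc T α β).Act (GG T) := by
  intro n i b g c
  apply Subtype.ext
  apply Subtype.ext
  cases b with
  | false => rfl
  | true =>
    refine Prod.ext ?_ rfl
    exact T.stp_vact g.1 c.1.1.1 (c.1.1.2.1 i)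

/-- the inclusion of `P` -/
def Tower.ι : P →* GG T where
  toFun p := ⟨SemidirectProduct.inr (p, 1), by
    change chA (1 : RA T.V) * (1 : Multiplicative ℤ) = 1
    rw [map_one, one_mul]⟩
  map_one' := Subtype.ext (map_one _)
  map_mul' p q := Subtype.ext (by
    change SemidirectProduct.inr (p * q, 1) = SemidirectProduct.inr (p, 1) * SemidirectProduct.inr (q, 1)
    rw [← map_mul, Prod.mk_mul_mk, one_mul])

/-- the projection to `P` -/
def Tower.π : GG T →* P where
  toFun g := g.1.right.1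
  map_one' := rfl
  map_mul' _ _ := rfl

theorem Tower.π_ι (p : P) : T.π (T.ι p) = p := rfl

/-- the vertex `(1, h)` is fixed by `P` -/
theorem Tower.fix (p : P) (h : ℤ) : T.vact (T.ι p).1 (1, h) = (1, h) := by
  change ((1 : RA T.V) * raM _ 1, Multiplicative.toAdd (1 : Multiplicative ℤ) + h) = (1, h)
  rw [map_one, one_mul, toAdd_one, zero_add]

end Pool.Agent.H59.FS
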