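import Pool.Agent.H3.RA.Zp

set_option autoImplicit false

/-!
# MP_5c3080_gt: `Z` is acyclic (helper3)

Proof: filtration by the longest vertex of the cube of `X_A` below the cube of `Z`; the fibre over a cube `[a; s]` of `X_A`
is the nonempty interval of the `l` with `s ⊆ M l` (the whole line for `s` empty), cells `{l}` and `[l, l+1]`.
-/

namespace Pool.Agent.H59.FS

variable {P : Type} [Group P] [Fintype P] {r : ℕ} {e : Fin r → Fin r → P → ℤ}

theorem Z_acyclic (T : Tower P r e) (k : Type) [CommRing k] :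
    (∀ z : (Zed T).cub 0 →₀ k, (z.sum fun _ a => a) = 0 → z ∈ LinearMap.range ((Zed T).bd k 0)) ∧
      ∀ (n : ℕ) (z : (Zed T).cub (n + 1) →₀ k), (Zed T).bd k n z = 0 → z ∈ LinearMap.range ((Zed T).bd k (n + 1)) :=
  Pool.Agent.H3.RA.zed_acyclic T k

end Pool.Agent.H59.FS
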