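import Pool.Agent.H59.FS.Flp
import Pool.Agent.H59.FS.Slc
import Pool.Agent.H59.FS.ZA

set_option autoImplicit false

/-!
# MP_5c3080_gt, row [H59 FS Cnc]: the chains of `Zed T` and of the slices in vertex coordinates

`sgm u`: the step as a permutation of the vertices. `AB T c`: the cube `c` (bottom coordinates) is in `Zed T`;
`AT T c`: the cube `c` (top coordinates) is in `Zed T`. `zc`: chains of `Zed T` in bottom coordinates, `sc` chains of the slice.

Proofs. `pd_lev`: induction on `n` (`⊤` can only be the last element of the chain; with `pd_del` for `i = 0`): the level of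
`pd sgm s x` is `x.2 + 1` if `⊤` is in `s`, `x.2` otherwise. `ab_iff` from it and the definitions of `Alw`, `AlT`
(level `l = x.2`: without `⊤`: `v ∈ M l` both; with `⊤`: `v ∈ M l` and `v ∈ M (l + 1)` both).
`zc_bd`, `sc_bd`: on `single c 1`, definitions (`stp = sgm`). `zc_surj`, `sc_surj`: `z` is supported on the range of an
injective map (`Finsupp.mapDomain_comapDomain` or induction). `zc_inj`, `sc_inj`: `Finsupp.mapDomain_injective`.
`bot_acyclic`, `bot_acyclic0`: `Z_acyclic` (ZA.lean) with `zc`. `top_acyclic`, `top_acyclic0`: apply `flp (iv sgm)`: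
`z' := flp (iv sgm) z` is allowed in bottom coordinates (`ab_iff`, `flp_apply`, `pd_inv`) and a cycle (`flp_bb` for `iv sgm`,
`iv (iv sgm) = sgm`), so `z' = bb sgm w'`; `w := - flp sgm w'` (`flp_bb`, `flp_flp'`). In degree 0 `flp` is the identity
(`pd` of the empty chain is 1), `w := - flp sgm w'`.
-/

namespace Pool.Agent.H59.FS

noncomputable section

/-- the step as a permutation of the vertices -/
def sgm {V : Type} [PartialOrder V] (u : WithTop V) : Equiv.Perm (RA V × ℤ) where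
  toFun x := stp x u
  invFun x := match u with
    | none => (x.1, x.2 - 1)
    | some v => (x.1 * (gn v)⁻¹, x.2)
  left_inv x := by
    cases u with
    | top => exact Prod.ext rfl (add_sub_cancel_right _ _)
    | coe v => exact Prod.ext (mul_inv_cancel_right _ _) rfl
  right_inv x := by
    cases u with
    | top => exact Prod.ext rfl (sub_add_cancel _ _)
    | coe v => exact Prod.ext (inv_mul_cancel_right _ _) rfl

theorem sgm_comm {V : Type} [PartialOrder V] : ∀ u w : WithTop V, u < w → ∀ x, sgm w (sgm u x) = sgm u (sgm w x) :=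
  fun _ _ h x => stp_comm x h

theorem chi_sgm {V : Type} [PartialOrder V] (u : WithTop V) (x : RA V × ℤ) : chi (sgm u x) = chi x + 1 := chi_stp x u

theorem chi_iv {V : Type} [PartialOrder V] (u : WithTop V) (x : RA V × ℤ) : -chi (iv sgm u x) = -chi x + 1 := by
  have h := chi_sgm u (iv sgm u x)
  have h1 : sgm u (iv sgm u x) = x := (sgm u).apply_symm_apply x
  rw [h1] at h
  omega

variable {P : Type} [Group P] [Fintype P] {r : ℕ} {e : Fin r → Fin r → P → ℤ} (T : Tower P r e)

/-- the vertices -/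
abbrev Vx : Type := RA T.V × ℤ

/-- allowed cubes in bottom coordinates -/
def AB {n : ℕ} (c : Vx T × Chn (WithTop T.V) n) : Prop := Alw T.M c.1.2 c.2

/-- allowed cubes in top coordinates -/
def AT {n : ℕ} (c : Vx T × Chn (WithTop T.V) n) : Prop := AlT T.M c.1.2 c.2

private theorem iv_lev_top {V : Type} [PartialOrder V] (x : RA V × ℤ) :
    (iv sgm (⊤ : WithTop V) x).2 = x.2 - 1 := rfl

private theorem iv_lev_coe {V : Type} [PartialOrder V] (v : V) (x : RA V × ℤ) :
    (iv sgm (v : WithTop V) x).2 = x.2 := rfl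

open Classical in
theorem pd_lev {V : Type} [PartialOrder V] {n : ℕ} (s : Chn (WithTop V) n) (x : RA V × ℤ) :
    (pd sgm s x).2 = x.2 + if ∃ j, s.1 j = ⊤ then 1 else 0 := by
  induction n generalizing x with
  | zero =>
    rw [if_neg (by rintro ⟨j, -⟩; exact j.elim0), add_zero]
    rfl
  | succ n ih =>
    have h1 : pd sgm s x = pd sgm (s.del 0) (sgm (s.1 0) x) := rfl
    rw [h1, ih (s.del 0) (sgm (s.1 0) x)]
    have h2 : ∀ j : Fin n, (s.del 0).1 j = s.1 j.succ := fun j =>
      congrArg s.1 (Fin.succAbove_zero_apply j)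
    by_cases h0 : s.1 0 = ⊤
    · have h3 : ¬ ∃ j, (s.del 0).1 j = ⊤ := by
        rintro ⟨j, hj⟩
        rw [h2] at hj
        exact absurd (s.2.injective (hj.trans h0.symm)) (Fin.succ_ne_zero j)
      have h4 : ∃ j, s.1 j = ⊤ := ⟨0, h0⟩
      rw [if_neg h3, if_pos h4, h0]
      change x.2 + 1 + 0 = x.2 + 1
      rw [add_zero]
    · have h5 : (sgm (s.1 0) x).2 = x.2 := by
        rcases hs : s.1 0 with _ | v
        · exact absurd hs h0
        · rfl
      have h6 : (∃ j, (s.del 0).1 j = ⊤) ↔ ∃ j, s.1 j = ⊤ := by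
        constructor
        · rintro ⟨j, hj⟩
          rw [h2] at hj
          exact ⟨j.succ, hj⟩
        · rintro ⟨j, hj⟩
          obtain ⟨j', rfl⟩ : ∃ j' : Fin n, j = j'.succ := by
            refine ⟨j.pred ?_, (Fin.succ_pred j _).symm⟩
            rintro rfl
            exact h0 hj
          exact ⟨j', (h2 j').trans hj⟩
      rw [h5]
      by_cases h7 : ∃ j, s.1 j = ⊤
      · rw [if_pos h7, if_pos (h6.2 h7)]
      · rw [if_neg h7, if_neg fun h => h7 (h6.1 h)]

theorem ab_iff {n : ℕ} (x : Vx T) (s : Chn (WithTop T.V) n) : AB T (x, s) ↔ AT T (pd sgm s x, s) := by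
  classical
  unfold AB AT Alw AlT
  have h1 := pd_lev s x
  change (∀ (i : Fin n) (v : T.V), s.1 i = ↑v → v ∈ T.M x.2 ∧ ((∃ j, s.1 j = ⊤) → v ∈ T.M (x.2 + 1))) ↔
    ∀ (i : Fin n) (v : T.V), s.1 i = ↑v → v ∈ T.M (pd sgm s x).2 ∧ ((∃ j, s.1 j = ⊤) → v ∈ T.M ((pd sgm s x).2 - 1))
  rw [h1]
  by_cases h2 : ∃ j, s.1 j = ⊤
  · rw [if_pos h2]
    refine forall_congr' fun i => forall_congr' fun v => forall_congr' fun _ => ?_
    rw [add_sub_cancel_right]
    constructor
    · rintro ⟨h3, h4⟩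
      exact ⟨h4 h2, fun _ => h3⟩
    · rintro ⟨h3, h4⟩
      exact ⟨h4 h2, fun _ => h3⟩
  · rw [if_neg h2, add_zero]
    refine forall_congr' fun i => forall_congr' fun v => forall_congr' fun _ => ?_
    constructor
    · rintro ⟨h3, -⟩
      exact ⟨h3, fun h => absurd h h2⟩
    · rintro ⟨h3, -⟩
      exact ⟨h3, fun h => absurd h h2⟩

/-- faces of allowed cubes are allowed, top coordinates -/
theorem at_del {n : ℕ} (x : Vx T) (s : Chn (WithTop T.V) (n + 1)) (i : Fin (n + 1)) (h : AT T (x, s)) :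
    AT T (x, s.del i) ∧ AT T (iv sgm (s.1 i) x, s.del i) := by
  have h1 : AT T (x, s.del i) := by
    intro j v hj
    refine ⟨(h (i.succAbove j) v hj).1, ?_⟩
    rintro ⟨a, ha⟩
    exact (h (i.succAbove j) v hj).2 ⟨i.succAbove a, ha⟩
  refine ⟨h1, ?_⟩
  by_cases h0 : s.1 i = ⊤
  · rw [h0]
    intro j v hj
    change v ∈ T.M (x.2 - 1) ∧ ((∃ j, (s.del i).1 j = ⊤) → v ∈ T.M (x.2 - 1 - 1))
    refine ⟨(h (i.succAbove j) v hj).2 ⟨i, h0⟩, ?_⟩
    rintro ⟨a, ha⟩
    exact absurd (s.2.injective (show s.1 (i.succAbove a) = s.1 i from ha.trans h0.symm))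
      (Fin.succAbove_ne i a)
  · have h2 : (iv sgm (s.1 i) x).2 = x.2 := by
      rcases hs : s.1 i with _ | v
      · exact absurd hs h0
      · exact iv_lev_coe v x
    have h3 : AlT T.M (iv sgm (s.1 i) x).2 (s.del i) := by
      rw [h2]
      exact h1
    exact h3

/-- faces of allowed cubes are allowed, bottom coordinates -/
theorem ab_del {n : ℕ} (x : Vx T) (s : Chn (WithTop T.V) (n + 1)) (i : Fin (n + 1)) (h : AB T (x, s)) :
    AB T (x, s.del i) ∧ AB T (sgm (s.1 i) x, s.del i) :=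
  ⟨Alw.del h i, Alw.del' (x := x) h i⟩

variable (k : Type) [CommRing k]

/-- chains of `Zed T` in bottom coordinates -/
def zc (n : ℕ) : ((Zed T).cub n →₀ k) →ₗ[k] CC (WithTop T.V) (Vx T) k n := Finsupp.lmapDomain k k fun c => c.1

/-- chains of the slice in bottom coordinates -/
def sc (α β : ℤ) (n : ℕ) : ((Slc T α β).cub n →₀ k) →ₗ[k] CC (WithTop T.V) (Vx T) k n :=
  Finsupp.lmapDomain k k fun c => c.1.1

private theorem zc_single (n : ℕ) (c : (Zed T).cub n) (a : k) :
    zc T k n (Finsupp.single c a) = Finsupp.single c.1 a := by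
  unfold zc
  rw [Finsupp.lmapDomain_apply, Finsupp.mapDomain_single]

private theorem sc_single (α β : ℤ) (n : ℕ) (c : (Slc T α β).cub n) (a : k) :
    sc T k α β n (Finsupp.single c a) = Finsupp.single c.1.1 a := by
  unfold sc
  rw [Finsupp.lmapDomain_apply, Finsupp.mapDomain_single]

theorem zc_bd (n : ℕ) (z : (Zed T).cub (n + 1) →₀ k) : zc T k n ((Zed T).bd k n z) = bb sgm n (zc T k (n + 1) z) := by
  have key : zc T k n ∘ₗ (Zed T).bd k n = bb sgm n ∘ₗ zc T k (n + 1) := by
    refine Finsupp.lhom_ext' fun c => LinearMap.ext_ring ?_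
    simp only [LinearMap.comp_apply, Finsupp.lsingle_apply]
    rw [zc_single]
    unfold PreCub.bd bb
    rw [Finsupp.linearCombination_single, Finsupp.linearCombination_single, one_smul, one_smul, map_sum]
    refine Finset.sum_congr rfl fun i _ => ?_
    rw [map_smul, map_sub, zc_single, zc_single]
    rfl
  exact LinearMap.congr_fun key z

theorem sc_bd (α β : ℤ) (n : ℕ) (z : (Slc T α β).cub (n + 1) →₀ k) :
    sc T k α β n ((Slc T α β).bd k n z) = bb sgm n (sc T k α β (n + 1) z) := by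
  have key : sc T k α β n ∘ₗ (Slc T α β).bd k n = bb sgm n ∘ₗ sc T k α β (n + 1) := by
    refine Finsupp.lhom_ext' fun c => LinearMap.ext_ring ?_
    simp only [LinearMap.comp_apply, Finsupp.lsingle_apply]
    rw [sc_single]
    unfold PreCub.bd bb
    rw [Finsupp.linearCombination_single, Finsupp.linearCombination_single, one_smul, one_smul, map_sum]
    refine Finset.sum_congr rfl fun i _ => ?_
    rw [map_smul, map_sub, sc_single, sc_single]
    rfl
  exact LinearMap.congr_fun key z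

private theorem zv_inj (n : ℕ) : Function.Injective fun c : (Zed T).cub n => c.1 := Subtype.val_injective

private theorem sv_inj (α β : ℤ) (n : ℕ) : Function.Injective fun c : (Slc T α β).cub n => c.1.1 :=
  fun _ _ h => Subtype.ext (Subtype.ext h)

theorem zc_inj (n : ℕ) : Function.Injective (zc T k n) := Finsupp.mapDomain_injective (zv_inj T n)

theorem sc_inj (α β : ℤ) (n : ℕ) : Function.Injective (sc T k α β n) :=
  Finsupp.mapDomain_injective (sv_inj T α β n)

theorem zc_surj (n : ℕ) (z : CC (WithTop T.V) (Vx T) k n) (h : ∀ c ∈ z.support, AB T c) :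
    ∃ z' : (Zed T).cub n →₀ k, zc T k n z' = z := by
  refine ⟨Finsupp.comapDomain (fun c : (Zed T).cub n => c.1) z (zv_inj T n).injOn, ?_⟩
  refine Finsupp.mapDomain_comapDomain _ (zv_inj T n) z ?_
  intro c hc
  exact ⟨⟨c, h c hc⟩, rfl⟩

theorem sc_surj (α β : ℤ) (n : ℕ) (z : CC (WithTop T.V) (Vx T) k n)
    (h : ∀ c ∈ z.support, AB T c ∧ α ≤ chi c.1 ∧ chi c.1 + n ≤ β) :
    ∃ z' : (Slc T α β).cub n →₀ k, sc T k α β n z' = z := by
  refine ⟨Finsupp.comapDomain (fun c : (Slc T α β).cub n => c.1.1) z (sv_inj T α β n).injOn, ?_⟩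
  refine Finsupp.mapDomain_comapDomain _ (sv_inj T α β n) z ?_
  intro c hc
  exact ⟨⟨⟨c, (h c hc).1⟩, (h c hc).2⟩, rfl⟩

theorem zc_supp (n : ℕ) (z : (Zed T).cub n →₀ k) : ∀ c ∈ (zc T k n z).support, AB T c := by
  classical
  intro c hc
  have h1 := Finsupp.mapDomain_support hc
  obtain ⟨c', -, rfl⟩ := Finset.mem_image.1 h1
  exact c'.2

theorem sc_supp (α β : ℤ) (n : ℕ) (z : (Slc T α β).cub n →₀ k) :
    ∀ c ∈ (sc T k α β n z).support, AB T c ∧ α ≤ chi c.1 ∧ chi c.1 + n ≤ β := by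
  classical
  intro c hc
  have h1 := Finsupp.mapDomain_support hc
  obtain ⟨c', -, rfl⟩ := Finset.mem_image.1 h1
  exact ⟨c'.1.2, c'.2⟩

theorem sc_sum (α β : ℤ) (z : (Slc T α β).cub 0 →₀ k) :
    ((sc T k α β 0 z).sum fun _ a => a) = z.sum fun _ a => a := by
  unfold sc
  rw [Finsupp.lmapDomain_apply]
  exact Finsupp.sum_mapDomain_index (fun _ => rfl) fun _ _ _ => rfl

private theorem iviv {V : Type} [PartialOrder V] : iv (iv (sgm (V := V))) = sgm := by
  funext u
  exact inv_inv _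

private theorem ap_inv' {X : Type} (f : Equiv.Perm X) (x : X) : f (f⁻¹ x) = x := f.apply_symm_apply x

/-- the change from bottom to top coordinates of a chain with boundary `z` -/
private theorem back (n : ℕ) (z : CC (WithTop T.V) (Vx T) k n) (w1 : CC (WithTop T.V) (Vx T) k (n + 1))
    (hw : ∀ c ∈ w1.support, AB T c) (hb : flp sgm n (bb sgm n w1) = z) :
    ∃ w : CC (WithTop T.V) (Vx T) k (n + 1), (∀ c ∈ w.support, AT T c) ∧ bb (iv sgm) n w = z := by
  refine ⟨- flp sgm (n + 1) w1, ?_, ?_⟩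
  · rintro ⟨y, s⟩ hc
    rw [Finsupp.support_neg, Finsupp.mem_support_iff, flp_apply] at hc
    have h1 := hw _ (Finsupp.mem_support_iff.2 hc)
    rw [ab_iff, ap_inv'] at h1
    exact h1
  · rw [map_neg, ← flp_bb sgm_comm, hb]

/-- `Zed T` is acyclic, top coordinates -/
theorem top_acyclic (n : ℕ) (z : CC (WithTop T.V) (Vx T) k (n + 1)) (h : ∀ c ∈ z.support, AT T c)
    (h0 : bb (iv sgm) n z = 0) :
    ∃ w : CC (WithTop T.V) (Vx T) k (n + 2), (∀ c ∈ w.support, AT T c) ∧ bb (iv sgm) (n + 1) w = z := by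
  have h1 : ∀ c ∈ (flp (iv sgm) (n + 1) z).support, AB T c := by
    rintro ⟨y, s⟩ hc
    rw [Finsupp.mem_support_iff, flp_apply, pd_inv sgm_comm, inv_inv] at hc
    rw [ab_iff]
    exact h _ (Finsupp.mem_support_iff.2 hc)
  have h2 : bb sgm n (flp (iv sgm) (n + 1) z) = 0 := by
    have h3 := flp_bb (iv_comm (σ := sgm) (sgm_comm (V := T.V))) n z
    rw [h0, map_zero, iviv] at h3
    exact neg_eq_zero.1 h3.symm
  obtain ⟨z2, hz2⟩ := zc_surj T k (n + 1) _ h1
  have h4 : (Zed T).bd k n z2 = 0 := by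
    apply zc_inj T k n
    rw [zc_bd, hz2, h2, map_zero]
  obtain ⟨w2, hw2⟩ := (Z_acyclic T k).2 n z2 h4
  refine back T k (n + 1) z (zc T k (n + 2) w2) (zc_supp T k (n + 2) w2) ?_
  rw [← zc_bd, hw2, hz2, flp_flp' sgm_comm]

theorem top_acyclic0 (z : CC (WithTop T.V) (Vx T) k 0) (h0 : (z.sum fun _ a => a) = 0) :
    ∃ w : CC (WithTop T.V) (Vx T) k 1, (∀ c ∈ w.support, AT T c) ∧ bb (iv sgm) 0 w = z := by
  obtain ⟨z2, hz2⟩ := zc_surj T k 0 z fun c _ i => i.elim0
  have h1 : (z2.sum fun _ a => a) = 0 := by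
    have h2 : ((zc T k 0 z2).sum fun _ a => a) = z2.sum fun _ a => a := by
      unfold zc
      rw [Finsupp.lmapDomain_apply]
      exact Finsupp.sum_mapDomain_index (fun _ => rfl) fun _ _ _ => rfl
    rw [← h2, hz2, h0]
  obtain ⟨w2, hw2⟩ := (Z_acyclic T k).1 z2 h1
  refine back T k 0 z (zc T k 1 w2) (zc_supp T k 1 w2) ?_
  rw [← zc_bd, hw2, hz2]
  refine Finsupp.ext fun c => ?_
  obtain ⟨y, s⟩ := c
  rw [flp_apply]
  rfl

end

end Pool.Agent.H59.FS
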