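import Pool.Agent.H59.FS.MrD

set_option autoImplicit false

/-!
# MP_5c3080_gt, row [H59 FS Eqv]: the action of the group on chains

`chact q`: the action of `q ∈ P × ⟨t⟩` on chains of `WithTop V`, `cact g` the action of `g ∈ Gam T` on `CC`.

Proofs: everything on `Finsupp.single` (linear maps: `Finsupp.lhom_ext'`; for semilinear statements `Finsupp.induction_linear`).
`sact q (s.del i) = (sact q s).del i` is `rfl`, `(sact q s).1 i = wact q (s.1 i)` is `rfl`; `sgm (wact g.right u) (vact g x) =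
vact g (sgm u x)` is `T.stp_vact`; for `iv sgm` apply `sgm` on both sides (`Equiv.apply_symm_apply`). `pd` of `sact q s` by induction.
`chact_bdc`, `chact_lk` (for `⊤`: `wact q u = ⊤ ↔ u = ⊤`). `pt_cact`: `vact g` is injective (`vact_mul`, `vact_one` with `g⁻¹`),
`sact` too. `sc_cact`: `slc_smul`, `zed_smul`. `kt_cact`: `alw_sact`-like for `AlT` (`mem_aq`), `chi_GG`.
-/

namespace Pool.Agent.H59.FS

noncomputable section

variable {P : Type} [Group P] [Fintype P] {r : ℕ} {e : Fin r → Fin r → P → ℤ} (T : Tower P r e) (k : Type) [CommRing k]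

/-- the action on chains of directions -/
def chact (q : P × Multiplicative ℤ) (n : ℕ) : (Chn (WithTop T.V) n →₀ k) →ₗ[k] (Chn (WithTop T.V) n →₀ k) :=
  Finsupp.lmapDomain k k (T.sact q)

/-- the action on chains of cubes -/
def cact (g : Gam T) (n : ℕ) : CC (WithTop T.V) (Vx T) k n →ₗ[k] CC (WithTop T.V) (Vx T) k n :=
  Finsupp.lmapDomain k k fun c => (T.vact g c.1, T.sact g.right c.2)

private theorem wact_top (q : P × Multiplicative ℤ) : T.wact q ⊤ = ⊤ := rfl

private theorem wact_coe (q : P × Multiplicative ℤ) (v : T.V) : T.wact q (v : WithTop T.V) = ↑(T.aq q v) := rfl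

private theorem wact_eq_top (q : P × Multiplicative ℤ) (u : WithTop T.V) : T.wact q u = ⊤ ↔ u = ⊤ := by
  constructor
  · intro h
    rcases u with _ | w
    · rfl
    · exact absurd (show T.wact q (w : WithTop T.V) = ⊤ from h) (by rw [wact_coe]; exact WithTop.coe_ne_top)
  · rintro rfl
    exact wact_top T q

private theorem wact_eq_coe (q : P × Multiplicative ℤ) (u : WithTop T.V) (v : T.V) (h : T.wact q u = ↑v) :
    ∃ w : T.V, u = ↑w ∧ T.aq q w = v := by
  rcases u with _ | w
  · exact absurd (show (⊤ : WithTop T.V) = ↑v from h) WithTop.top_ne_coe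
  · exact ⟨w, rfl, WithTop.coe_injective (show ((T.aq q w : T.V) : WithTop T.V) = ↑v from h)⟩

private theorem sact_ap (q : P × Multiplicative ℤ) {n : ℕ} (s : Chn (WithTop T.V) n) (i : Fin n) :
    (T.sact q s).1 i = T.wact q (s.1 i) := rfl

private theorem top_sact (q : P × Multiplicative ℤ) {n : ℕ} (s : Chn (WithTop T.V) n) :
    (∃ j, (T.sact q s).1 j = ⊤) ↔ ∃ j, s.1 j = ⊤ :=
  exists_congr fun j => wact_eq_top T q (s.1 j)

theorem alT_sact (q : P × Multiplicative ℤ) (l : ℤ) {n : ℕ} (s : Chn (WithTop T.V) n) :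
    AlT T.M (Multiplicative.toAdd q.2 + l) (T.sact q s) ↔ AlT T.M l s := by
  unfold AlT
  rw [top_sact]
  constructor
  · intro h i v hv
    have h1 : (T.sact q s).1 i = ↑(T.aq q v) := by
      rw [sact_ap, hv, wact_coe]
    obtain ⟨h2, h3⟩ := h i (T.aq q v) h1
    refine ⟨(T.mem_aq q l v).1 h2, fun ht => ?_⟩
    have h4 := h3 ht
    rw [add_sub_assoc] at h4
    exact (T.mem_aq q (l - 1) v).1 h4
  · intro h i v hv
    rw [sact_ap] at hv
    obtain ⟨w, hw, rfl⟩ := wact_eq_coe T q _ v hv
    obtain ⟨h2, h3⟩ := h i w hw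
    refine ⟨(T.mem_aq q l w).2 h2, fun ht => ?_⟩
    rw [add_sub_assoc]
    exact (T.mem_aq q (l - 1) w).2 (h3 ht)

private theorem vact_inv (g : Gam T) (x : Vx T) : T.vact g⁻¹ (T.vact g x) = x := by
  rw [← T.vact_mul, inv_mul_cancel, T.vact_one]

private theorem vact_inv' (g : Gam T) (x : Vx T) : T.vact g (T.vact g⁻¹ x) = x := by
  rw [← T.vact_mul, mul_inv_cancel, T.vact_one]

theorem vact_inj (g : Gam T) : Function.Injective (T.vact g) :=
  Function.LeftInverse.injective (vact_inv T g)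

theorem chact_bdc (q : P × Multiplicative ℤ) (n : ℕ) (κ : Chn (WithTop T.V) (n + 1) →₀ k) :
    bdc (WithTop T.V) k n (chact T k q (n + 1) κ) = chact T k q n (bdc (WithTop T.V) k n κ) :=
  bdc_map k (T.wact q) (T.wact_mono q) κ

private theorem chact_single (q : P × Multiplicative ℤ) (n : ℕ) (s : Chn (WithTop T.V) n) (a : k) :
    chact T k q n (Finsupp.single s a) = Finsupp.single (T.sact q s) a := by
  unfold chact
  rw [Finsupp.lmapDomain_apply, Finsupp.mapDomain_single]

private theorem cact_single (g : Gam T) (n : ℕ) (x : Vx T) (s : Chn (WithTop T.V) n) (a : k) :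
    cact T k g n (Finsupp.single (x, s) a) = Finsupp.single (T.vact g x, T.sact g.right s) a := by
  unfold cact
  rw [Finsupp.lmapDomain_apply, Finsupp.mapDomain_single]

theorem chact_lk (q : P × Multiplicative ℤ) (n : ℕ) (κ : Chn (WithTop T.V) (n + 1) →₀ k) :
    lk k (⊤ : WithTop T.V) n (chact T k q (n + 1) κ) = chact T k q n (lk k (⊤ : WithTop T.V) n κ) := by
  classical
  have key : (lk k (⊤ : WithTop T.V) n ∘ₗ chact T k q (n + 1) :
      (Chn (WithTop T.V) (n + 1) →₀ k) →ₗ[k] (Chn (WithTop T.V) n →₀ k)) =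
      chact T k q n ∘ₗ lk k (⊤ : WithTop T.V) n := by
    refine Finsupp.lhom_ext' fun s => LinearMap.ext_ring ?_
    simp only [LinearMap.comp_apply, Finsupp.lsingle_apply]
    rw [chact_single]
    unfold lk
    rw [Finsupp.linearCombination_single, Finsupp.linearCombination_single, one_smul, one_smul, map_sum]
    refine Finset.sum_congr rfl fun i _ => ?_
    by_cases h : s.1 i = ⊤
    · have h1 : (T.sact q s).1 i = ⊤ := (wact_eq_top T q (s.1 i)).2 h
      rw [if_pos h, if_pos h1, map_smul, chact_single]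
      rfl
    · have h1 : ¬ (T.sact q s).1 i = ⊤ := fun h2 => h ((wact_eq_top T q (s.1 i)).1 h2)
      rw [if_neg h, if_neg h1, map_zero]
  exact LinearMap.congr_fun key κ

private theorem zl_pow (m l : ℤ) (b : P × Fin r) :
    Finsupp.mapDomain (Chn.map (T.t ^ m) (T.t ^ m).strictMono) (T.zl k l b) = T.zl k (m + l) b := by
  unfold Tower.zl
  rw [← Finsupp.mapDomain_comp]
  congr 1
  funext s
  apply Subtype.ext
  funext i
  change (T.t ^ m * T.t ^ l) (s.1 i) = (T.t ^ (m + l)) (s.1 i)
  rw [zpow_add]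

private theorem zl_aq (q : P × Multiplicative ℤ) (l : ℤ) (b : P × Fin r) :
    Finsupp.mapDomain (Chn.map (T.aq q) (T.aq q).strictMono) (T.zl k l b) =
      T.zl k (Multiplicative.toAdd q.2 + l) (q.1 * b.1, b.2) := by
  have h1 : (Chn.map (T.aq q) (T.aq q).strictMono : Chn T.V 3 → Chn T.V 3) =
      (Chn.map (T.ρ q.1) (T.ρ q.1).strictMono) ∘
        (Chn.map (T.t ^ (Multiplicative.toAdd q.2)) (T.t ^ (Multiplicative.toAdd q.2)).strictMono) := by
    funext s
    apply Subtype.ext
    funext i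
    change T.aq q (s.1 i) = (T.ρ q.1 * T.t ^ (Multiplicative.toAdd q.2)) (s.1 i)
    rw [T.aq_apply]
  rw [h1, Finsupp.mapDomain_comp, zl_pow]
  exact zl_P T k (Multiplicative.toAdd q.2 + l) q.1 b.1 b.2

/-- the action on the cycles `zs`: `zl_t`, `zl_P` (BlkB.lean), `T.aq_apply`, `T.comm'` -/
theorem chact_zs (q : P × Multiplicative ℤ) (l : ℤ) (x : P × Fin r → k) :
    chact T k q 3 (T.zs k l x) = T.zs k (Multiplicative.toAdd q.2 + l) fun b => x (q.1⁻¹ * b.1, b.2) := by
  have h1 : ∀ z : Chn T.V 3 →₀ k, chact T k q 3 (cV k 3 z) =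
      cV k 3 (Finsupp.lmapDomain k k (Chn.map (T.aq q) (T.aq q).strictMono) z) := by
    intro z
    unfold chact cV
    rw [Finsupp.lmapDomain_apply, Finsupp.lmapDomain_apply, Finsupp.lmapDomain_apply,
      Finsupp.lmapDomain_apply, ← Finsupp.mapDomain_comp, ← Finsupp.mapDomain_comp]
    rfl
  unfold Tower.zs
  rw [h1, map_sum]
  congr 1
  have h2 : ∀ b : P × Fin r, Finsupp.lmapDomain k k (Chn.map (T.aq q) (T.aq q).strictMono) (x b • T.zl k l b) =
      x b • T.zl k (Multiplicative.toAdd q.2 + l) (q.1 * b.1, b.2) := by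
    intro b
    rw [map_smul, Finsupp.lmapDomain_apply, zl_aq]
  rw [Finset.sum_congr rfl fun b _ => h2 b]
  refine Fintype.sum_equiv ((Equiv.mulLeft q.1).prodCongr (Equiv.refl (Fin r))) _ _ ?_
  rintro ⟨p, j⟩
  change x (p, j) • _ = x (q.1⁻¹ * (q.1 * p), j) • _
  rw [inv_mul_cancel_left]
  rfl

private theorem sgm_vact (g : Gam T) (x : Vx T) (u : WithTop T.V) :
    sgm (T.wact g.right u) (T.vact g x) = T.vact g (sgm u x) := T.stp_vact g x u

private theorem iv_vact (g : Gam T) (x : Vx T) (u : WithTop T.V) :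
    iv sgm (T.wact g.right u) (T.vact g x) = T.vact g (iv sgm u x) := by
  apply (sgm (T.wact g.right u)).injective
  rw [sgm_vact]
  have h1 : sgm (T.wact g.right u) (iv sgm (T.wact g.right u) (T.vact g x)) = T.vact g x :=
    (sgm (T.wact g.right u)).apply_symm_apply _
  have h2 : sgm u (iv sgm u x) = x := (sgm u).apply_symm_apply _
  rw [h1, h2]

theorem cact_bb (g : Gam T) (n : ℕ) (z : CC (WithTop T.V) (Vx T) k (n + 1)) :
    bb sgm n (cact T k g (n + 1) z) = cact T k g n (bb sgm n z) := by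
  have key : (bb sgm n ∘ₗ cact T k g (n + 1) : CC (WithTop T.V) (Vx T) k (n + 1) →ₗ[k] _) =
      cact T k g n ∘ₗ bb sgm n := by
    refine Finsupp.lhom_ext' fun c => LinearMap.ext_ring ?_
    obtain ⟨x, s⟩ := c
    simp only [LinearMap.comp_apply, Finsupp.lsingle_apply]
    rw [cact_single]
    unfold bb
    rw [Finsupp.linearCombination_single, Finsupp.linearCombination_single, one_smul, one_smul, map_sum]
    refine Finset.sum_congr rfl fun i _ => ?_
    rw [map_smul, map_sub, cact_single, cact_single]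
    change (-1 : k) ^ (i : ℕ) • (Finsupp.single (sgm (T.wact g.right (s.1 i)) (T.vact g x),
      T.sact g.right (s.del i)) (1 : k) - _) = _
    rw [sgm_vact]
    rfl
  exact LinearMap.congr_fun key z

private theorem pd_vact (g : Gam T) {n : ℕ} (s : Chn (WithTop T.V) n) (x : Vx T) :
    pd (iv sgm) (T.sact g.right s) (T.vact g x) = T.vact g (pd (iv sgm) s x) := by
  induction n generalizing x with
  | zero => rfl
  | succ n ih =>
    have h1 : pd (iv sgm) (T.sact g.right s) (T.vact g x) =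
        pd (iv sgm) (T.sact g.right (s.del 0)) (iv sgm (T.wact g.right (s.1 0)) (T.vact g x)) := rfl
    have h2 : pd (iv sgm) s x = pd (iv sgm) (s.del 0) (iv sgm (s.1 0) x) := rfl
    rw [h1, iv_vact, ih, h2]

theorem cact_flp (g : Gam T) (n : ℕ) (z : CC (WithTop T.V) (Vx T) k n) :
    flp (iv sgm) n (cact T k g n z) = cact T k g n (flp (iv sgm) n z) := by
  have key : (flp (iv sgm) n ∘ₗ cact T k g n : CC (WithTop T.V) (Vx T) k n →ₗ[k] _) =
      cact T k g n ∘ₗ flp (iv sgm) n := by
    refine Finsupp.lhom_ext' fun c => LinearMap.ext_ring ?_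
    obtain ⟨x, s⟩ := c
    simp only [LinearMap.comp_apply, Finsupp.lsingle_apply]
    rw [cact_single, flp_single, flp_single, cact_single, pd_vact]
  exact LinearMap.congr_fun key z

theorem kb_cact (g : Gam T) (K : CC (WithTop T.V) (Vx T) k 4) : kb T k (cact T k g 4 K) = cact T k g 3 (kb T k K) := by
  unfold kb
  rw [LinearMap.comp_apply, LinearMap.comp_apply, cact_flp, cact_bb]

theorem sc_cact (α β : ℤ) (g : GG T) (n : ℕ) (z : (Slc T α β).cub n →₀ k) :
    sc T k α β n (Finsupp.mapDomain (fun c => g • c) z) = cact T k g.1 n (sc T k α β n z) := by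
  unfold sc cact
  rw [Finsupp.lmapDomain_apply, Finsupp.lmapDomain_apply, Finsupp.lmapDomain_apply,
    ← Finsupp.mapDomain_comp, ← Finsupp.mapDomain_comp]
  rfl

open Classical in
private theorem pt_single' {n : ℕ} (x y : Vx T) (t : Chn (WithTop T.V) n) (a : k) :
    pt x (Finsupp.single (y, t) a) = if y = x then Finsupp.single t a else 0 := by
  rw [← ins_single]
  split_ifs with h
  · rw [h, pt_ins]
  · rw [pt_ins_ne h]

theorem pt_cact (g : Gam T) (n : ℕ) (y : Vx T) (z : CC (WithTop T.V) (Vx T) k n) :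
    pt (T.vact g y) (cact T k g n z) = chact T k g.right n (pt y z) := by
  classical
  have key : (pt (T.vact g y) ∘ₗ cact T k g n : CC (WithTop T.V) (Vx T) k n →ₗ[k] _) =
      chact T k g.right n ∘ₗ pt y := by
    refine Finsupp.lhom_ext' fun c => LinearMap.ext_ring ?_
    obtain ⟨x, s⟩ := c
    simp only [LinearMap.comp_apply, Finsupp.lsingle_apply]
    rw [cact_single, pt_single', pt_single']
    by_cases h : x = y
    · rw [if_pos h, if_pos (by rw [h]), chact_single]
    · rw [if_neg h, if_neg fun h1 => h (vact_inj T g h1), map_zero]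
  exact LinearMap.congr_fun key z

theorem cact_ins (g : Gam T) (n : ℕ) (y : Vx T) (κ : Chn (WithTop T.V) n →₀ k) :
    cact T k g n (ins y κ) = ins (T.vact g y) (chact T k g.right n κ) := by
  unfold cact ins chact
  rw [Finsupp.lmapDomain_apply, Finsupp.lmapDomain_apply, Finsupp.lmapDomain_apply,
    Finsupp.lmapDomain_apply, ← Finsupp.mapDomain_comp, ← Finsupp.mapDomain_comp]
  rfl

theorem kt_cact (c : ℤ) (g : GG T) (K : CC (WithTop T.V) (Vx T) k 4) (hK : KT T k c K) : KT T k c (cact T k g.1 4 K) := by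
  classical
  refine ⟨?_, ?_⟩
  · intro c' hc'
    obtain ⟨⟨x, s⟩, hx, rfl⟩ := Finset.mem_image.1 (Finsupp.mapDomain_support hc')
    obtain ⟨h1, h2⟩ := hK.1 _ hx
    refine ⟨?_, ?_⟩
    · exact (alT_sact T g.1.right x.2 s).2 h1
    · change chi (T.vact g.1 x) = c
      rw [T.chi_GG]
      exact h2
  · intro y
    rw [← vact_inv' T g.1 y, pt_cact, chact_bdc, hK.2, map_zero]

theorem kt_ins (y : Vx T) (κ : Chn (WithTop T.V) 4 →₀ k) (h : Sp (AlT T.M y.2) κ) (h0 : bdc (WithTop T.V) k 3 κ = 0) :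
    KT T k (chi y) (ins y κ) := by
  classical
  refine ⟨?_, ?_⟩
  · intro c' hc'
    obtain ⟨s, hs, rfl⟩ := Finset.mem_image.1 (Finsupp.mapDomain_support hc')
    exact ⟨h s hs, rfl⟩
  · intro y'
    by_cases hy : y = y'
    · rw [← hy, pt_ins, h0]
    · rw [pt_ins_ne hy, map_zero]

theorem kt_add (c : ℤ) (K K' : CC (WithTop T.V) (Vx T) k 4) (h : KT T k c K) (h' : KT T k c K') : KT T k c (K + K') := by
  classical
  refine ⟨?_, ?_⟩
  · intro c' hc'
    rcases Finset.mem_union.1 (Finsupp.support_add hc') with h1 | h1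
    · exact h.1 c' h1
    · exact h'.1 c' h1
  · intro y
    rw [map_add, map_add, h.2, h'.2, add_zero]

theorem kt_smul (c : ℤ) (a : k) (K : CC (WithTop T.V) (Vx T) k 4) (h : KT T k c K) : KT T k c (a • K) := by
  refine ⟨fun c' hc' => h.1 c' (Finsupp.support_smul hc'), ?_⟩
  intro y
  rw [map_smul, map_smul, h.2, smul_zero]

theorem kt_zero (c : ℤ) : KT T k c 0 := by
  refine ⟨fun c' hc' => ?_, fun y => ?_⟩
  · rw [Finsupp.support_zero] at hc'
    exact absurd hc' (Finset.notMem_empty _)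
  · rw [map_zero, map_zero]

end

end Pool.Agent.H59.FS
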