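import Pool.Agent.H59.FS.Sys

set_option autoImplicit false

/-!
# MP_5c3080_gt, row [H59 FS Flp]: bottom coordinates and top coordinates

`pd σ s`: the composition of the steps of the chain `s`; `flp σ z` moves the cube `(x, s)` to `(pd σ s x, s)`.

Proofs. `pd_del`: induction on `n`; for `i = 0` by definition; for `i = j.succ`: `pd σ (s.del 0) = pd σ ((s.del 0).del j) * σ (s j.succ)`
(induction, `(s.del 0).1 j = s.1 j.succ`: `Fin.zero_succAbove`), the permutations `σ (s 0)`, `σ (s j.succ)` commute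
(`s 0 < s j.succ`), and `(s.del j.succ).del 0 = (s.del 0).del j` (`del_del` with `i = 0`), `(s.del j.succ).1 0 = s.1 0`.
`pd_del'`: the same (`σ (s i)` commutes with all the factors).
`flp_bb`: for `z = single (x, s) 1`, `y = pd σ s x`: `flp (σ (s i) x, s.del i) = (pd (s.del i) (σ (s i) x), s.del i) = (y, s.del i)`
by `pd_del`, and `flp (x, s.del i) = (pd (s.del i) x, s.del i) = ((σ (s i))⁻¹ y, s.del i)` by `pd_del'`.
`pd_inv`: induction with `pd_del`, `pd_del'` (`i = 0`).
-/

namespace Pool.Agent.H59.FS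

noncomputable section

section
variable {W X : Type} [PartialOrder W] {k : Type} [CommRing k] (σ : W → Equiv.Perm X)

/-- the composition of the steps of the chain -/
def pd : ∀ {n : ℕ}, Chn W n → Equiv.Perm X
  | 0, _ => 1
  | _ + 1, s => pd (s.del 0) * σ (s.1 0)

/-- the inverse steps -/
def iv (u : W) : Equiv.Perm X := (σ u)⁻¹

variable {σ}

omit [PartialOrder W] in
private theorem inv_ap (f : Equiv.Perm X) (x : X) : f⁻¹ (f x) = x := f.symm_apply_apply x

omit [PartialOrder W] in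
private theorem ap_inv (f : Equiv.Perm X) (x : X) : f (f⁻¹ x) = x := f.apply_symm_apply x

private theorem pc (hc : ∀ u w, u < w → ∀ x, σ w (σ u x) = σ u (σ w x)) {u w : W}
    (h : u < w ∨ w < u) : σ w * σ u = σ u * σ w := by
  refine Equiv.ext fun x => ?_
  rcases h with h | h
  · exact hc u w h x
  · exact (hc w u h x).symm

theorem iv_comm (hc : ∀ u w, u < w → ∀ x, σ w (σ u x) = σ u (σ w x)) :
    ∀ u w, u < w → ∀ x, iv σ w (iv σ u x) = iv σ u (iv σ w x) := by
  intro u w h x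
  have h1 : (σ w)⁻¹ * (σ u)⁻¹ = (σ u)⁻¹ * (σ w)⁻¹ := by
    rw [← mul_inv_rev, ← mul_inv_rev, pc hc (Or.inl h)]
  exact congrArg (fun f : Equiv.Perm X => f x) h1

theorem pd_del (hc : ∀ u w, u < w → ∀ x, σ w (σ u x) = σ u (σ w x)) {n : ℕ} (s : Chn W (n + 1)) (i : Fin (n + 1)) :
    pd σ s = pd σ (s.del i) * σ (s.1 i) := by
  induction n with
  | zero =>
    have h0 : i = 0 := Fin.fin_one_eq_zero i
    rw [h0]
    rfl
  | succ n ih =>
    refine Fin.cases ?_ (fun j => ?_) i
    · rfl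
    · have h1 : pd σ s = pd σ (s.del 0) * σ (s.1 0) := rfl
      have h2 : (s.del 0).1 j = s.1 j.succ :=
        congrArg s.1 (Fin.succAbove_zero_apply j)
      have h3 : (s.del j.succ).1 0 = s.1 0 := congrArg s.1 (Fin.succ_succAbove_zero j)
      have h4 : (s.del j.succ).del 0 = (s.del 0).del j :=
        del_del s (i := 0) (j := j) (Fin.zero_le j)
      have h5 : pd σ (s.del j.succ) = pd σ ((s.del j.succ).del 0) * σ ((s.del j.succ).1 0) := rfl
      have h6 : σ (s.1 j.succ) * σ (s.1 0) = σ (s.1 0) * σ (s.1 j.succ) :=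
        pc hc (Or.inl (s.2 (Fin.succ_pos j)))
      rw [h1, ih (s.del 0) j, h2, h5, h3, h4, mul_assoc, mul_assoc, h6]

private theorem pd_comm (u : W) {n : ℕ} (s : Chn W n)
    (h : ∀ j, σ u * σ (s.1 j) = σ (s.1 j) * σ u) : σ u * pd σ s = pd σ s * σ u := by
  induction n with
  | zero => rw [pd, mul_one, one_mul]
  | succ n ih =>
    have h1 : pd σ s = pd σ (s.del 0) * σ (s.1 0) := rfl
    rw [h1, ← mul_assoc, ih (s.del 0) fun j => h _, mul_assoc, h 0, ← mul_assoc]

theorem pd_del' (hc : ∀ u w, u < w → ∀ x, σ w (σ u x) = σ u (σ w x)) {n : ℕ} (s : Chn W (n + 1)) (i : Fin (n + 1)) :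
    pd σ s = σ (s.1 i) * pd σ (s.del i) := by
  rw [pd_del hc s i]
  refine (pd_comm (s.1 i) (s.del i) fun j => ?_).symm
  have h1 : (s.del i).1 j = s.1 (i.succAbove j) := rfl
  rw [h1]
  refine pc hc ?_
  rcases lt_or_gt_of_ne (Fin.succAbove_ne i j) with h | h
  · exact Or.inl (s.2 h)
  · exact Or.inr (s.2 h)

theorem pd_inv (hc : ∀ u w, u < w → ∀ x, σ w (σ u x) = σ u (σ w x)) {n : ℕ} (s : Chn W n) :
    pd (iv σ) s = (pd σ s)⁻¹ := by
  induction n with
  | zero => rw [pd, pd, inv_one]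
  | succ n ih =>
    have h1 : pd (iv σ) s = pd (iv σ) (s.del 0) * (σ (s.1 0))⁻¹ := rfl
    rw [h1, ih (s.del 0), ← mul_inv_rev, ← pd_del' hc s 0]

/-- the height of the top vertex -/
theorem pd_h {h : X → ℤ} (hh : ∀ u x, h (σ u x) = h x + 1) {n : ℕ} (s : Chn W n) (x : X) :
    h (pd σ s x) = h x + n := by
  induction n generalizing x with
  | zero =>
    rw [pd, Equiv.Perm.one_apply, Nat.cast_zero, add_zero]
  | succ n ih =>
    have h1 : pd σ s x = pd σ (s.del 0) (σ (s.1 0) x) := rfl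
    rw [h1, ih (s.del 0), hh, Nat.cast_succ]
    ring

variable (σ)

/-- change of coordinates -/
def flp (n : ℕ) : CC W X k n →ₗ[k] CC W X k n := Finsupp.lmapDomain k k fun c => (pd σ c.2 c.1, c.2)

variable {σ}

theorem flp_single {n : ℕ} (x : X) (s : Chn W n) (a : k) :
    flp σ n (Finsupp.single (x, s) a) = Finsupp.single (pd σ s x, s) a := by
  unfold flp
  rw [Finsupp.lmapDomain_apply, Finsupp.mapDomain_single]

/-- the coefficients of `flp z` -/
theorem flp_apply {n : ℕ} (z : CC W X k n) (y : X) (s : Chn W n) : flp σ n z (y, s) = z ((pd σ s)⁻¹ y, s) := by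
  have hinj : Function.Injective fun c : X × Chn W n => (pd σ c.2 c.1, c.2) := by
    rintro ⟨x, s⟩ ⟨x', s'⟩ h
    have h1 := congrArg Prod.snd h
    simp only at h1
    subst h1
    have h2 := congrArg Prod.fst h
    simp only at h2
    rw [(pd σ s).injective h2]
  have h1 : (y, s) = (fun c : X × Chn W n => (pd σ c.2 c.1, c.2)) ((pd σ s)⁻¹ y, s) := by
    change (y, s) = (pd σ s ((pd σ s)⁻¹ y), s)
    rw [ap_inv]
  have h2 := Finsupp.mapDomain_apply hinj z ((pd σ s)⁻¹ y, s)
  exact (congrArg (fun c => Finsupp.mapDomain (fun c : X × Chn W n => (pd σ c.2 c.1, c.2)) z c)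
    h1).trans h2

theorem flp_bb (hc : ∀ u w, u < w → ∀ x, σ w (σ u x) = σ u (σ w x)) (n : ℕ) (z : CC W X k (n + 1)) :
    flp σ n (bb σ n z) = - bb (iv σ) n (flp σ (n + 1) z) := by
  have key : (flp σ n ∘ₗ bb σ n : CC W X k (n + 1) →ₗ[k] CC W X k n) =
      -(bb (iv σ) n ∘ₗ flp σ (n + 1) : CC W X k (n + 1) →ₗ[k] CC W X k n) := by
    refine Finsupp.lhom_ext' fun c => LinearMap.ext_ring ?_
    obtain ⟨x, s⟩ := c
    simp only [LinearMap.comp_apply, LinearMap.neg_apply, Finsupp.lsingle_apply, flp_single]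
    unfold bb
    rw [Finsupp.linearCombination_single, Finsupp.linearCombination_single, one_smul, one_smul,
      map_sum, ← Finset.sum_neg_distrib]
    refine Finset.sum_congr rfl fun i _ => ?_
    simp only [map_smul, map_sub, flp_single]
    have h1 : pd σ (s.del i) (σ (s.1 i) x) = pd σ s x := by
      rw [pd_del hc s i]
      rfl
    have h2 : iv σ (s.1 i) (pd σ s x) = pd σ (s.del i) x := by
      rw [pd_del' hc s i]
      change (σ (s.1 i))⁻¹ (σ (s.1 i) (pd σ (s.del i) x)) = _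
      rw [inv_ap]
    rw [h1, h2, ← smul_neg, neg_sub]
  exact congrArg (fun f : CC W X k (n + 1) →ₗ[k] CC W X k n => f z) key

theorem flp_flp (hc : ∀ u w, u < w → ∀ x, σ w (σ u x) = σ u (σ w x)) (n : ℕ) (z : CC W X k n) :
    flp (iv σ) n (flp σ n z) = z := by
  refine Finsupp.ext fun c => ?_
  obtain ⟨y, s⟩ := c
  rw [flp_apply, flp_apply, pd_inv hc, inv_inv, inv_ap]

theorem flp_flp' (hc : ∀ u w, u < w → ∀ x, σ w (σ u x) = σ u (σ w x)) (n : ℕ) (z : CC W X k n) :
    flp σ n (flp (iv σ) n z) = z := by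
  refine Finsupp.ext fun c => ?_
  obtain ⟨y, s⟩ := c
  rw [flp_apply, flp_apply, pd_inv hc, inv_inv, ap_inv]

end

end

end Pool.Agent.H59.FS
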