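import Pool.Agent.H59.FS.Zed

set_option autoImplicit false

/-!
# MP_5c3080_gt: the group `Gam T = RA V ⋊ (P × ⟨t⟩)`, its character, the kernel `GG T`, its action on `Zed T`

`raM f`: the automorphism of `RA V` of an automorphism `f` of the poset `V`; `T.aq`: the action of `P × ⟨t⟩` on `V`;
`chA`: the character of `RA V` with `gn v ↦ 1`; `chi x = chA x.1 + x.2` for a vertex; `T.ch : Gam T →* Multiplicative ℤ`,
`GG T` its kernel. `vact`, `sact` are the actions on vertices and chains.
-/

namespace Pool.Agent.H59.FS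

open Pool.Agent.H3.RA

section
variable {V : Type} [PartialOrder V]

/-- the endomorphism of `RA V` given by an automorphism of `V` -/
def raM (f : V ≃o V) : RA V →* RA V :=
  lift (adj := adjP V) (fun v => gn (f v)) fun v w h => by
    rcases h with h | h
    · exact gn_comm (f.lt_iff_lt.2 h)
    · exact (gn_comm (f.lt_iff_lt.2 h)).symm

theorem raM_gn (f : V ≃o V) (v : V) : raM f (gn v) = gn (f v) := lift_gen _ _ v

theorem raM_mul (f g : V ≃o V) : raM (f * g) = (raM f).comp (raM g) :=
  hom_ext (adj := adjP V) fun v => by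
    change raM (f * g) (gn v) = raM f (raM g (gn v))
    rw [raM_gn, raM_gn, raM_gn]
    rfl

theorem raM_one : raM (1 : V ≃o V) = MonoidHom.id (RA V) :=
  hom_ext (adj := adjP V) fun v => raM_gn 1 v

/-- the action of the automorphisms of `V` on `RA V` -/
def raA : (V ≃o V) →* MulAut (RA V) where
  toFun f := (raM f).toMulEquiv (raM f⁻¹) (by rw [← raM_mul, inv_mul_cancel, raM_one])
    (by rw [← raM_mul, mul_inv_cancel, raM_one])
  map_one' := by
    apply MulEquiv.ext
    intro a
    exact congrArg (fun h : RA V →* RA V => h a) raM_one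
  map_mul' f g := by
    apply MulEquiv.ext
    intro a
    exact congrArg (fun h : RA V →* RA V => h a) (raM_mul f g)

theorem raA_apply (f : V ≃o V) (a : RA V) : raA f a = raM f a := rfl

/-- the character `gn v ↦ 1` -/
def chA : RA V →* Multiplicative ℤ :=
  lift (adj := adjP V) (fun _ => Multiplicative.ofAdd 1) fun _ _ _ => rfl

theorem chA_gn (v : V) : chA (gn v) = Multiplicative.ofAdd 1 := lift_gen _ _ v

theorem chA_raM (f : V ≃o V) (a : RA V) : chA (raM f a) = chA a := by
  have h : (chA (V := V)).comp (raM f) = chA := hom_ext (adj := adjP V) fun v => by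
    change chA (raM f (gn v)) = chA (gn v)
    rw [raM_gn, chA_gn, chA_gn]
  exact congrArg (fun h : RA V →* Multiplicative ℤ => h a) h

/-- the height of a vertex -/
def chi (x : RA V × ℤ) : ℤ := Multiplicative.toAdd (chA x.1) + x.2

theorem chi_stp (x : RA V × ℤ) (u : WithTop V) : chi (stp x u) = chi x + 1 := by
  cases u with
  | top =>
    change Multiplicative.toAdd (chA x.1) + (x.2 + 1) = Multiplicative.toAdd (chA x.1) + x.2 + 1
    ring
  | coe v =>
    change Multiplicative.toAdd (chA (x.1 * gn v)) + x.2 = Multiplicative.toAdd (chA x.1) + x.2 + 1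
    rw [map_mul, chA_gn, toAdd_mul, toAdd_ofAdd]
    ring

end

variable {P : Type} [Group P] [Fintype P] {r : ℕ} {e : Fin r → Fin r → P → ℤ} (T : Tower P r e)

theorem Tower.comm' (p : P) : T.ρ p * T.t = T.t * T.ρ p := by
  ext v
  exact (T.comm p v).symm

/-- the action of `P × ⟨t⟩` on `V` -/
def Tower.aq : P × Multiplicative ℤ →* (T.V ≃o T.V) :=
  MonoidHom.noncommCoprod T.ρ (zpowersHom (T.V ≃o T.V) T.t) fun p i => by
    have h1 : Commute (T.ρ p) T.t := T.comm' p
    rw [zpowersHom_apply]
    exact h1.zpow_right _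

theorem Tower.aq_apply (q : P × Multiplicative ℤ) : T.aq q = T.ρ q.1 * T.t ^ (Multiplicative.toAdd q.2) := by
  rw [Tower.aq, MonoidHom.noncommCoprod_apply, zpowersHom_apply]

/-- the big group -/
abbrev Gam : Type := RA T.V ⋊[raA.comp T.aq] (P × Multiplicative ℤ)

/-- its character -/
def Tower.ch : Gam T →* Multiplicative ℤ where
  toFun g := chA g.left * g.right.2
  map_one' := by simp
  map_mul' g h := by
    have h1 : chA (((raA.comp T.aq) g.right) h.left) = chA h.left := chA_raM _ _
    rw [SemidirectProduct.mul_left, SemidirectProduct.mul_right, map_mul, h1, Prod.snd_mul]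
    exact mul_mul_mul_comm _ _ _ _

/-- the group `G` -/
abbrev GG : Type := (T.ch).ker

/-- the action on vertices -/
def Tower.vact (g : Gam T) (x : RA T.V × ℤ) : RA T.V × ℤ :=
  (g.left * raM (T.aq g.right) x.1, Multiplicative.toAdd g.right.2 + x.2)

/-- the action on `WithTop V` -/
def Tower.wact (q : P × Multiplicative ℤ) : WithTop T.V → WithTop T.V := WithTop.map (T.aq q)

theorem Tower.wact_mono (q : P × Multiplicative ℤ) : StrictMono (T.wact q) := by
  have h := (T.aq q).withTopCongr.strictMono
  exact h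

/-- the action on chains -/
def Tower.sact (q : P × Multiplicative ℤ) {n : ℕ} (s : Chn (WithTop T.V) n) : Chn (WithTop T.V) n :=
  s.map (T.wact q) (T.wact_mono q)

theorem Tower.vact_one (x : RA T.V × ℤ) : T.vact 1 x = x := by
  unfold Tower.vact
  rw [SemidirectProduct.one_right, map_one, raM_one, SemidirectProduct.one_left]
  simp

theorem Tower.vact_mul (g h : Gam T) (x : RA T.V × ℤ) : T.vact (g * h) x = T.vact g (T.vact h x) := by
  unfold Tower.vact
  rw [SemidirectProduct.mul_right, map_mul, raM_mul, SemidirectProduct.mul_left]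
  refine Prod.ext ?_ ?_
  · change g.left * raM (T.aq g.right) h.left * raM (T.aq g.right) (raM (T.aq h.right) x.1) =
      g.left * raM (T.aq g.right) (h.left * raM (T.aq h.right) x.1)
    rw [map_mul, mul_assoc]
  · change Multiplicative.toAdd (g.right.2 * h.right.2) + x.2 = _
    rw [toAdd_mul, add_assoc]

theorem Tower.wact_one (u : WithTop T.V) : T.wact 1 u = u := by
  unfold Tower.wact
  rw [map_one]
  cases u <;> rfl

theorem Tower.wact_mul (p q : P × Multiplicative ℤ) (u : WithTop T.V) : T.wact (p * q) u = T.wact p (T.wact q u) := by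
  unfold Tower.wact
  rw [map_mul]
  cases u <;> rfl

theorem Tower.sact_one {n : ℕ} (s : Chn (WithTop T.V) n) : T.sact 1 s = s :=
  Subtype.ext (funext fun i => T.wact_one (s.1 i))

theorem Tower.sact_mul (p q : P × Multiplicative ℤ) {n : ℕ} (s : Chn (WithTop T.V) n) :
    T.sact (p * q) s = T.sact p (T.sact q s) :=
  Subtype.ext (funext fun i => T.wact_mul p q (s.1 i))

theorem Tower.chi_vact (g : Gam T) (x : RA T.V × ℤ) : chi (T.vact g x) = Multiplicative.toAdd (T.ch g) + chi x := by
  unfold chi Tower.vact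
  have h : T.ch g = chA g.left * g.right.2 := rfl
  rw [h, map_mul, chA_raM, toAdd_mul, toAdd_mul]
  ring

theorem Tower.mem_aq (q : P × Multiplicative ℤ) (i : ℤ) (v : T.V) :
    T.aq q v ∈ T.M (Multiplicative.toAdd q.2 + i) ↔ v ∈ T.M i := by
  rw [T.aq_apply]
  change T.ρ q.1 ((T.t ^ (Multiplicative.toAdd q.2)) v) ∈ _ ↔ _
  rw [T.M_P]
  generalize Multiplicative.toAdd q.2 = l
  have hs : ∀ (l i : ℤ) (v : T.V), (T.t ^ (l + 1)) v ∈ T.M (l + 1 + i) ↔ (T.t ^ l) v ∈ T.M (l + i) := by
    intro l i v
    rw [add_comm l 1, zpow_one_add, RelIso.mul_apply, show 1 + l + i = (l + i) + 1 by ring]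
    exact T.M_t (l + i) _
  induction l using Int.induction_on with
  | zero => simp
  | succ l ih => exact (hs l i v).trans ih
  | pred l ih =>
    have h1 := hs (-(l : ℤ) - 1) i v
    rw [sub_add_cancel] at h1
    exact h1.symm.trans ih

theorem Tower.alw_sact (q : P × Multiplicative ℤ) (l : ℤ) {n : ℕ} (s : Chn (WithTop T.V) n) (h : Alw T.M l s) :
    Alw T.M (Multiplicative.toAdd q.2 + l) (T.sact q s) := by
  intro i v hv
  have hv' : T.wact q (s.1 i) = ↑v := hv
  rcases hs : s.1 i with _ | w
  · rw [hs] at hv'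
    exact absurd hv' (by unfold Tower.wact; exact WithTop.top_ne_coe)
  · rw [hs] at hv'
    have hw : T.aq q w = v := WithTop.coe_injective hv'
    subst hw
    obtain ⟨h1, h2⟩ := h i w hs
    refine ⟨(T.mem_aq q l w).2 h1, ?_⟩
    rintro ⟨j, hj⟩
    have hj' : s.1 j = ⊤ := by
      have hj2 : T.wact q (s.1 j) = ⊤ := hj
      rcases hs' : s.1 j with _ | w'
      · rfl
      · rw [hs'] at hj2
        exact absurd hj2 (by unfold Tower.wact; exact WithTop.coe_ne_top)
    have h3 := (T.mem_aq q (l + 1) w).2 (h2 ⟨j, hj'⟩)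
    rwa [← add_assoc] at h3

theorem Tower.stp_vact (g : Gam T) (x : RA T.V × ℤ) (u : WithTop T.V) :
    stp (T.vact g x) (T.wact g.right u) = T.vact g (stp x u) := by
  cases u with
  | top =>
    change (g.left * raM (T.aq g.right) x.1, Multiplicative.toAdd g.right.2 + x.2 + 1) =
      (g.left * raM (T.aq g.right) x.1, Multiplicative.toAdd g.right.2 + (x.2 + 1))
    rw [add_assoc]
  | coe v =>
    change (g.left * raM (T.aq g.right) x.1 * gn (T.aq g.right v), Multiplicative.toAdd g.right.2 + x.2) =
      (g.left * raM (T.aq g.right) (x.1 * gn v), Multiplicative.toAdd g.right.2 + x.2)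
    rw [map_mul, raM_gn, mul_assoc]

/-- the action on the cubes of `Zed T` -/
def Tower.zact (g : Gam T) {n : ℕ} (c : (Zed T).cub n) : (Zed T).cub n :=
  ⟨(T.vact g c.1.1, T.sact g.right c.1.2), T.alw_sact g.right c.1.1.2 c.1.2 c.2⟩

instance Tower.zinst (n : ℕ) : MulAction (Gam T) ((Zed T).cub n) where
  smul g c := T.zact g c
  one_smul c := Subtype.ext (Prod.ext (T.vact_one _) (T.sact_one _))
  mul_smul g h c := Subtype.ext (Prod.ext (T.vact_mul g h _) (T.sact_mul g.right h.right _))

end Pool.Agent.H59.FS
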