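import Pool.Agent.H59.FS.Kap

set_option autoImplicit false

/-!
# MP_5c3080_gt, row [H59 FS Hmt]: the homology of the slice as a module over the group ring

`y0 = (1, β + 1)`, `gy y = (a, (1, l - β - 1)) ∈ GG T` for a vertex `y = (a, l)` of height `β + 1`; `gy y` moves `y0` to `y`, and
`g y0 = y` iff `g = gy y * ι p` for `p = π g` (compare components: `g = (a', (p, i))` moves `(1, β + 1)` to `(a', i + β + 1)`).
`Kx x = Σ_j Σ_g x_j(g) cact g (ins y0 (kap (β+1) δ_(1,j)))`.

`kx_pt`: only the `g = gy y * ι p`, `p ∈ P`, contribute to `pt y` (`cact_ins`, `pt_ins`, `pt_ins_ne`), `g.right = (p, ofAdd (l - β - 1))`,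
`chact` of `kap (β+1) δ_(1,j)` is `kap l δ_(p,j)` (`kap_act`; `q.1⁻¹ * b.1 = 1 ↔ b.1 = p`), and `Σ_(p,j) x_j(gy y * ι p) δ_(p,j)` is the
function `b ↦ x b.2 (gy y * ι b.1)`; `kap_add`, `kap_smul`.
`kx_kt`: `kt_cact`, `kt_ins` (`chi y0 = β + 1`, `kap_spec`), `kt_add`, `kt_smul`.
`kx_zero`: `Kx x = 0` iff all parts at the vertices `y` of height `β + 1` are zero (`kx_kt`), iff (`kap_zero`) for all `y`:
`ξ = emul e ξ`, `ξ b = x b.2 (gy y * ι b.1)`. And `(emul e ξ) (p, i) = Σ_j Σ_q e j i q x_j(gy y * ι p * ι q⁻¹) =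
mulE ι e x i (gy y * ι p)` (`Finsupp.mapDomain` of the bijection `g ↦ g * ι q`), every `g` is `gy (g y0) * ι (π g)`.
`kx_surj`: `K` with `KT T k (β+1) K`: for every `y` of height `β + 1`: `pt y K = kap y.2 ξ_y` (`kap_surj`; take `ξ_y = 0` if
`pt y K = 0`), define `x j g := ξ_(g y0) (π g, j)` (finite support: finitely many `y`, `P` finite, `g ↦ (g y0, π g)` injective).
Then `pt y (Kx x) = kap y.2 ξ_y`.
-/

namespace Pool.Agent.H59.FS

noncomputable section

variable {P : Type} [Group P] [Fintype P] {r : ℕ} {e : Fin r → Fin r → P → ℤ} (T : Tower P r e) (k : Type) [CommRing k]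

/-- the vertex `(1, β + 1)` -/
def y0 (β : ℤ) : Vx T := (1, β + 1)

/-- the generator number `j` -/
def kj (he : IsIdem e) (β : ℤ) (j : Fin r) : Chn (WithTop T.V) 4 →₀ k :=
  open Classical in kap T k he (β + 1) fun b => if b = (1, j) then 1 else 0

/-- the family of cycles of the vector `x` -/
def Kx (he : IsIdem e) (β : ℤ) (x : Fin r → (GG T →₀ k)) : CC (WithTop T.V) (Vx T) k 4 :=
  ∑ j : Fin r, (x j).sum fun g a => a • cact T k g.1 4 (ins (y0 T β) (kj T k he β j))

/-- the group element which moves `y0` to `y` -/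
def gy (β : ℤ) (y : Vx T) (hy : chi y = β + 1) : GG T :=
  ⟨⟨y.1, (1, Multiplicative.ofAdd (y.2 - (β + 1)))⟩, by
    change chA y.1 * Multiplicative.ofAdd (y.2 - (β + 1)) = 1
    apply Multiplicative.toAdd.injective
    rw [toAdd_mul, toAdd_ofAdd, toAdd_one]
    unfold chi at hy
    omega⟩

theorem gy_y0 (β : ℤ) (y : Vx T) (hy : chi y = β + 1) : T.vact (gy T β y hy).1 (y0 T β) = y := by
  change (y.1 * raM (T.aq _) 1, (y.2 - (β + 1)) + (β + 1)) = y
  rw [map_one, mul_one, sub_add_cancel]

private theorem pi_gy (β : ℤ) (y : Vx T) (hy : chi y = β + 1) (p : P) :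
    T.π (gy T β y hy * T.ι p) = p := by
  rw [map_mul, T.π_ι]
  change (1 : P) * p = p
  rw [one_mul]

private theorem gy_ι (β : ℤ) (y : Vx T) (hy : chi y = β + 1) (p : P) :
    T.vact (gy T β y hy * T.ι p).1 (y0 T β) = y := by
  change T.vact ((gy T β y hy).1 * (T.ι p).1) (y0 T β) = y
  rw [T.vact_mul]
  have h1 : T.vact (T.ι p).1 (y0 T β) = y0 T β := T.fix p (β + 1)
  rw [h1, gy_y0]

theorem gy_iff (β : ℤ) (y : Vx T) (hy : chi y = β + 1) (g : GG T) :
    T.vact g.1 (y0 T β) = y ↔ g = gy T β y hy * T.ι (T.π g) := by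
  constructor
  · intro h
    have h1 : g.1.left * raM (T.aq g.1.right) 1 = y.1 := congrArg Prod.fst h
    have h2 : Multiplicative.toAdd g.1.right.2 + (β + 1) = y.2 := congrArg Prod.snd h
    rw [map_one, mul_one] at h1
    apply Subtype.ext
    apply SemidirectProduct.ext
    · change g.1.left = y.1 * ((raA.comp T.aq) _) 1
      rw [map_one, mul_one]
      exact h1
    · change g.1.right = (1 * g.1.right.1, Multiplicative.ofAdd (y.2 - (β + 1)) * 1)
      rw [one_mul, mul_one]
      refine Prod.ext rfl ?_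
      change g.1.right.2 = Multiplicative.ofAdd (y.2 - (β + 1))
      apply Multiplicative.toAdd.injective
      rw [toAdd_ofAdd]
      omega
  · intro h
    rw [h]
    exact gy_ι T β y hy _

private theorem chi_y0 (β : ℤ) : chi (y0 T β) = β + 1 := by
  change Multiplicative.toAdd (chA (1 : RA T.V)) + (β + 1) = β + 1
  rw [map_one, toAdd_one, zero_add]

private theorem kt_sum (c : ℤ) {ι : Type} (s : Finset ι) (f : ι → CC (WithTop T.V) (Vx T) k 4)
    (h : ∀ i ∈ s, KT T k c (f i)) : KT T k c (∑ i ∈ s, f i) := by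
  classical
  induction s using Finset.induction_on with
  | empty =>
    rw [Finset.sum_empty]
    exact kt_zero T k c
  | insert a s ha ih =>
    rw [Finset.sum_insert ha]
    exact kt_add T k c _ _ (h a (Finset.mem_insert_self a s)) (ih fun i hi => h i (Finset.mem_insert_of_mem hi))

theorem kx_kt (he : IsIdem e) (β : ℤ) (x : Fin r → (GG T →₀ k)) : KT T k (β + 1) (Kx T k he β x) := by
  classical
  unfold Kx
  refine kt_sum T k _ _ _ fun j _ => ?_
  refine kt_sum T k _ _ _ fun g _ => ?_
  refine kt_smul T k _ _ _ (kt_cact T k _ _ _ ?_)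
  obtain ⟨h1, h2, -⟩ := kap_spec T k he (β + 1) fun b => if b = (1, j) then 1 else 0
  have h3 := kt_ins T k (y0 T β) (kj T k he β j) (by unfold kj; exact h1) (by unfold kj; exact h2)
  rw [chi_y0] at h3
  exact h3

/-- `kap` as a linear map -/
private def kapL (he : IsIdem e) (l : ℤ) : (P × Fin r → k) →ₗ[k] (Chn (WithTop T.V) 4 →₀ k) where
  toFun := kap T k he l
  map_add' := kap_add T k he l
  map_smul' := kap_smul T k he l

open Classical in
/-- the delta functions -/
private def dlt (b : P × Fin r) : P × Fin r → k := fun b' => if b' = b then 1 else 0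

private theorem pt_gen (he : IsIdem e) (β : ℤ) (j : Fin r) (g : GG T) (y : Vx T) (hy : chi y = β + 1) :
    pt y (cact T k g.1 4 (ins (y0 T β) (kj T k he β j))) =
      open Classical in if T.vact g.1 (y0 T β) = y then kapL T k he y.2 (dlt k (T.π g, j)) else 0 := by
  classical
  rw [cact_ins]
  by_cases h : T.vact g.1 (y0 T β) = y
  · rw [if_pos h, h, pt_ins]
    unfold kj
    rw [kap_act]
    have h2 : Multiplicative.toAdd g.1.right.2 + (β + 1) = y.2 := congrArg Prod.snd h
    rw [h2]
    change kap T k he y.2 _ = kap T k he y.2 _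
    congr 1
    funext b
    unfold dlt
    have h3 : ((g.1.right.1⁻¹ * b.1, b.2) : P × Fin r) = (1, j) ↔ b = (T.π g, j) := by
      constructor
      · intro h4
        have h5 := congrArg Prod.fst h4
        have h6 := congrArg Prod.snd h4
        simp only at h5 h6
        refine Prod.ext ?_ h6
        exact (inv_mul_eq_one.1 h5).symm
      · rintro rfl
        refine Prod.ext ?_ rfl
        exact inv_mul_cancel _
    by_cases h7 : b = (T.π g, j)
    · rw [if_pos h7, if_pos (h3.2 h7)]
    · rw [if_neg h7, if_neg fun h8 => h7 (h3.1 h8)]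
  · rw [if_neg h, pt_ins_ne h]

private theorem sum_gen (he : IsIdem e) (β : ℤ) (j : Fin r) (y : Vx T) (hy : chi y = β + 1) (x : GG T →₀ k) :
    pt y (x.sum fun g a => a • cact T k g.1 4 (ins (y0 T β) (kj T k he β j))) =
      ∑ p : P, x (gy T β y hy * T.ι p) • kapL T k he y.2 (dlt k (p, j)) := by
  classical
  have h0 : ∀ x : GG T →₀ k, (x.sum fun g a => a • cact T k g.1 4 (ins (y0 T β) (kj T k he β j))) =
      Finsupp.linearCombination k (fun g : GG T => cact T k g.1 4 (ins (y0 T β) (kj T k he β j))) x :=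
    fun x => (Finsupp.linearCombination_apply k x).symm
  rw [h0]
  induction x using Finsupp.induction_linear with
  | zero =>
    rw [map_zero, map_zero]
    symm
    exact Finset.sum_eq_zero fun p _ => by rw [Finsupp.zero_apply, zero_smul]
  | add f g hf hg =>
    rw [map_add, map_add, hf, hg, ← Finset.sum_add_distrib]
    exact Finset.sum_congr rfl fun p _ => by rw [Finsupp.add_apply, add_smul]
  | single g a =>
    rw [Finsupp.linearCombination_single, map_smul, pt_gen T k he β j g y hy]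
    by_cases h : T.vact g.1 (y0 T β) = y
    · rw [if_pos h]
      have h1 := (gy_iff T β y hy g).1 h
      rw [Finset.sum_eq_single (T.π g)]
      · rw [← h1, Finsupp.single_eq_same]
      · intro p _ hp
        rw [Finsupp.single_eq_of_ne, zero_smul]
        intro h2
        apply hp
        rw [← h2, pi_gy]
      · intro h2
        exact absurd (Finset.mem_univ _) h2
    · rw [if_neg h, smul_zero]
      symm
      refine Finset.sum_eq_zero fun p _ => ?_
      rw [Finsupp.single_eq_of_ne, zero_smul]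
      intro h2
      apply h
      rw [← h2]
      exact gy_ι T β y hy p

theorem kx_pt (he : IsIdem e) (β : ℤ) (x : Fin r → (GG T →₀ k)) (y : Vx T) (hy : chi y = β + 1) :
    pt y (Kx T k he β x) = kap T k he y.2 fun b => x b.2 (gy T β y hy * T.ι b.1) := by
  classical
  unfold Kx
  rw [map_sum, Finset.sum_congr rfl fun j _ => sum_gen T k he β j y hy (x j)]
  have h1 : (fun b : P × Fin r => x b.2 (gy T β y hy * T.ι b.1)) =
      ∑ b : P × Fin r, x b.2 (gy T β y hy * T.ι b.1) • dlt k b := by
    funext b'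
    rw [Finset.sum_apply, Finset.sum_eq_single b']
    · rw [Pi.smul_apply]
      unfold dlt
      rw [if_pos rfl, smul_eq_mul, mul_one]
    · intro b _ hb
      rw [Pi.smul_apply]
      unfold dlt
      rw [if_neg (Ne.symm hb), smul_zero]
    · intro h
      exact absurd (Finset.mem_univ _) h
  have h2 : kap T k he y.2 (fun b => x b.2 (gy T β y hy * T.ι b.1)) =
      kapL T k he y.2 (fun b => x b.2 (gy T β y hy * T.ι b.1)) := rfl
  rw [h2, h1, map_sum, Fintype.sum_prod_type_right]
  refine Finset.sum_congr rfl fun j _ => Finset.sum_congr rfl fun p _ => ?_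
  rw [map_smul]

private theorem mulE_ap (x : Fin r → (GG T →₀ k)) (i : Fin r) (g : GG T) :
    mulE T.ι e x i g = ∑ j : Fin r, ∑ q : P, ((e j i q : ℤ) : k) * x j (g * T.ι q⁻¹) := by
  unfold mulE
  rw [Finsupp.finsetSum_apply]
  refine Finset.sum_congr rfl fun j _ => ?_
  rw [Finsupp.finsetSum_apply]
  refine Finset.sum_congr rfl fun q _ => ?_
  rw [Finsupp.smul_apply, smul_eq_mul]
  congr 1
  have h1 : Function.Injective fun g : GG T => g * T.ι q := mul_left_injective _
  have h2 := Finsupp.mapDomain_apply h1 (x j) (g * T.ι q⁻¹)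
  have h3 : g * T.ι q⁻¹ * T.ι q = g := by
    rw [mul_assoc, ← map_mul, inv_mul_cancel, map_one, mul_one]
  simp only [h3] at h2
  exact h2

private theorem emul_xi (β : ℤ) (x : Fin r → (GG T →₀ k)) (y : Vx T) (hy : chi y = β + 1) (b : P × Fin r) :
    emul e (fun b : P × Fin r => x b.2 (gy T β y hy * T.ι b.1)) b =
      mulE T.ι e x b.2 (gy T β y hy * T.ι b.1) := by
  rw [mulE_ap]
  unfold emul
  refine Finset.sum_congr rfl fun j _ => Finset.sum_congr rfl fun q _ => ?_
  rw [mul_assoc, ← map_mul]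

private theorem pt_ne (c : ℤ) (K : CC (WithTop T.V) (Vx T) k 4) (hK : KT T k c K) (y : Vx T) (hy : chi y ≠ c) :
    pt y K = 0 := by
  ext s
  rw [pt_apply, Finsupp.zero_apply]
  by_contra h
  exact hy (hK.1 (y, s) (Finsupp.mem_support_iff.2 h)).2

private theorem ext_pt (K K' : CC (WithTop T.V) (Vx T) k 4) (h : ∀ y, pt y K = pt y K') : K = K' := by
  refine Finsupp.ext fun c => ?_
  obtain ⟨y, s⟩ := c
  rw [← pt_apply, ← pt_apply, h]

theorem kx_zero (he : IsIdem e) (β : ℤ) (x : Fin r → (GG T →₀ k)) :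
    Kx T k he β x = 0 ↔ ∀ i, x i = mulE T.ι e x i := by
  constructor
  · intro h i
    refine Finsupp.ext fun g => ?_
    have hy : chi (T.vact g.1 (y0 T β)) = β + 1 := by
      rw [T.chi_GG, chi_y0]
    have h1 := kx_pt T k he β x _ hy
    rw [h, map_zero] at h1
    have h2 := (kap_zero T k he _ _).1 h1.symm
    have h3 := congrFun h2 (T.π g, i)
    rw [emul_xi] at h3
    have h4 := (gy_iff T β _ hy g).1 rfl
    change x i (gy T β _ hy * T.ι (T.π g)) = mulE T.ι e x i (gy T β _ hy * T.ι (T.π g)) at h3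
    rw [← h4] at h3
    exact h3
  · intro h
    refine ext_pt T k _ _ fun y => ?_
    rw [map_zero]
    by_cases hy : chi y = β + 1
    · rw [kx_pt T k he β x y hy, kap_zero]
      funext b
      rw [emul_xi, ← h b.2]
    · exact pt_ne T k _ _ (kx_kt T k he β x) y hy

theorem kx_surj (he : IsIdem e) (β : ℤ) (K : CC (WithTop T.V) (Vx T) k 4) (hK : KT T k (β + 1) K) :
    ∃ x : Fin r → (GG T →₀ k), Kx T k he β x = K := by
  classical
  have h1 : ∀ y : Vx T, ∃ ξ : P × Fin r → k, pt y K = kap T k he y.2 ξ ∧ (pt y K = 0 → ξ = 0) := by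
    intro y
    by_cases h : pt y K = 0
    · refine ⟨0, ?_, fun _ => rfl⟩
      rw [h]
      symm
      rw [kap_zero]
      funext b
      simp only [emul, Pi.zero_apply, mul_zero, Finset.sum_const_zero]
    · obtain ⟨ξ, hξ⟩ := kap_surj T k he y.2 (pt y K) (fun s hs => by
        have h3 : (pt y K) s ≠ 0 := Finsupp.mem_support_iff.1 hs
        have h2 : (y, s) ∈ K.support := Finsupp.mem_support_iff.2 h3
        exact (hK.1 _ h2).1) (hK.2 y)
      exact ⟨ξ, hξ, fun h3 => absurd h3 h⟩
  choose ξ hξ1 hξ2 using h1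
  have hinj : Function.Injective fun g : GG T => (T.vact g.1 (y0 T β), T.π g) := by
    intro g g' h
    have h2 : T.vact g.1 (y0 T β) = T.vact g'.1 (y0 T β) := congrArg Prod.fst h
    have h3 : T.π g = T.π g' := congrArg Prod.snd h
    have hy : chi (T.vact g'.1 (y0 T β)) = β + 1 := by
      rw [T.chi_GG, chi_y0]
    have h4 := (gy_iff T β _ hy g).1 h2
    have h5 := (gy_iff T β _ hy g').1 rfl
    rw [h4, h3]
    exact h5.symm
  have hfin : ({g : GG T | pt (T.vact g.1 (y0 T β)) K ≠ 0}).Finite := by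
    have h2 : (((K.support.image Prod.fst : Finset (Vx T)) : Set (Vx T)) ×ˢ (Set.univ : Set P)).Finite :=
      (Finset.finite_toSet _).prod (Set.toFinite _)
    refine (h2.preimage hinj.injOn).subset ?_
    intro g hg
    refine ⟨?_, Set.mem_univ _⟩
    obtain ⟨s, hs⟩ := Finsupp.ne_iff.1 hg
    rw [pt_apply, Finsupp.zero_apply] at hs
    exact Finset.mem_coe.2 (Finset.mem_image.2 ⟨_, Finsupp.mem_support_iff.2 hs, rfl⟩)
  refine ⟨fun j => Finsupp.onFinset hfin.toFinset (fun g => ξ (T.vact g.1 (y0 T β)) (T.π g, j)) ?_, ?_⟩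
  · intro g hg
    rw [Set.Finite.mem_toFinset]
    intro h2
    apply hg
    rw [hξ2 _ h2]
    rfl
  · refine ext_pt T k _ _ fun y => ?_
    by_cases hy : chi y = β + 1
    · rw [kx_pt T k he β _ y hy, hξ1 y]
      congr 1
      funext b
      rw [Finsupp.onFinset_apply, gy_ι, pi_gy]
    · rw [pt_ne T k _ _ (kx_kt T k he β _) y hy, pt_ne T k _ _ hK y hy]

end

end Pool.Agent.H59.FS
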