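import Pool.Agent.H59.FS.Eqv

set_option autoImplicit false

/-!
# MP_5c3080_gt, row [H59 FS Kap]: the cycles of degree 4 of the descending complexes as a module

`kap he l x`: the cycle of degree 4 of `D_l` with `lk ⊤ = zs k l (x - x e)`.

Proofs. `emul e (x - emul e x) = 0` by `emul_emul` (and additivity of `emul`), so it exists by `dn4`; by `dn4_uni` two cycles of degree
4 of `D_l` with the same `lk ⊤` are equal (their difference): (uni). `kap_add`, `kap_smul`, `kap_sum`: (uni), `zs_add`, `zs_smul`,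
linearity of `emul`. `kap_zero`: if `x = emul e x` then `lk ⊤ = zs 0 = 0`, so `0` by `dn4_uni`; conversely `zs_inj`. `kap_surj`: `dn4'`:
`lk ⊤ κ = zs k l x` with `emul e x = 0`, `x - emul e x = x`, (uni). `kap_act`: (uni) with `alT_sact`, `chact_bdc`, `chact_lk`,
`chact_zs`, and `emul e (x ∘ (q⁻¹ ·)) = (emul e x) ∘ (q⁻¹ ·)` (associativity in the definition of `emul`).
-/

namespace Pool.Agent.H59.FS

noncomputable section

variable {P : Type} [Group P] [Fintype P] {r : ℕ} {e : Fin r → Fin r → P → ℤ} (T : Tower P r e) (k : Type) [CommRing k]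

omit T in
private theorem emul_sub' (x y : P × Fin r → k) : emul e (x - y) = emul e x - emul e y := by
  funext b
  simp only [emul, Pi.sub_apply, mul_sub, Finset.sum_sub_distrib]

omit T in
private theorem emul_add' (x y : P × Fin r → k) : emul e (x + y) = emul e x + emul e y := by
  funext b
  simp only [emul, Pi.add_apply, mul_add, Finset.sum_add_distrib]

omit T in
private theorem emul_smul' (a : k) (x : P × Fin r → k) : emul e (a • x) = a • emul e x := by
  funext b
  simp only [emul, Pi.smul_apply, smul_eq_mul, Finset.mul_sum]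
  refine Finset.sum_congr rfl fun j _ => Finset.sum_congr rfl fun q _ => ?_
  ring

omit T in
private theorem emul_act' (q : P) (x : P × Fin r → k) :
    emul e (fun b : P × Fin r => x (q⁻¹ * b.1, b.2)) = fun b => emul e x (q⁻¹ * b.1, b.2) := by
  funext b
  simp only [emul, mul_assoc]

omit T in
theorem emul_sub_emul (he : IsIdem e) (x : P × Fin r → k) : emul e (x - emul e x) = 0 := by
  rw [emul_sub', emul_emul k he, sub_self]

/-- the cycle of degree 4 with `lk ⊤ = zs (x - x e)` -/
def kap (he : IsIdem e) (l : ℤ) (x : P × Fin r → k) : Chn (WithTop T.V) 4 →₀ k :=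
  Classical.choose (dn4 T k l (x - emul e x) (emul_sub_emul k he x))

theorem kap_spec (he : IsIdem e) (l : ℤ) (x : P × Fin r → k) : Sp (AlT T.M l) (kap T k he l x) ∧
    bdc (WithTop T.V) k 3 (kap T k he l x) = 0 ∧
    lk k (⊤ : WithTop T.V) 3 (kap T k he l x) = T.zs k l (x - emul e x) :=
  Classical.choose_spec (dn4 T k l (x - emul e x) (emul_sub_emul k he x))

omit [Group P] in
private theorem sp_add {W : Type} [PartialOrder W] {k : Type} [CommRing k] {n : ℕ} {Q : Chn W n → Prop}
    {x y : Chn W n →₀ k} (hx : Sp Q x) (hy : Sp Q y) : Sp Q (x + y) := by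
  classical
  intro s hs
  rcases Finset.mem_union.1 (Finsupp.support_add hs) with h | h
  · exact hx s h
  · exact hy s h

private theorem sp_smul {W : Type} [PartialOrder W] {k : Type} [CommRing k] {n : ℕ} {Q : Chn W n → Prop}
    {x : Chn W n →₀ k} (a : k) (hx : Sp Q x) : Sp Q (a • x) :=
  fun s hs => hx s (Finsupp.support_smul hs)

private theorem sp_neg {W : Type} [PartialOrder W] {k : Type} [CommRing k] {n : ℕ} {Q : Chn W n → Prop}
    {x : Chn W n →₀ k} (hx : Sp Q x) : Sp Q (-x) := by
  intro s hs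
  rw [Finsupp.support_neg] at hs
  exact hx s hs

theorem kap_uni (he : IsIdem e) (l : ℤ) (x : P × Fin r → k) (κ : Chn (WithTop T.V) 4 →₀ k) (h : Sp (AlT T.M l) κ)
    (h0 : bdc (WithTop T.V) k 3 κ = 0) (h1 : lk k (⊤ : WithTop T.V) 3 κ = T.zs k l (x - emul e x)) :
    κ = kap T k he l x := by
  obtain ⟨k1, k2, k3⟩ := kap_spec T k he l x
  have h2 : κ - kap T k he l x = 0 := by
    refine dn4_uni T k l _ ?_ ?_ ?_
    · rw [sub_eq_add_neg]
      exact sp_add h (sp_neg k1)
    · rw [map_sub, h0, k2, sub_zero]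
    · rw [map_sub, h1, k3, sub_self]
  exact sub_eq_zero.1 h2

theorem kap_add (he : IsIdem e) (l : ℤ) (x y : P × Fin r → k) :
    kap T k he l (x + y) = kap T k he l x + kap T k he l y := by
  obtain ⟨a1, a2, a3⟩ := kap_spec T k he l x
  obtain ⟨b1, b2, b3⟩ := kap_spec T k he l y
  refine (kap_uni T k he l (x + y) _ (sp_add a1 b1) ?_ ?_).symm
  · rw [map_add, a2, b2, add_zero]
  · rw [map_add, a3, b3, ← zs_add, emul_add']
    congr 1
    abel

theorem kap_smul (he : IsIdem e) (l : ℤ) (a : k) (x : P × Fin r → k) :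
    kap T k he l (a • x) = a • kap T k he l x := by
  obtain ⟨a1, a2, a3⟩ := kap_spec T k he l x
  refine (kap_uni T k he l (a • x) _ (sp_smul a a1) ?_ ?_).symm
  · rw [map_smul, a2, smul_zero]
  · rw [map_smul, a3, ← zs_smul, emul_smul', smul_sub]

private theorem zs_zero (l : ℤ) : T.zs k l (0 : P × Fin r → k) = 0 := by
  have h := zs_smul T k l (0 : k) (0 : P × Fin r → k)
  rw [zero_smul, zero_smul] at h
  exact h

theorem kap_zero (he : IsIdem e) (l : ℤ) (x : P × Fin r → k) : kap T k he l x = 0 ↔ x = emul e x := by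
  obtain ⟨a1, a2, a3⟩ := kap_spec T k he l x
  constructor
  · intro h
    rw [h, map_zero] at a3
    exact sub_eq_zero.1 (zs_inj T k l _ a3.symm)
  · intro h
    refine (kap_uni T k he l x 0 ?_ (map_zero _) ?_).symm
    · intro s hs
      rw [Finsupp.support_zero] at hs
      exact absurd hs (Finset.notMem_empty _)
    · rw [map_zero, sub_eq_zero.2 h, zs_zero]

theorem kap_surj (he : IsIdem e) (l : ℤ) (κ : Chn (WithTop T.V) 4 →₀ k) (h : Sp (AlT T.M l) κ)
    (h0 : bdc (WithTop T.V) k 3 κ = 0) : ∃ x : P × Fin r → k, κ = kap T k he l x := by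
  obtain ⟨x, h1, h2⟩ := dn4' T k l κ h h0
  refine ⟨x, kap_uni T k he l x κ h h0 ?_⟩
  rw [h2, h1, sub_zero]

theorem kap_act (he : IsIdem e) (q : P × Multiplicative ℤ) (l : ℤ) (x : P × Fin r → k) :
    chact T k q 4 (kap T k he l x) =
      kap T k he (Multiplicative.toAdd q.2 + l) fun b => x (q.1⁻¹ * b.1, b.2) := by
  classical
  obtain ⟨a1, a2, a3⟩ := kap_spec T k he l x
  refine kap_uni T k he _ _ _ ?_ ?_ ?_
  · intro s hs
    obtain ⟨s', hs', rfl⟩ := Finset.mem_image.1 (Finsupp.mapDomain_support hs)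
    exact (alT_sact T q l s').2 (a1 s' hs')
  · rw [chact_bdc, a2, map_zero]
  · rw [chact_lk, a3, chact_zs, emul_act']
    rfl

end

end Pool.Agent.H59.FS
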