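import Pool.Agent.H59.FS.Cnc
import Pool.Agent.H59.FS.BlkD
import Pool.Agent.H59.FS.BlkE

set_option autoImplicit false

/-!
# MP_5c3080_gt, row [H59 FS Lnk]: the parts of the boundary at the next height

Top coordinates. `BdX T k n z`: the part of `z` at every vertex `y` is a boundary in the descending complex at `y`:
`pt y z = bdc κ'` with `κ'` allowed (`AlT T.M y.2`).

`lnk`: let `κ` be a cycle of the descending complex at `y'`, `z = bb (iv sgm) (ins y' κ)`. Then for the vertex `y ≠ y'`:
`pt y z = Σ_s κ_s Σ_i (-1)^i [iv sgm (s i) y' = y] s.del i = Σ_u [iv sgm u y' = y] lk u κ` (sum over the finitely many `u` which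
occur in `κ`), and `pt y' z = - bdc κ = 0` plus the same sum (no step fixes a vertex: `chi_iv`). For `u = some v`:
`lk u κ = bdc κ_u`, `κ_u` the part of `κ` of the chains containing `u`: `bdc κ_u = lk u κ + (terms containing u)`, `bdc (κ - κ_u)`
has only terms without `u`, and `bdc κ = 0`, so the terms of `bdc κ_u` containing `u` cancel. The level of `iv sgm (some v) y'` is
that of `y'`, so `κ_u` is allowed at `y`. For `u = ⊤` the vertex is `iv sgm ⊤ y'`, of level one less. So:
at `y = iv sgm ⊤ y'`: `pt y z = lk ⊤ κ` (no other `u` gives this vertex: the levels differ);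
at every other `y` the part `pt y z` is a boundary in the descending complex at `y`.
-/

namespace Pool.Agent.H59.FS

noncomputable section

variable {P : Type} [Group P] [Fintype P] {r : ℕ} {e : Fin r → Fin r → P → ℤ} (T : Tower P r e) (k : Type) [CommRing k]

/-- `κ = bdc κ'` with `κ'` allowed at `y` -/
def BdT (n : ℕ) (y : Vx T) (κ : Chn (WithTop T.V) n →₀ k) : Prop :=
  ∃ κ' : Chn (WithTop T.V) (n + 1) →₀ k, Sp (AlT T.M y.2) κ' ∧ bdc (WithTop T.V) k n κ' = κ

private theorem bdc_one {W : Type} [PartialOrder W] (n : ℕ) (s : Chn W (n + 1)) :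
    bdc W k n (Finsupp.single s 1) =
      ∑ i : Fin (n + 1), (-1 : k) ^ (i : ℕ) • Finsupp.single (s.del i) (1 : k) := by
  unfold bdc
  rw [Finsupp.linearCombination_single, one_smul]

open Classical in
private theorem lk_one {W : Type} [PartialOrder W] (u : W) (n : ℕ) (s : Chn W (n + 1)) :
    lk k u n (Finsupp.single s 1) =
      ∑ i : Fin (n + 1), if s.1 i = u then (-1 : k) ^ (i : ℕ) • Finsupp.single (s.del i) (1 : k) else 0 := by
  unfold lk
  rw [Finsupp.linearCombination_single, one_smul]

/-- the part of a cycle of the chains which contain `u` -/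
theorem lk_bdc {W : Type} [PartialOrder W] (u : W) (n : ℕ) (κ : Chn W (n + 1) →₀ k) (h : bdc W k n κ = 0)
    (Q : Chn W (n + 1) → Prop) (hQ : Sp Q κ) :
    ∃ κ' : Chn W (n + 1) →₀ k, Sp Q κ' ∧ bdc W k n κ' = lk k u n κ := by
  classical
  let p : Chn W (n + 1) → Prop := fun s => ∃ j, s.1 j = u
  let fil : (Chn W (n + 1) →₀ k) →ₗ[k] (Chn W (n + 1) →₀ k) :=
    { toFun := fun z => z.filter p
      map_add' := fun a b => Finsupp.filter_add
      map_smul' := fun a b => Finsupp.filter_smul }
  have hf : ∀ z, fil z = z.filter p := fun _ => rfl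
  have h1 : ∀ t : Chn W n, (¬ ∃ j, t.1 j = u) →
      (Finsupp.lapply t ∘ₗ bdc W k n ∘ₗ fil : (Chn W (n + 1) →₀ k) →ₗ[k] k) =
        Finsupp.lapply t ∘ₗ lk k u n := by
    intro t ht
    refine Finsupp.lhom_ext' fun s => LinearMap.ext_ring ?_
    simp only [LinearMap.comp_apply, Finsupp.lsingle_apply, hf, Finsupp.lapply_apply]
    by_cases hs : p s
    · rw [Finsupp.filter_single_of_pos _ hs, bdc_one, lk_one, Finsupp.finsetSum_apply,
        Finsupp.finsetSum_apply]
      refine Finset.sum_congr rfl fun i _ => ?_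
      by_cases hi : s.1 i = u
      · rw [if_pos hi]
      · rw [if_neg hi, Finsupp.smul_apply, Finsupp.zero_apply, Finsupp.single_eq_of_ne, smul_zero]
        rintro rfl
        obtain ⟨j, hj⟩ := hs
        have hij : j ≠ i := by
          rintro rfl
          exact hi hj
        obtain ⟨a, ha⟩ := Fin.exists_succAbove_eq hij
        apply ht
        refine ⟨a, ?_⟩
        change s.1 (i.succAbove a) = u
        rw [ha, hj]
    · rw [Finsupp.filter_single_of_neg _ hs, map_zero, Finsupp.zero_apply, lk_one,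
        Finset.sum_eq_zero, Finsupp.zero_apply]
      intro i _
      rw [if_neg]
      intro hi
      exact hs ⟨i, hi⟩
  have h2 : ∀ t : Chn W n, (∃ j, t.1 j = u) →
      (Finsupp.lapply t ∘ₗ bdc W k n ∘ₗ fil : (Chn W (n + 1) →₀ k) →ₗ[k] k) =
        Finsupp.lapply t ∘ₗ bdc W k n := by
    intro t ht
    refine Finsupp.lhom_ext' fun s => LinearMap.ext_ring ?_
    simp only [LinearMap.comp_apply, Finsupp.lsingle_apply, hf, Finsupp.lapply_apply]
    by_cases hs : p s
    · rw [Finsupp.filter_single_of_pos _ hs]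
    · rw [Finsupp.filter_single_of_neg _ hs, map_zero, Finsupp.zero_apply, bdc_one,
        Finsupp.finsetSum_apply]
      symm
      refine Finset.sum_eq_zero fun i _ => ?_
      rw [Finsupp.smul_apply, Finsupp.single_eq_of_ne, smul_zero]
      rintro rfl
      obtain ⟨j, hj⟩ := ht
      exact hs ⟨i.succAbove j, hj⟩
  have h3 : ∀ t : Chn W n, (∃ j, t.1 j = u) →
      (Finsupp.lapply t ∘ₗ lk k u n : (Chn W (n + 1) →₀ k) →ₗ[k] k) = 0 := by
    intro t ht
    refine Finsupp.lhom_ext' fun s => LinearMap.ext_ring ?_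
    simp only [LinearMap.comp_apply, Finsupp.lsingle_apply, Finsupp.lapply_apply,
      LinearMap.zero_apply]
    rw [lk_one, Finsupp.finsetSum_apply]
    refine Finset.sum_eq_zero fun i _ => ?_
    by_cases hi : s.1 i = u
    · rw [if_pos hi, Finsupp.smul_apply, Finsupp.single_eq_of_ne, smul_zero]
      rintro rfl
      obtain ⟨j, hj⟩ := ht
      have h4 : s.1 (i.succAbove j) = s.1 i := by
        rw [hi]
        exact hj
      exact Fin.succAbove_ne i j (s.2.injective h4)
    · rw [if_neg hi, Finsupp.zero_apply]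
  refine ⟨fil κ, ?_, ?_⟩
  · intro s hs
    rw [hf, Finsupp.support_filter, Finset.mem_filter] at hs
    exact hQ s hs.1
  · ext t
    by_cases ht : ∃ j, t.1 j = u
    · have e1 := LinearMap.congr_fun (h2 t ht) κ
      have e2 := LinearMap.congr_fun (h3 t ht) κ
      simp only [LinearMap.comp_apply, Finsupp.lapply_apply, LinearMap.zero_apply] at e1 e2
      rw [e1, e2, h, Finsupp.zero_apply]
    · have e1 := LinearMap.congr_fun (h1 t ht) κ
      simp only [LinearMap.comp_apply, Finsupp.lapply_apply] at e1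
      exact e1

private theorem iv_ne {V : Type} [PartialOrder V] (u : WithTop V) (y : RA V × ℤ) : iv sgm u y ≠ y := by
  intro h
  have h1 := chi_iv u y
  rw [h] at h1
  omega

private theorem gn_inj {V : Type} [PartialOrder V] {v w : V} (h : gn v = gn w) : v = w := by
  classical
  by_contra hne
  let f : RA V →* Multiplicative ℤ := Pool.Agent.H3.RA.lift (adj := adjP V)
    (fun x => if x = v then Multiplicative.ofAdd 1 else 1) (fun _ _ _ => mul_comm _ _)
  have h1 : f (gn v) = Multiplicative.ofAdd 1 := by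
    refine (Pool.Agent.H3.RA.lift_gen _ _ v).trans ?_
    rw [if_pos rfl]
  have h2 : f (gn w) = 1 := by
    refine (Pool.Agent.H3.RA.lift_gen _ _ w).trans ?_
    rw [if_neg (fun h => hne h.symm)]
  rw [h, h2] at h1
  exact absurd h1 (by decide)

private theorem iv_inj {V : Type} [PartialOrder V] (u w : WithTop V) (y : RA V × ℤ)
    (h : iv sgm u y = iv sgm w y) : u = w := by
  cases u with
  | top =>
    cases w with
    | top => rfl
    | coe w =>
      have h1 : y.2 - 1 = y.2 := congrArg Prod.snd h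
      omega
  | coe u =>
    cases w with
    | top =>
      have h1 : y.2 = y.2 - 1 := congrArg Prod.snd h
      omega
    | coe w =>
      have h1 : y.1 * (gn u)⁻¹ = y.1 * (gn w)⁻¹ := congrArg Prod.fst h
      rw [gn_inj (inv_injective (mul_left_cancel h1))]

open Classical in
private theorem pt_one {V : Type} [PartialOrder V] {n : ℕ} (x y : RA V × ℤ) (t : Chn (WithTop V) n) :
    pt (k := k) x (Finsupp.single (y, t) 1) = if y = x then Finsupp.single t 1 else 0 := by
  rw [← ins_single]
  split_ifs with h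
  · rw [h, pt_ins]
  · rw [pt_ins_ne h]

private theorem gen_pt {V : Type} [PartialOrder V] (n : ℕ) (u : WithTop V) (y' : RA V × ℤ)
    (κ : Chn (WithTop V) (n + 1) →₀ k) :
    pt (iv sgm u y') (bb (iv sgm) n (ins y' κ)) = lk k u n κ := by
  classical
  have key : (pt (iv sgm u y') ∘ₗ bb (iv sgm) n ∘ₗ ins y' :
      (Chn (WithTop V) (n + 1) →₀ k) →ₗ[k] (Chn (WithTop V) n →₀ k)) = lk k u n := by
    refine Finsupp.lhom_ext' fun s => LinearMap.ext_ring ?_
    simp only [LinearMap.comp_apply, Finsupp.lsingle_apply]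
    rw [ins_single, lk_one]
    unfold bb
    rw [Finsupp.linearCombination_single, one_smul, map_sum]
    refine Finset.sum_congr rfl fun i _ => ?_
    rw [map_smul, map_sub, pt_one, pt_one, if_neg (Ne.symm (iv_ne u y')), sub_zero]
    by_cases hi : s.1 i = u
    · rw [if_pos hi, if_pos (by rw [hi])]
    · rw [if_neg hi, if_neg, smul_zero]
      intro h
      exact hi (iv_inj _ _ _ h)
  exact LinearMap.congr_fun key κ

private theorem gen_pt0 {V : Type} [PartialOrder V] (n : ℕ) (y y' : RA V × ℤ)
    (κ : Chn (WithTop V) (n + 1) →₀ k) (h1 : ∀ u, iv sgm u y' ≠ y) (h2 : y' ≠ y) :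
    pt y (bb (iv sgm) n (ins y' κ)) = 0 := by
  classical
  have key : (pt y ∘ₗ bb (iv sgm) n ∘ₗ ins y' :
      (Chn (WithTop V) (n + 1) →₀ k) →ₗ[k] (Chn (WithTop V) n →₀ k)) = 0 := by
    refine Finsupp.lhom_ext' fun s => LinearMap.ext_ring ?_
    simp only [LinearMap.comp_apply, Finsupp.lsingle_apply, LinearMap.zero_apply]
    rw [ins_single]
    unfold bb
    rw [Finsupp.linearCombination_single, one_smul, map_sum]
    refine Finset.sum_eq_zero fun i _ => ?_
    rw [map_smul, map_sub, pt_one, pt_one, if_neg h2, if_neg (h1 _), sub_zero, smul_zero]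
  exact LinearMap.congr_fun key κ

private theorem gen_pt1 {V : Type} [PartialOrder V] (n : ℕ) (y' : RA V × ℤ)
    (κ : Chn (WithTop V) (n + 1) →₀ k) :
    pt y' (bb (iv sgm) n (ins y' κ)) = - bdc (WithTop V) k n κ := by
  classical
  have key : (pt y' ∘ₗ bb (iv sgm) n ∘ₗ ins y' :
      (Chn (WithTop V) (n + 1) →₀ k) →ₗ[k] (Chn (WithTop V) n →₀ k)) = - bdc (WithTop V) k n := by
    refine Finsupp.lhom_ext' fun s => LinearMap.ext_ring ?_
    simp only [LinearMap.comp_apply, Finsupp.lsingle_apply, LinearMap.neg_apply]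
    rw [ins_single, bdc_one]
    unfold bb
    rw [Finsupp.linearCombination_single, one_smul, map_sum, ← Finset.sum_neg_distrib]
    refine Finset.sum_congr rfl fun i _ => ?_
    rw [map_smul, map_sub, pt_one, pt_one, if_pos rfl, if_neg (iv_ne _ _), zero_sub, smul_neg]
  exact LinearMap.congr_fun key κ

theorem lnk_top (n : ℕ) (y' : Vx T) (κ : Chn (WithTop T.V) (n + 1) →₀ k) :
    pt (iv sgm ⊤ y') (bb (iv sgm) n (ins y' κ)) = lk k (⊤ : WithTop T.V) n κ :=
  gen_pt k n ⊤ y' κ

theorem lnk_ne (n : ℕ) (y' : Vx T) (κ : Chn (WithTop T.V) (n + 1) →₀ k) (h : Sp (AlT T.M y'.2) κ)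
    (h0 : bdc (WithTop T.V) k n κ = 0) (y : Vx T) (hy : y ≠ iv sgm ⊤ y') :
    BdT T k n y (pt y (bb (iv sgm) n (ins y' κ))) := by
  by_cases h1 : ∃ u, iv sgm u y' = y
  · obtain ⟨u, rfl⟩ := h1
    rw [gen_pt]
    have h2 : (iv sgm u y').2 = y'.2 := by
      cases u with
      | top => exact absurd rfl hy
      | coe v => rfl
    obtain ⟨κ', h3, h4⟩ := lk_bdc k u n κ h0 _ h
    refine ⟨κ', ?_, h4⟩
    rw [h2]
    exact h3
  · by_cases h2 : y' = y
    · subst h2
      rw [gen_pt1, h0, neg_zero]
      refine ⟨0, ?_, map_zero _⟩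
      intro s hs
      simp at hs
    · rw [gen_pt0 k n y y' κ (fun u hu => h1 ⟨u, hu⟩) h2]
      refine ⟨0, ?_, map_zero _⟩
      intro s hs
      simp at hs

end

end Pool.Agent.H59.FS
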