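import Pool.Agent.H59.FS.ZdC

set_option autoImplicit false

/-!
# MP_5c3080_gt, row [H59 FS SlC]: the slices are connected and simply connected

A cocycle on a slice extends to the next slices: the links are suspensions of connected complexes (`exists_susp`), and so to
`Zed T` (`exists_limit`), where it is a coboundary (`sq_pot`).
-/

namespace Pool.Agent.H59.FS

open Pool.Agent.H3.RA
open scoped Classical

variable {P : Type} [Group P] [Fintype P] {r : ℕ} {e : Fin r → Fin r → P → ℤ} {T : Tower P r e}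

/-! ## links -/

/-- not a suspension point iff not maximal -/
theorem lt_iff (v : T.V) : (v ≠ T.sN ∧ v ≠ T.sS) ↔ ∃ w, v < w := by
  constructor
  · rintro ⟨h1, h2⟩
    exact ⟨_, (T.lt_s v h1 h2).1⟩
  · rintro ⟨w, hw⟩
    constructor
    · rintro rfl
      by_cases h1 : w = T.sN
      · exact absurd hw (by rw [h1]; exact lt_irrefl _)
      by_cases h2 : w = T.sS
      · exact T.not_lt.1 (h2 ▸ hw)
      · exact lt_asymm hw (T.lt_s w h1 h2).1
    · rintro rfl
      by_cases h1 : w = T.sN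
      · exact T.not_lt.2 (h1 ▸ hw)
      by_cases h2 : w = T.sS
      · exact absurd hw (by rw [h2]; exact lt_irrefl _)
      · exact lt_asymm hw (T.lt_s w h1 h2).2

theorem ns_map (φ : T.V ≃o T.V) (v : T.V) : (φ v ≠ T.sN ∧ φ v ≠ T.sS) ↔ (v ≠ T.sN ∧ v ≠ T.sS) := by
  rw [lt_iff, lt_iff]
  constructor
  · rintro ⟨w, hw⟩
    refine ⟨φ.symm w, ?_⟩
    rw [← φ.lt_iff_lt, OrderIso.apply_symm_apply]
    exact hw
  · rintro ⟨w, hw⟩
    exact ⟨φ w, φ.lt_iff_lt.2 hw⟩

theorem con_l (l : ℤ) (f : T.V → Prop)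
    (hf : ∀ v w, v ∈ T.M l → w ∈ T.M l → w ≠ T.sN → w ≠ T.sS → v < w → (f v ↔ f w)) (v w : T.V)
    (hv : v ∈ T.M l) (hw : w ∈ T.M l) (h1 : v ≠ T.sN) (h2 : v ≠ T.sS) (h3 : w ≠ T.sN) (h4 : w ≠ T.sS) : f v ↔ f w := by
  let q : P × Multiplicative ℤ := (1, Multiplicative.ofAdd l)
  have hm : ∀ v, T.aq q v ∈ T.M l ↔ v ∈ T.M 0 := by
    intro v
    have := T.mem_aq q 0 v
    rw [add_zero] at this
    exact this
  have h5 := T.con0 (fun v => f (T.aq q v)) (by
    intro v w hv hw h5 h6 h7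
    have h8 := (ns_map (T.aq q) w).2 ⟨h5, h6⟩
    exact hf _ _ ((hm v).2 hv) ((hm w).2 hw) h8.1 h8.2 ((T.aq q).lt_iff_lt.2 h7)) ((T.aq q).symm v) ((T.aq q).symm w)
  have e1 : T.aq q ((T.aq q).symm v) = v := OrderIso.apply_symm_apply _ _
  have e2 : T.aq q ((T.aq q).symm w) = w := OrderIso.apply_symm_apply _ _
  have h6 := (ns_map (T.aq q) ((T.aq q).symm v)).1 (by rw [e1]; exact ⟨h1, h2⟩)
  have h7 := (ns_map (T.aq q) ((T.aq q).symm w)).1 (by rw [e2]; exact ⟨h3, h4⟩)
  have h8 := h5 ((hm _).1 (by rw [e1]; exact hv)) ((hm _).1 (by rw [e2]; exact hw)) h6.1 h6.2 h7.1 h7.2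
  rw [e1, e2] at h8
  exact h8

theorem ne_l (l : ℤ) : ∃ v, v ∈ T.M (l - 1) ∧ v ∈ T.M l ∧ v ≠ T.sN ∧ v ≠ T.sS := by
  obtain ⟨v, ⟨h1, h2⟩, h3, h4⟩ := T.neW
  let q : P × Multiplicative ℤ := (1, Multiplicative.ofAdd l)
  have h5 := (ns_map (T.aq q) v).2 ⟨h3, h4⟩
  refine ⟨T.aq q v, ?_, ?_, h5.1, h5.2⟩
  · have := (T.mem_aq q (-1) v).2 h1
    exact this
  · have := (T.mem_aq q 0 v).2 h2
    rw [add_zero] at this
    exact this

variable (T) in
/-- pairs of directions in a link: level `l`, and `l'` if one of them is `⊤` -/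
def OkR (l l' : ℤ) (u w : WithTop T.V) : Prop :=
  (u < w ∨ w < u) ∧ OkD T l u ∧ OkD T l w ∧ (u = ⊤ → OkD T l' w) ∧ (w = ⊤ → OkD T l' u)

theorem OkR.symm {l l' : ℤ} {u w : WithTop T.V} (h : OkR T l l' u w) : OkR T l l' w u :=
  ⟨h.1.symm, h.2.2.1, h.2.1, h.2.2.2.2, h.2.2.2.1⟩

theorem okP_iff {l : ℤ} {u w : WithTop T.V} : OkP T l u w ↔ OkR T l (l + 1) u w := Iff.rfl

/-- the directions different from the suspension points -/
def lkD (T : Tower P r e) (l : ℤ) : Set (WithTop T.V) := {u | OkD T l u ∧ u ≠ ↑T.sN ∧ u ≠ ↑T.sS}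

theorem okR_sN {l l' : ℤ} {u : WithTop T.V} (hu : u ∈ lkD T l) : OkR T l l' u ↑T.sN ∧ OkR T l l' u ↑T.sS := by
  obtain ⟨h1, h2, h3⟩ := hu
  have h4 : u < ↑T.sN ∨ (↑T.sN : WithTop T.V) < u := by
    cases u with
    | top => exact Or.inr (WithTop.coe_lt_top _)
    | coe v => exact Or.inl (WithTop.coe_lt_coe.2 (T.lt_s v (fun h => h2 (by rw [h])) (fun h => h3 (by rw [h]))).1)
  have h5 : u < ↑T.sS ∨ (↑T.sS : WithTop T.V) < u := by
    cases u with
    | top => exact Or.inr (WithTop.coe_lt_top _)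
    | coe v => exact Or.inl (WithTop.coe_lt_coe.2 (T.lt_s v (fun h => h2 (by rw [h])) (fun h => h3 (by rw [h]))).2)
  exact ⟨⟨h4, h1, okD_coe.2 (T.s_M l).1, fun _ => okD_coe.2 (T.s_M l').1, fun h => absurd h WithTop.coe_ne_top⟩,
    ⟨h5, h1, okD_coe.2 (T.s_M l).2, fun _ => okD_coe.2 (T.s_M l').2, fun h => absurd h WithTop.coe_ne_top⟩⟩

theorem top_lkD (l : ℤ) : (⊤ : WithTop T.V) ∈ lkD T l := ⟨okD_top l, WithTop.top_ne_coe, WithTop.top_ne_coe⟩

/-- the link without the suspension points is connected -/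
theorem lkD_conn {l l' : ℤ} (hll : l' = l - 1 ∨ l' = l + 1) (f : WithTop T.V → Prop)
    (hf : ∀ u ∈ lkD T l, ∀ w ∈ lkD T l, OkR T l l' u w → (f u ↔ f w)) : ∀ u ∈ lkD T l, f u ↔ f ⊤ := by
  have hv0 : ∃ v, v ∈ T.M l ∧ v ∈ T.M l' ∧ v ≠ T.sN ∧ v ≠ T.sS := by
    rcases hll with rfl | rfl
    · obtain ⟨v, h1, h2, h3⟩ := ne_l (T := T) l
      exact ⟨v, h2, h1, h3⟩
    · obtain ⟨v, h1, h2, h3⟩ := ne_l (T := T) (l + 1)
      rw [add_sub_cancel_right] at h1
      exact ⟨v, h1, h2, h3⟩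
  obtain ⟨v0, h1, h2, h3, h4⟩ := hv0
  have hmem : ∀ v : T.V, v ∈ T.M l → v ≠ T.sN → v ≠ T.sS → (v : WithTop T.V) ∈ lkD T l := fun v h5 h6 h7 =>
    ⟨okD_coe.2 h5, fun h => h6 (WithTop.coe_injective h), fun h => h7 (WithTop.coe_injective h)⟩
  have h5 : f ↑v0 ↔ f ⊤ := hf _ (hmem v0 h1 h3 h4) _ (top_lkD l)
    ⟨Or.inl (WithTop.coe_lt_top v0), okD_coe.2 h1, okD_top l, fun h => absurd h WithTop.coe_ne_top, fun _ => okD_coe.2 h2⟩
  intro u hu
  cases u with
  | top => rfl
  | coe v =>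
    obtain ⟨h6, h7, h8⟩ := hu
    have h7' : v ≠ T.sN := fun h => h7 (by rw [h])
    have h8' : v ≠ T.sS := fun h => h8 (by rw [h])
    refine Iff.trans ?_ h5
    refine con_l l (fun v => f ↑v) ?_ v v0 (okD_coe.1 h6) h1 h7' h8' h3 h4
    intro v w hv hw h9 h10 h11
    have h12 := (lt_iff v).2 ⟨w, h11⟩
    exact hf _ (hmem v hv h12.1 h12.2) _ (hmem w hw h9 h10) ⟨Or.inl (WithTop.coe_lt_coe.2 h11), okD_coe.2 hv, okD_coe.2 hw,
      fun h => absurd h WithTop.coe_ne_top, fun h => absurd h WithTop.coe_ne_top⟩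

/-- cocycles on the link -/
theorem link_susp {H : Type} [Group H] {l l' : ℤ} (hll : l' = l - 1 ∨ l' = l + 1) (Φ : WithTop T.V → WithTop T.V → H)
    (hi : ∀ u w, OkR T l l' u w → Φ u w * Φ w u = 1)
    (ht : ∀ u w z, OkR T l l' u w → OkR T l l' w z → OkR T l l' u z → Φ u w * Φ w z = Φ u z) :
    ∃ X : WithTop T.V → H, ∀ u w, OkR T l l' u w → X u = Φ u w * X w := by
  refine exists_susp (OkR T l l') Φ (fun u w h => h.symm) hi ht ↑T.sN ↑T.sS (fun h => T.s_ne (WithTop.coe_injective h))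
    (lkD T l) (fun u hu => (okR_sN hu).1) (fun u hu => (okR_sN hu).2) ?_ ?_ ?_ ?_ ⊤ ?_ ?_ ?_
  · rintro ⟨h1, -⟩
    rcases h1 with h1 | h1
    · exact T.not_lt.1 (WithTop.coe_lt_coe.1 h1)
    · exact T.not_lt.2 (WithTop.coe_lt_coe.1 h1)
  · rintro ⟨h1, -⟩
    exact h1.elim (lt_irrefl _) (lt_irrefl _)
  · rintro ⟨h1, -⟩
    exact h1.elim (lt_irrefl _) (lt_irrefl _)
  · intro u w h
    by_cases h1 : u = ↑T.sN
    · exact Or.inr (Or.inl h1)
    by_cases h2 : u = ↑T.sS
    · exact Or.inr (Or.inr h2)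
    exact Or.inl ⟨h.2.1, h1, h2⟩
  · exact fun h => h.2.1 rfl
  · exact fun h => h.2.2 rfl
  · exact fun f hf => lkD_conn hll f hf

/-- connectedness of the link -/
theorem link_conn {l l' : ℤ} (hll : l' = l - 1 ∨ l' = l + 1) (f : WithTop T.V → Prop)
    (hf : ∀ u w, OkR T l l' u w → (f u ↔ f w)) (u : WithTop T.V) (hu : OkD T l u) : f u ↔ f ⊤ := by
  by_cases h1 : u = ↑T.sN
  · rw [h1]
    exact (hf _ _ (okR_sN (l' := l') (top_lkD l)).1).symm
  by_cases h2 : u = ↑T.sS
  · rw [h2]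
    exact (hf _ _ (okR_sN (l' := l') (top_lkD l)).2).symm
  exact lkD_conn hll f (fun u _ w _ h => hf u w h) u ⟨hu, h1, h2⟩

/-! ## predecessors -/

/-- one step backwards -/
def pst {V : Type} [PartialOrder V] (x : RA V × ℤ) : WithTop V → RA V × ℤ
  | none => (x.1, x.2 - 1)
  | some v => (x.1 * (gn v)⁻¹, x.2)

section
variable {V : Type} [PartialOrder V]

theorem stp_pst (y : RA V × ℤ) (u : WithTop V) : stp (pst y u) u = y := by
  cases u with
  | top => exact Prod.ext rfl (sub_add_cancel y.2 1)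
  | coe v => exact Prod.ext (inv_mul_cancel_right y.1 (gn v)) rfl

theorem pst_stp (x : RA V × ℤ) (u : WithTop V) : pst (stp x u) u = x := by
  cases u with
  | top => exact Prod.ext rfl (add_sub_cancel_right x.2 1)
  | coe v => exact Prod.ext (mul_inv_cancel_right x.1 (gn v)) rfl

theorem stp_inj {x y : RA V × ℤ} {u : WithTop V} (h : stp x u = stp y u) : x = y := by
  rw [← pst_stp x u, h, pst_stp]

theorem chi_pst (y : RA V × ℤ) (u : WithTop V) : chi (pst y u) = chi y - 1 := by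
  have h := chi_stp (pst y u) u
  rw [stp_pst] at h
  omega

theorem stp_swap' (x : RA V × ℤ) {u w : WithTop V} (h : u < w ∨ w < u) : stp (stp x u) w = stp (stp x w) u :=
  h.elim (fun h => stp_comm x h) (fun h => (stp_comm x h).symm)

theorem pst_swap (y : RA V × ℤ) {u w : WithTop V} (h : u < w ∨ w < u) : pst (pst y u) w = pst (pst y w) u := by
  apply stp_inj (u := w)
  apply stp_inj (u := u)
  rw [stp_pst, stp_pst, stp_swap' _ h.symm, stp_pst, stp_pst]

theorem stp_pst_swap (y : RA V × ℤ) {u w : WithTop V} (h : u < w ∨ w < u) : stp (pst y u) w = pst (stp y w) u := by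
  apply stp_inj (u := u)
  rw [stp_pst, stp_swap' _ h.symm, stp_pst]

end

/-- a pair which is allowed at the top level is allowed at the bottom level -/
theorem okP_pst {y : RA T.V × ℤ} {u w : WithTop T.V} (h : OkR T y.2 (y.2 - 1) u w) :
    OkP T (pst (pst y w) u).2 u w := by
  obtain ⟨h1, h2, h3, h4, h5⟩ := h
  cases u with
  | top =>
    cases w with
    | top => exact absurd h1 (by simp)
    | coe w =>
      refine ⟨h1, okD_top _, h4 rfl, fun _ => ?_, fun h => absurd h WithTop.coe_ne_top⟩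
      change OkD T (y.2 - 1 + 1) _
      rw [sub_add_cancel]
      exact h3
  | coe u =>
    cases w with
    | top =>
      refine ⟨h1, h5 rfl, okD_top _, fun h => absurd h WithTop.coe_ne_top, fun _ => ?_⟩
      change OkD T (y.2 - 1 + 1) _
      rw [sub_add_cancel]
      exact h2
    | coe w => exact ⟨h1, h2, h3, fun h => absurd h WithTop.coe_ne_top, fun h => absurd h WithTop.coe_ne_top⟩

/-- and conversely -/
theorem okR_stp {x : RA T.V × ℤ} {u w : WithTop T.V} (h : OkP T x.2 u w) :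
    OkR T (stp (stp x u) w).2 ((stp (stp x u) w).2 - 1) u w := by
  obtain ⟨h1, h2, h3, h4, h5⟩ := h
  cases u with
  | top =>
    cases w with
    | top => exact absurd h1 (by simp)
    | coe w =>
      refine ⟨h1, okD_top _, h4 rfl, fun _ => ?_, fun h => absurd h WithTop.coe_ne_top⟩
      change OkD T (x.2 + 1 - 1) _
      rw [add_sub_cancel_right]
      exact h3
  | coe u =>
    cases w with
    | top =>
      refine ⟨h1, h5 rfl, okD_top _, fun h => absurd h WithTop.coe_ne_top, fun _ => ?_⟩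
      change OkD T (x.2 + 1 - 1) _
      rw [add_sub_cancel_right]
      exact h2
    | coe w => exact ⟨h1, h2, h3, fun h => absurd h WithTop.coe_ne_top, fun h => absurd h WithTop.coe_ne_top⟩

/-- triples, from the top -/
theorem okP_pst3 {y : RA T.V × ℤ} {u w z : WithTop T.V} (h1 : OkR T y.2 (y.2 - 1) u w) (h2 : OkR T y.2 (y.2 - 1) u z)
    (h3 : OkR T y.2 (y.2 - 1) w z) : OkP T (pst (pst (pst y z) w) u).2 u w := by
  cases z with
  | top =>
    have hu : u ≠ ⊤ := by
      rintro rfl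
      exact absurd h2.1 (by simp)
    have hw : w ≠ ⊤ := by
      rintro rfl
      exact absurd h3.1 (by simp)
    have h4 : (pst (pst (pst y ⊤) w) u).2 = y.2 - 1 := by
      cases u with
      | top => exact absurd rfl hu
      | coe u =>
        cases w with
        | top => exact absurd rfl hw
        | coe w => rfl
    rw [h4]
    exact ⟨h1.1, h2.2.2.2.2 rfl, h3.2.2.2.2 rfl, fun h => absurd h hu, fun h => absurd h hw⟩
  | coe z => exact okP_pst (y := pst y ↑z) h1

/-- triples, from the bottom -/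
theorem okP_stp3 {x : RA T.V × ℤ} {u w z : WithTop T.V} (h1 : OkP T x.2 u w) (h2 : OkP T x.2 u z) (h3 : OkP T x.2 w z) :
    OkP T (stp x u).2 w z := by
  cases u with
  | top =>
    have hz : z ≠ ⊤ := by
      rintro rfl
      exact absurd h2.1 (by simp)
    have hw : w ≠ ⊤ := by
      rintro rfl
      exact absurd h1.1 (by simp)
    exact ⟨h3.1, h1.2.2.2.1 rfl, h2.2.2.2.1 rfl, fun h => absurd h hw, fun h => absurd h hz⟩
  | coe u => exact h3

/-! ## extension of cocycles -/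

section
variable {H : Type} [Group H]

theorem grp_up {a b c p q r s m n : H} (h1 : a * q = c * m) (h2 : b * s = c * n) (h3 : a * p = b * r) :
    n⁻¹ * m * (q⁻¹ * p) = s⁻¹ * r := by
  have e1 : m = c⁻¹ * (a * q) := by rw [h1]; group
  have e2 : n = c⁻¹ * (b * s) := by rw [h2]; group
  have e3 : r = b⁻¹ * (a * p) := by rw [h3]; group
  rw [e1, e2, e3]
  group

theorem grp_down {p q r s m n A B C : H} (h1 : p * A = q * B) (h2 : r * A = s * C) (h3 : m * B = n * C) :
    p * r⁻¹ * (s * n⁻¹) = q * m⁻¹ := by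
  have e1 : p = q * B * A⁻¹ := by rw [← h1]; group
  have e2 : s = r * A * C⁻¹ := by rw [h2]; group
  have e3 : m = n * C * B⁻¹ := by rw [← h3]; group
  rw [e1, e2, e3]
  group

theorem step_up {α β : ℤ} (hαβ : α + 2 ≤ β) {f : (RA T.V × ℤ) × WithTop T.V → H} (hf : SQ α β f) :
    ∃ f' : (RA T.V × ℤ) × WithTop T.V → H, SQ α (β + 1) f' ∧ ∀ x u, chi x ≠ β → f' (x, u) = f (x, u) := by
  have key : ∀ y : RA T.V × ℤ, ∃ X : WithTop T.V → H, chi y = β + 1 → ∀ u w, OkR T y.2 (y.2 - 1) u w →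
      X u = ((f (pst (pst y w) u, w))⁻¹ * f (pst (pst y w) u, u)) * X w := by
    intro y
    by_cases hy : chi y = β + 1
    · obtain ⟨X, hX⟩ := link_susp (T := T) (l := y.2) (l' := y.2 - 1) (Or.inl rfl)
        (fun u w => (f (pst (pst y w) u, w))⁻¹ * f (pst (pst y w) u, u)) (by
          intro u w huw
          rw [pst_swap y huw.1]
          group) (by
          intro u w z h1 h2 h3
          set x := pst (pst (pst y z) w) u with hx
          have e1 : pst (pst y w) u = stp x z := by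
            rw [hx, pst_swap y h2.1.symm, pst_swap (pst y w) h3.1.symm, stp_pst]
          have e2 : pst (pst y z) w = stp x u := by
            rw [hx, stp_pst]
          have e3 : pst (pst y z) u = stp x w := by
            rw [hx, pst_swap (pst y z) h1.1.symm, stp_pst]
          have hc : chi x = β - 2 := by
            rw [hx, chi_pst, chi_pst, chi_pst, hy]
            ring
          have s1 := hf x u w (okP_pst3 h1 h3 h2) (by omega) (by omega)
          have s2 := hf x w z (by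
            have := okP_pst3 h2 h1.symm h3.symm
            rwa [pst_swap y h3.1, pst_swap (pst y z) h1.1] at this) (by omega) (by omega)
          have s3 := hf x u z (by
            have := okP_pst3 h3 h1 h2.symm
            rwa [pst_swap y h2.1] at this) (by omega) (by omega)
          rw [e1, e2, e3]
          exact grp_up s3 s2 s1)
      exact ⟨X, fun _ => hX⟩
    · exact ⟨1, fun h => absurd h hy⟩
  choose X hX using key
  refine ⟨fun q => if chi q.1 = β then X (stp q.1 q.2) q.2 else f q, ?_, fun x u h => if_neg h⟩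
  intro x u w huw h1 h2
  dsimp only
  rw [chi_stp, chi_stp]
  by_cases h3 : chi x + 2 ≤ β
  · rw [if_neg (by omega), if_neg (by omega), if_neg (by omega), if_neg (by omega)]
    exact hf x u w huw h1 h3
  · rw [if_neg (by omega), if_pos (by omega), if_neg (by omega), if_pos (by omega)]
    have h4 := hX (stp (stp x u) w) (by rw [chi_stp, chi_stp]; omega) u w (okR_stp huw)
    have h5 : stp (stp x w) u = stp (stp x u) w := stp_swap x huw.1.symm
    rw [h5, h4, pst_stp, pst_stp]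
    group

theorem step_down {α β : ℤ} (hαβ : α + 2 ≤ β) {f : (RA T.V × ℤ) × WithTop T.V → H} (hf : SQ α β f) :
    ∃ f' : (RA T.V × ℤ) × WithTop T.V → H, SQ (α - 1) β f' ∧ ∀ x u, chi x ≠ α - 1 → f' (x, u) = f (x, u) := by
  have key : ∀ y : RA T.V × ℤ, ∃ X : WithTop T.V → H, chi y = α - 1 → ∀ u w, OkP T y.2 u w →
      X u = (f (stp y u, w) * (f (stp y w, u))⁻¹) * X w := by
    intro y
    by_cases hy : chi y = α - 1
    · obtain ⟨X, hX⟩ := link_susp (T := T) (l := y.2) (l' := y.2 + 1) (Or.inr rfl)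
        (fun u w => f (stp y u, w) * (f (stp y w, u))⁻¹) (by
          intro u w _
          group) (by
          intro u w z h1 h2 h3
          have hc : ∀ v : WithTop T.V, chi (stp y v) = α := fun v => by rw [chi_stp, hy]; ring
          have s1 := hf (stp y u) w z (okP_stp3 h1 h3 h2) (by rw [hc]) (by rw [hc]; omega)
          have s2 := hf (stp y w) u z (okP_stp3 h1.symm h2 h3) (by rw [hc]) (by rw [hc]; omega)
          have s3 := hf (stp y z) u w (okP_stp3 h3.symm h2.symm h1) (by rw [hc]) (by rw [hc]; omega)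
          rw [stp_swap y h1.1.symm] at s2
          rw [stp_swap y h3.1.symm, stp_swap y h2.1.symm] at s3
          exact grp_down s1 s2 s3)
      exact ⟨X, fun _ => hX⟩
    · exact ⟨1, fun h => absurd h hy⟩
  choose X hX using key
  refine ⟨fun q => if chi q.1 = α - 1 then (X q.1 q.2)⁻¹ else f q, ?_, fun x u h => if_neg h⟩
  intro x u w huw h1 h2
  dsimp only
  rw [chi_stp, chi_stp]
  by_cases h3 : α ≤ chi x
  · rw [if_neg (by omega), if_neg (by omega), if_neg (by omega), if_neg (by omega)]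
    exact hf x u w huw h3 h2
  · rw [if_pos (by omega), if_neg (by omega), if_pos (by omega), if_neg (by omega)]
    rw [hX x (by omega) u w huw]
    group

end

theorem slc_sc' (α β : ℤ) (h : α + 4 ≤ β) : (Slc T α β).SC := by
  intro H _ f hf
  let g : (RA T.V × ℤ) × WithTop T.V → H := fun q =>
    if h : OkD T q.1.2 q.2 ∧ α ≤ chi q.1 ∧ chi q.1 + 1 ≤ β then f ⟨mkE T q.1 q.2 h.1, by
      have := h.2
      exact ⟨this.1, by push_cast; exact this.2⟩⟩ else 1
  have hg : ∀ x u (h1 : OkD T x.2 u) (h2 : α ≤ chi x) (h3 : chi x + 1 ≤ β), g (x, u) = f ⟨mkE T x u h1, ⟨h2, by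
      push_cast; exact h3⟩⟩ := fun x u h1 h2 h3 => dif_pos ⟨h1, h2, h3⟩
  have key : ∀ (x : RA T.V × ℤ) (u w : WithTop T.V), u < w → OkP T x.2 u w → α ≤ chi x → chi x + 2 ≤ β →
      g (x, u) * g (stp x u, w) = g (x, w) * g (stp x w, u) := by
    intro x u w huw h0 h2 h3
    have h1 := hf ⟨mkS T x u w huw h0, ⟨h2, by push_cast; exact h3⟩⟩
    rw [hg x u h0.2.1 h2 (by omega), hg x w h0.2.2.1 h2 (by omega),
      hg _ _ (okD_stp h0) (by rw [chi_stp]; omega) (by rw [chi_stp]; omega),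
      hg _ _ (okD_stp h0.symm) (by rw [chi_stp]; omega) (by rw [chi_stp]; omega)]
    convert h1 using 3
    · exact (Subtype.ext (fa_mkS_1f x u w huw h0).symm)
    · exact (Subtype.ext (fa_mkS_0t x u w huw h0).symm)
    · exact (Subtype.ext (fa_mkS_0f x u w huw h0).symm)
    · exact (Subtype.ext (fa_mkS_1t x u w huw h0).symm)
  have hSQ : SQ α β g := by
    intro x u w h1 h2 h3
    rcases h1.1 with h4 | h4
    · exact key x u w h4 h1 h2 h3
    · exact (key x w u h4 h1.symm h2 h3).symm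
  obtain ⟨g', hg1, hg2⟩ := exists_limit (X := (RA T.V × ℤ) × WithTop T.V) (Y := H) (fun q => chi q.1) 1
    (fun α β f => SQ α β f) (by
      intro α β e e' h1 h2 x u w h3 h4 h5
      have h6 := h2 x u w h3 h4 h5
      rw [h1 (x, u) h4 (by dsimp only; omega), h1 (x, w) h4 (by dsimp only; omega),
        h1 (stp x u, w) (by dsimp only; rw [chi_stp]; omega) (by dsimp only; rw [chi_stp]; omega),
        h1 (stp x w, u) (by dsimp only; rw [chi_stp]; omega) (by dsimp only; rw [chi_stp]; omega)] at h6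
      exact h6) (by
      intro α β α' β' e h1 h2 h3 x u w h4 h5 h6
      exact h3 x u w h4 (by omega) (by omega)) (by
      intro α β e h1 h2
      obtain ⟨f1, h3, h4⟩ := step_up (by omega) h2
      obtain ⟨f2, h5, h6⟩ := step_down (by omega) h3
      refine ⟨f2, h5, ?_⟩
      rintro ⟨x, u⟩ h7 h8
      dsimp only at h7 h8
      rw [h6 x u (by omega), h4 x u (by omega)]) α β h g hSQ
  obtain ⟨p, hp⟩ := sq_pot g' hg1
  refine ⟨fun c => p c.1.1.1, fun c => ?_⟩
  obtain ⟨c, hc1, hc2⟩ := c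
  obtain ⟨x, u, hu, rfl⟩ := eq_mkE c
  have hc1' : α ≤ chi x := hc1
  have hc2' : chi x + 1 ≤ β := by
    have : chi x + ((1 : ℕ) : ℤ) ≤ β := hc2
    push_cast at this
    exact this
  rw [← hg x u hu hc1' hc2', ← hg2 (x, u) hc1' hc2']
  exact hp x u hu

variable (T) in
/-- invariance along the edges of a slice -/
def IV (α β : ℤ) (f : RA T.V × ℤ → Prop) : Prop :=
  ∀ (x : RA T.V × ℤ) (u : WithTop T.V), OkD T x.2 u → α ≤ chi x → chi x + 1 ≤ β → (f x ↔ f (stp x u))

theorem iv_up {α β : ℤ} (hαβ : α + 1 ≤ β) {f : RA T.V × ℤ → Prop} (hf : IV T α β f) :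
    ∃ f' : RA T.V × ℤ → Prop, IV T α (β + 1) f' ∧ ∀ x, chi x ≠ β + 1 → f' x = f x := by
  refine ⟨fun y => if chi y = β + 1 then f (pst y ⊤) else f y, ?_, fun x h => if_neg h⟩
  intro x u hu h1 h2
  dsimp only
  rw [chi_stp]
  by_cases h3 : chi x + 1 ≤ β
  · rw [if_neg (by omega), if_neg (by omega)]
    exact hf x u hu h1 h3
  · rw [if_neg (by omega), if_pos (by omega)]
    have hc : chi x = β := by omega
    set y := stp x u with hy
    have h4 : x = pst y u := by rw [hy, pst_stp]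
    have h5 : OkD T y.2 u := by
      cases u with
      | top => exact okD_top _
      | coe v => exact hu
    have h6 := link_conn (T := T) (l := y.2) (l' := y.2 - 1) (Or.inl rfl) (fun u => f (pst y u)) (by
      intro u w huw
      have h7 := okP_pst huw
      have h8 : chi (pst (pst y w) u) = β - 1 := by
        rw [chi_pst, chi_pst, hy, chi_stp, hc]
        ring
      have h9 := hf _ u h7.2.1 (by omega) (by omega)
      have h10 := hf _ w h7.2.2.1 (by omega) (by omega)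
      rw [stp_pst] at h9
      rw [pst_swap y huw.1.symm, stp_pst] at h10
      rw [pst_swap y huw.1.symm] at h9
      exact h10.symm.trans h9) u h5
    rw [h4]
    exact h6

theorem iv_down {α β : ℤ} (hαβ : α + 1 ≤ β) {f : RA T.V × ℤ → Prop} (hf : IV T α β f) :
    ∃ f' : RA T.V × ℤ → Prop, IV T (α - 1) β f' ∧ ∀ x, chi x ≠ α - 1 → f' x = f x := by
  refine ⟨fun y => if chi y = α - 1 then f (stp y ⊤) else f y, ?_, fun x h => if_neg h⟩
  intro x u hu h1 h2
  dsimp only
  rw [chi_stp]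
  by_cases h3 : α ≤ chi x
  · rw [if_neg (by omega), if_neg (by omega)]
    exact hf x u hu h3 h2
  · rw [if_pos (by omega), if_neg (by omega)]
    have hc : chi x = α - 1 := by omega
    have h6 := link_conn (T := T) (l := x.2) (l' := x.2 + 1) (Or.inr rfl) (fun u => f (stp x u)) (by
      intro u w huw
      have h9 := hf (stp x u) w (okD_stp huw) (by rw [chi_stp]; omega) (by rw [chi_stp]; omega)
      have h10 := hf (stp x w) u (okD_stp (OkR.symm huw)) (by rw [chi_stp]; omega) (by rw [chi_stp]; omega)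
      rw [stp_swap x huw.1.symm] at h10
      exact h9.trans h10.symm) u hu
    exact h6.symm

theorem slc_conn' (α β : ℤ) (h : α + 4 ≤ β) : (Slc T α β).Conn := by
  let vt : RA T.V × ℤ → (Zed T).cub 0 := fun x => (show {c : (RA T.V × ℤ) × Chn (WithTop T.V) 0 // Alw T.M c.1.2 c.2} from
    ⟨(x, ⟨fun i => i.elim0, fun i => i.elim0⟩), fun i => i.elim0⟩)
  have h0 : ∀ c : (Zed T).cub 0, c = vt c.1.1 := by
    intro c
    apply Subtype.ext
    exact Prod.ext rfl (Subtype.ext (funext fun i => i.elim0))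
  refine ⟨⟨⟨vt (1, α), ?_⟩⟩, ?_⟩
  · have h1 : chi ((1, α) : RA T.V × ℤ) = α := by
      unfold chi
      rw [map_one, toAdd_one, zero_add]
    change α ≤ chi ((1, α) : RA T.V × ℤ) ∧ chi ((1, α) : RA T.V × ℤ) + ((0 : ℕ) : ℤ) ≤ β
    rw [h1]
    constructor
    · exact le_rfl
    · push_cast
      omega
  intro f hf
  have hin : ∀ x : RA T.V × ℤ, α ≤ chi x → chi x ≤ β → α ≤ chi (vt x).1.1 ∧ chi (vt x).1.1 + ((0 : ℕ) : ℤ) ≤ β := by
    intro x h1 h2
    exact ⟨h1, by push_cast; change chi x + 0 ≤ β; omega⟩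
  let g : RA T.V × ℤ → Prop := fun x => ∃ (h1 : α ≤ chi x) (h2 : chi x ≤ β), f ⟨vt x, hin x h1 h2⟩
  have hg : ∀ x (h1 : α ≤ chi x) (h2 : chi x ≤ β), g x ↔ f ⟨vt x, hin x h1 h2⟩ :=
    fun x h1 h2 => ⟨fun ⟨_, _, h3⟩ => h3, fun h3 => ⟨h1, h2, h3⟩⟩
  have hIV : IV T α β g := by
    intro x u hu h1 h2
    rw [hg x h1 (by omega), hg (stp x u) (by rw [chi_stp]; omega) (by rw [chi_stp]; omega)]
    have h3 := hf ⟨mkE T x u hu, ⟨h1, by push_cast; exact h2⟩⟩
    have e1 : (Slc T α β).fa 0 0 false ⟨mkE T x u hu, ⟨h1, by push_cast; exact h2⟩⟩ = ⟨vt x, hin x h1 (by omega)⟩ :=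
      Subtype.ext (h0 _)
    have e2 : (Slc T α β).fa 0 0 true ⟨mkE T x u hu, ⟨h1, by push_cast; exact h2⟩⟩ =
        ⟨vt (stp x u), hin (stp x u) (by rw [chi_stp]; omega) (by rw [chi_stp]; omega)⟩ :=
      Subtype.ext (h0 _)
    rw [e1, e2] at h3
    exact h3
  obtain ⟨g', hg1, hg2⟩ := exists_limit (X := RA T.V × ℤ) (Y := Prop) (fun x => chi x) 0
    (fun α β f => IV T α β f) (by
      intro α β e e' h1 h2 x u hu h3 h4
      have h6 := h2 x u hu h3 h4
      rw [h1 x h3 (by omega), h1 (stp x u) (by rw [chi_stp]; omega) (by rw [chi_stp]; omega)] at h6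
      exact h6) (by
      intro α β α' β' e h1 h2 h3 x u hu h4 h5
      exact h3 x u hu (by omega) (by omega)) (by
      intro α β e h1 h2
      obtain ⟨f1, h3, h4⟩ := iv_up (by omega) h2
      obtain ⟨f2, h5, h6⟩ := iv_down (by omega) h3
      refine ⟨f2, h5, ?_⟩
      intro x h7 h8
      rw [h6 x (by omega), h4 x (by omega)]) α β h g hIV
  have hc := (zed_conn T).2 (fun c => g' c.1.1) (by
    intro c
    obtain ⟨x, u, hu, rfl⟩ := eq_mkE c
    exact hg1 (chi x) (chi x + 1) x u hu le_rfl le_rfl)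
  rintro ⟨c, hc1, hc2⟩ ⟨d, hd1, hd2⟩
  have hc2' : chi c.1.1 ≤ β := by
    push_cast at hc2
    omega
  have hd2' : chi d.1.1 ≤ β := by
    push_cast at hd2
    omega
  have e1 : (⟨c, hc1, hc2⟩ : (Slc T α β).cub 0) = ⟨vt c.1.1, hin _ hc1 hc2'⟩ := Subtype.ext (h0 c)
  have e2 : (⟨d, hd1, hd2⟩ : (Slc T α β).cub 0) = ⟨vt d.1.1, hin _ hd1 hd2'⟩ := Subtype.ext (h0 d)
  rw [e1, e2, ← hg _ hc1 hc2', ← hg _ hd1 hd2', ← hg2 c.1.1 hc1 (by omega), ← hg2 d.1.1 hd1 (by omega)]
  exact hc c d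

variable (T) in
theorem slc_conn (α β : ℤ) (h : α + 4 ≤ β) : (Slc T α β).Conn := slc_conn' α β h

variable (T) in
theorem slc_sc (α β : ℤ) (h : α + 4 ≤ β) : (Slc T α β).SC := slc_sc' α β h

end Pool.Agent.H59.FS
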