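import Pool.Agent.H59.FS.Slc

set_option autoImplicit false

/-!
# MP_5c3080_gt, row [H59 FS SlF]: finite stabilizers and finitely many orbits of `GG T` on the slices

Stabilizers: let `c` be a cube with bottom vertex `(b, l)`. If `g = (a, (p, i))` fixes `c` then `T.vact g (b, l) = (b, l)`, so
`i = 1` (`toAdd i + l = l`) and `a = b * (raM (T.aq (p, 1)) b)⁻¹`: `g` is determined by `p` (`Finite.of_injective` into `P`;
extensionality of `SemidirectProduct`).
Orbits: `(b, l)` with `chi (b, l) = h` is `T.vact g (1, h)` for `g = (b, (1, l - h))`, which is in `GG T` since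
`chA b * ofAdd (l - h) = 1`. So every cube is `g • d` with `d = ((1, h), s)`, `α ≤ h ≤ β - n`, `s` an allowed chain at
level `h`: finitely many: the chains of `WithTop V` with all elements in the finite set `{⊤} ∪ M h` (`M h` is finite:
`v ↦ t^(-h) v` maps it injectively into `M 0` (`T.mem_aq` with `q = (1, ofAdd h)`, `T.aq_apply`)). Finiteness of the type of
these cubes: `Set.Finite` of functions `Fin n → WithTop V` with values in a finite set (`Set.Finite.pi`,
`Set.finite_pi`...), `h` in `Finset.Icc α β`.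
-/

namespace Pool.Agent.H59.FS

variable {P : Type} [Group P] [Fintype P] {r : ℕ} {e : Fin r → Fin r → P → ℤ} (T : Tower P r e)

theorem Tower.M_fin (l : ℤ) : (T.M l).Finite := by
  have h : T.M l = T.aq ((1 : P), Multiplicative.ofAdd (-l)) ⁻¹' T.M 0 := by
    ext v
    have h1 := T.mem_aq ((1 : P), Multiplicative.ofAdd (-l)) l v
    have h2 : Multiplicative.toAdd ((1 : P), Multiplicative.ofAdd (-l)).2 + l = 0 := by
      rw [toAdd_ofAdd]
      ring
    rw [h2] at h1
    exact h1.symm
  rw [h]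
  exact T.fin.preimage (T.aq ((1 : P), Multiplicative.ofAdd (-l))).injective.injOn

theorem slc_fin (α β : ℤ) : (Slc T α β).Fin' (GG T) := by
  refine ⟨fun n c => ?_, fun n => ?_⟩
  · refine Finite.of_injective (β := P) (fun g : MulAction.stabilizer (GG T) c => g.1.1.right.1) ?_
    have key : ∀ g : GG T, g • c = c → g.1.right.2 = 1 ∧
        g.1.left = c.1.1.1.1 * (raM (T.aq g.1.right) c.1.1.1.1)⁻¹ := by
      intro g hg
      have h1 : T.vact g.1 c.1.1.1 = c.1.1.1 := by
        have h2 : (g • c).1.1.1 = c.1.1.1 := by rw [hg]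
        exact h2
      have h3 : Multiplicative.toAdd g.1.right.2 + c.1.1.1.2 = c.1.1.1.2 := congrArg Prod.snd h1
      have h4 : g.1.left * raM (T.aq g.1.right) c.1.1.1.1 = c.1.1.1.1 := congrArg Prod.fst h1
      refine ⟨?_, eq_mul_inv_of_mul_eq h4⟩
      have h5 : Multiplicative.toAdd g.1.right.2 = 0 := by omega
      exact toAdd_eq_zero.1 h5
    rintro ⟨g, hg⟩ ⟨h, hh⟩ hgh
    have hgh' : g.1.right.1 = h.1.right.1 := hgh
    obtain ⟨g1, g2⟩ := key g hg
    obtain ⟨h1, h2⟩ := key h hh
    have hr : g.1.right = h.1.right := Prod.ext hgh' (g1.trans h1.symm)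
    apply Subtype.ext
    apply Subtype.ext
    refine SemidirectProduct.ext ?_ hr
    rw [g2, h2, hr]
  · have hfin : {d : (Slc T α β).cub n | d.1.1.1.1 = 1}.Finite := by
      have hF : (⋃ h ∈ Set.Icc α β, (fun f : Fin n → WithTop T.V => (h, f)) ''
          {f | ∀ i, f i ∈ insert (⊤ : WithTop T.V) ((fun v : T.V => (v : WithTop T.V)) '' T.M h)}).Finite := by
        refine Set.Finite.biUnion (Set.finite_Icc α β) fun h _ => Set.Finite.image _ ?_
        exact Set.Finite.pi' fun _ => Set.Finite.insert _ ((T.M_fin h).image _)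
      refine Set.Finite.of_finite_image (f := fun d : (Slc T α β).cub n => (d.1.1.1.2, d.1.1.2.1))
        (hF.subset ?_) ?_
      · rintro _ ⟨d, hd, rfl⟩
        have hd' : d.1.1.1.1 = 1 := hd
        have hchi : chi d.1.1.1 = d.1.1.1.2 := by
          unfold chi
          rw [hd', map_one, toAdd_one, zero_add]
        have hb := d.2
        rw [hchi] at hb
        refine Set.mem_biUnion (x := d.1.1.1.2) ⟨hb.1, by omega⟩ ⟨d.1.1.2.1, ?_, rfl⟩
        intro i
        rcases hs : d.1.1.2.1 i with _ | v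
        · exact Set.mem_insert _ _
        · exact Set.mem_insert_of_mem _ ⟨v, (d.1.2 i v hs).1, rfl⟩
      · intro d hd d' hd' hdd
        have hd1 : d.1.1.1.1 = 1 := hd
        have hd2 : d'.1.1.1.1 = 1 := hd'
        have e1 : d.1.1.1.2 = d'.1.1.1.2 := congrArg Prod.fst hdd
        have e2 : d.1.1.2.1 = d'.1.1.2.1 := congrArg Prod.snd hdd
        apply Subtype.ext
        apply Subtype.ext
        exact Prod.ext (Prod.ext (hd1.trans hd2.symm) e1) (Subtype.ext e2)
    refine ⟨hfin.toFinset, fun c => ?_⟩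
    have hg : T.ch (⟨c.1.1.1.1, (1, Multiplicative.ofAdd (c.1.1.1.2 - chi c.1.1.1))⟩ : Gam T) = 1 := by
      change chA c.1.1.1.1 * Multiplicative.ofAdd (c.1.1.1.2 - chi c.1.1.1) = 1
      rw [← toAdd_eq_zero, toAdd_mul, toAdd_ofAdd]
      unfold chi
      ring
    let g : GG T := ⟨⟨c.1.1.1.1, (1, Multiplicative.ofAdd (c.1.1.1.2 - chi c.1.1.1))⟩, hg⟩
    refine ⟨g, g⁻¹ • c, ?_, (smul_inv_smul g c).symm⟩
    rw [Set.Finite.mem_toFinset]
    have h1 : T.vact g.1 (1, chi c.1.1.1) = c.1.1.1 := by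
      refine Prod.ext ?_ ?_
      · change c.1.1.1.1 * raM _ 1 = c.1.1.1.1
        rw [map_one, mul_one]
      · change Multiplicative.toAdd (Multiplicative.ofAdd (c.1.1.1.2 - chi c.1.1.1)) + chi c.1.1.1 = c.1.1.1.2
        rw [toAdd_ofAdd]
        ring
    have h2 : T.vact (g⁻¹).1 c.1.1.1 = (1, chi c.1.1.1) := by
      conv_lhs => rw [← h1]
      rw [← T.vact_mul]
      have h3 : (g⁻¹).1 * g.1 = 1 := inv_mul_cancel g.1
      rw [h3, T.vact_one]
    exact congrArg Prod.fst h2

end Pool.Agent.H59.FS
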