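import Pool.Agent.H59.FS.Slc

set_option autoImplicit false

/-!
# MP_5c3080_gt, row [H59 FS SlL]: the slices are locally finite of dimension at most 4

`dim`: a cube of dimension `n > 4` has an allowed chain `s` of `WithTop V` with `n ≥ 5` elements. If `⊤` is not in `s` then
`s 0, ..., s 4` are in `V`: against `T.dim`. If `⊤` is in `s` it is the last element, the first four elements of `s` are
in `M l ∩ M (l + 1)`, apply `t^(-(l+1))` (`T.mem_aq` with `q = (1, ofAdd (-(l+1)))`, `T.aq_apply`): a chain with four elements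
of `M (-1) ∩ M 0`, against `T.dimW`.
`LocFin`: let `c = ((b, l), s)` be an `n`-cube and `d = ((b', l'), s')` an `(n+1)`-cube with face `c`: `s = s'.del i`, and
`(b', l') = (b, l)` or `stp (b', l') (s' i) = (b, l)`; so `d` is determined by `i`, the face (`Bool`) and `s' i`
(`Fin.insertNth`; `stp` is injective in the vertex). `s' i` is `⊤` or an element of `M l'`, `l' ∈ {l, l - 1}`, finite sets
(`M_fin'` below, as in SlF.lean: `v ↦ t^(-l) v` is injective into `M 0`).
-/

namespace Pool.Agent.H59.FS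

variable {P : Type} [Group P] [Fintype P] {r : ℕ} {e : Fin r → Fin r → P → ℤ} (T : Tower P r e)

theorem M_fin' (l : ℤ) : (T.M l).Finite := by
  refine Set.Finite.subset (T.fin.preimage
    (T.aq ((1 : P), Multiplicative.ofAdd (-l))).injective.injOn) fun v hv => ?_
  have h := (T.mem_aq ((1 : P), Multiplicative.ofAdd (-l)) l v).2 hv
  change T.aq ((1 : P), Multiplicative.ofAdd (-l)) v ∈ T.M (-l + l) at h
  rw [neg_add_cancel] at h
  exact h

/-- the first elements of a chain without `⊤` -/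
private theorem sl_low {V : Type} [PartialOrder V] {n m : ℕ} (hm : m ≤ n) (s : Chn (WithTop V) n)
    (h : ∀ i : Fin m, s.1 (Fin.castLE hm i) ≠ ⊤) :
    ∃ v : Fin m → V, StrictMono v ∧ ∀ i, s.1 (Fin.castLE hm i) = ((v i : V) : WithTop V) := by
  have h1 : ∀ i : Fin m, ∃ v : V, s.1 (Fin.castLE hm i) = (v : WithTop V) := by
    intro i
    obtain ⟨v, hv⟩ := WithTop.ne_top_iff_exists.1 (h i)
    exact ⟨v, hv.symm⟩
  choose v hv using h1
  refine ⟨v, fun i j hij => ?_, hv⟩
  have h2 : s.1 (Fin.castLE hm i) < s.1 (Fin.castLE hm j) := s.2 hij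
  rw [hv, hv] at h2
  exact WithTop.coe_lt_coe.1 h2

theorem slc_dim (α β : ℤ) (n : ℕ) (h : 4 < n) : IsEmpty ((Slc T α β).cub n) := by
  constructor
  intro c
  have hc : Alw T.M c.1.1.1.2 c.1.1.2 := c.1.2
  obtain ⟨l, hl⟩ : ∃ l : ℤ, l = c.1.1.1.2 := ⟨_, rfl⟩
  obtain ⟨s, hs⟩ : ∃ s : Chn (WithTop T.V) n, s = c.1.1.2 := ⟨_, rfl⟩
  rw [← hl, ← hs] at hc
  by_cases htop : ∃ j, s.1 j = ⊤
  · -- the first four elements
    have hm : 4 ≤ n := by omega
    have h1 : ∀ i : Fin 4, s.1 (Fin.castLE hm i) ≠ ⊤ := by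
      intro i hi
      have hi4 := i.2
      have h2 : s.1 (Fin.castLE hm i) < s.1 ⟨(i : ℕ) + 1, by omega⟩ := by
        apply s.2
        rw [Fin.lt_def]
        exact Nat.lt_succ_self _
      rw [hi] at h2
      exact not_top_lt h2
    obtain ⟨v, hv, hv1⟩ := sl_low hm s h1
    obtain ⟨f, hf⟩ : ∃ f : T.V ≃o T.V, f = T.aq ((1 : P), Multiplicative.ofAdd (-(l + 1))) :=
      ⟨_, rfl⟩
    obtain ⟨i, hi⟩ := T.dimW ⟨f ∘ v, f.strictMono.comp hv⟩
    apply hi
    obtain ⟨h3, h4⟩ := hc (Fin.castLE hm i) (v i) (hv1 i)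
    have h5 := (T.mem_aq ((1 : P), Multiplicative.ofAdd (-(l + 1))) l (v i)).2 h3
    have h6 := (T.mem_aq ((1 : P), Multiplicative.ofAdd (-(l + 1))) (l + 1) (v i)).2 (h4 htop)
    change T.aq ((1 : P), Multiplicative.ofAdd (-(l + 1))) (v i) ∈ T.M (-(l + 1) + l) at h5
    change T.aq ((1 : P), Multiplicative.ofAdd (-(l + 1))) (v i) ∈ T.M (-(l + 1) + (l + 1)) at h6
    rw [← hf] at h5 h6
    rw [show -(l + 1) + l = -1 by ring] at h5
    rw [neg_add_cancel] at h6
    exact ⟨h5, h6⟩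
  · have hm : 5 ≤ n := by omega
    obtain ⟨v, hv, -⟩ := sl_low hm s (fun i hi => htop ⟨_, hi⟩)
    exact T.dim.false ⟨v, hv⟩

private theorem sl_del {V : Type} [PartialOrder V] {n : ℕ} {s s' : Chn V (n + 1)} {i : Fin (n + 1)}
    (h : s.del i = s'.del i) (h' : s.1 i = s'.1 i) : s = s' := by
  apply Subtype.ext
  funext j
  rcases Fin.eq_self_or_eq_succAbove i j with hj | ⟨k, hj⟩
  · rw [hj]
    exact h'
  · rw [hj]
    exact congrArg (fun z : Chn V n => z.1 k) h

private theorem sl_stp {V : Type} [PartialOrder V] {x y : RA V × ℤ} {u : WithTop V}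
    (h : stp x u = stp y u) : x = y := by
  cases u with
  | top =>
    have h1 : (x.1, x.2 + 1) = (y.1, y.2 + 1) := h
    have h2 := congrArg Prod.fst h1
    have h3 := congrArg Prod.snd h1
    refine Prod.ext h2 ?_
    have h4 : x.2 + 1 = y.2 + 1 := h3
    omega
  | coe v =>
    have h1 : (x.1 * gn v, x.2) = (y.1 * gn v, y.2) := h
    have h2 := congrArg Prod.fst h1
    have h3 := congrArg Prod.snd h1
    exact Prod.ext (mul_right_cancel h2) h3

theorem slc_locFin (α β : ℤ) : (Slc T α β).LocFin := by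
  intro n c
  have h1 : {d : (Slc T α β).cub (n + 1) | ∃ (i : Fin (n + 1)) (e : Bool),
      (Slc T α β).fa n i e d = c} =
      ⋃ i : Fin (n + 1), ⋃ b : Bool, {d | (Slc T α β).fa n i b d = c} := by
    ext d
    simp only [Set.mem_iUnion]
    exact Iff.rfl
  rw [h1]
  refine Set.finite_iUnion fun i => Set.finite_iUnion fun b => ?_
  have hF : ∀ d : (Slc T α β).cub (n + 1), (Slc T α β).fa n i false d = c →
      d.1.1.1 = c.1.1.1 ∧ d.1.1.2.del i = c.1.1.2 := by
    intro d hd
    have h2 : ((Slc T α β).fa n i false d).1.1 = c.1.1 := by rw [hd]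
    exact ⟨congrArg Prod.fst h2, congrArg Prod.snd h2⟩
  have hT : ∀ d : (Slc T α β).cub (n + 1), (Slc T α β).fa n i true d = c →
      stp d.1.1.1 (d.1.1.2.1 i) = c.1.1.1 ∧ d.1.1.2.del i = c.1.1.2 := by
    intro d hd
    have h2 : ((Slc T α β).fa n i true d).1.1 = c.1.1 := by rw [hd]
    exact ⟨congrArg Prod.fst h2, congrArg Prod.snd h2⟩
  refine Set.Finite.of_injOn (f := fun d : (Slc T α β).cub (n + 1) => d.1.1.2.1 i)
    (t := {⊤} ∪ (fun v : T.V => (v : WithTop T.V)) '' T.M c.1.1.1.2) ?_ ?_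
    ((Set.finite_singleton _).union ((M_fin' T _).image _))
  · intro d hd
    have hd' : (Slc T α β).fa n i b d = c := hd
    change d.1.1.2.1 i ∈ _
    rcases hu : d.1.1.2.1 i with _ | v
    · exact Or.inl rfl
    · refine Or.inr ⟨v, ?_, rfl⟩
      have h2 : v ∈ T.M d.1.1.1.2 := (d.1.2 i v hu).1
      cases b with
      | false => rwa [(hF d hd').1] at h2
      | true =>
        have h3 := (hT d hd').1
        rw [hu] at h3
        have h4 := congrArg Prod.snd h3
        change d.1.1.1.2 = c.1.1.1.2 at h4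
        rwa [h4] at h2
  · intro d hd d' hd' hdd
    have h2 : (Slc T α β).fa n i b d = c := hd
    have h2' : (Slc T α β).fa n i b d' = c := hd'
    have h3 : d.1.1.2.1 i = d'.1.1.2.1 i := hdd
    cases b with
    | false =>
      obtain ⟨a1, a2⟩ := hF d h2
      obtain ⟨b1, b2⟩ := hF d' h2'
      exact Subtype.ext (Subtype.ext (Prod.ext (a1.trans b1.symm) (sl_del (a2.trans b2.symm) h3)))
    | true =>
      obtain ⟨a1, a2⟩ := hT d h2
      obtain ⟨b1, b2⟩ := hT d' h2'
      rw [h3] at a1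
      exact Subtype.ext (Subtype.ext (Prod.ext (sl_stp (a1.trans b1.symm))
        (sl_del (a2.trans b2.symm) h3)))

end Pool.Agent.H59.FS
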