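import Pool.Agent.H59.FS.Slc
import Pool.Agent.H3.RA.Tf

set_option autoImplicit false

/-!
# MP_5c3080_gt, row [H59 FS SlT]: `GG T` is countable, the kernel of `T.π` is torsion-free

Countable: `RA V` is a quotient of the free group on the countable type `V`, `Gam T` is a product as a set.
`ch_tf`: let `g = (a, (1, i))`, `g ^ n = 1`, `n > 0`. The image in `Multiplicative ℤ` is `i ^ n = 1`, so `i = 1`; so `g = inl a`
(`SemidirectProduct.inl`), `inl (a ^ n) = 1`, `a ^ n = 1`, `a = 1` by `Pool.Agent.H3.RA.torsion_free` (the graph `adjP V` is
symmetric and irreflexive).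
-/

namespace Pool.Agent.H59.FS

open Pool.Agent.H3.RA

variable {P : Type} [Group P] [Fintype P] {r : ℕ} {e : Fin r → Fin r → P → ℤ} (T : Tower P r e)

theorem adjP_isG (V : Type) [PartialOrder V] : IsG (adjP V) :=
  ⟨fun _ _ h => h.symm, fun v h => h.elim (lt_irrefl v) (lt_irrefl v)⟩

theorem gg_countable : Countable (GG T) := by
  have h0 : Countable T.V := T.cnt
  have h1 : Countable (FreeGroup T.V) := by
    have : Function.Surjective (FreeGroup.mk : List (T.V × Bool) → FreeGroup T.V) := Quot.mk_surjective
    exact this.countable
  have h2 : Countable (RA T.V) := by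
    have : Function.Surjective (PresentedGroup.mk (rels (adjP T.V))) := PresentedGroup.mk_surjective _
    exact this.countable
  have h3 : Countable P := Finite.to_countable
  have h4 : Countable (Multiplicative ℤ) := inferInstanceAs (Countable ℤ)
  have h5 : Countable (Gam T) := by
    have : Function.Injective (fun g : Gam T => (g.left, g.right)) := by
      intro g h hgh
      exact SemidirectProduct.ext (congrArg Prod.fst hgh) (congrArg Prod.snd hgh)
    exact this.countable
  exact Subtype.countable

theorem gg_tf (g : GG T) (h : T.π g = 1) (n : ℕ) (hn : 0 < n) (hg : g ^ n = 1) : g = 1 := by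
  have h1 : g.1.right.1 = 1 := h
  have hg1 : g.1 ^ n = 1 := congrArg Subtype.val hg
  have h2 : g.1.right ^ n = 1 := by
    have h3 := congrArg (SemidirectProduct.rightHom) hg1
    rw [map_pow, map_one] at h3
    exact h3
  have h4 : g.1.right.2 = 1 := by
    have h5 : g.1.right.2 ^ n = 1 := congrArg Prod.snd h2
    have h6 : n * Multiplicative.toAdd g.1.right.2 = 0 := by
      have := congrArg Multiplicative.toAdd h5
      rw [toAdd_pow, toAdd_one, nsmul_eq_mul] at this
      exact this
    have h7 : Multiplicative.toAdd g.1.right.2 = 0 := by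
      rcases mul_eq_zero.1 h6 with h8 | h8
      · have h9 : n = 0 := by exact_mod_cast h8
        omega
      · exact h8
    exact h7
  have h8 : g.1.right = 1 := Prod.ext h1 h4
  have h9 : g.1 = SemidirectProduct.inl g.1.left := by
    apply SemidirectProduct.ext
    · rw [SemidirectProduct.left_inl]
    · rw [SemidirectProduct.right_inl, h8]
  have h10 : g.1.left ^ n = 1 := by
    rw [h9, ← map_pow] at hg1
    have := congrArg SemidirectProduct.left hg1
    rwa [SemidirectProduct.left_inl, SemidirectProduct.one_left] at this
  have h11 : g.1.left = 1 := torsion_free (adjP_isG T.V) _ n hn h10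
  apply Subtype.ext
  rw [h9, h11, map_one]
  rfl

end Pool.Agent.H59.FS
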