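import Pool.Agent.H59.FS.Hmt
import Pool.Agent.H59.FS.SlF
import Pool.Agent.H59.FS.SlL
import Pool.Agent.H59.FS.SlT
import Pool.Agent.H59.FS.SlC

set_option autoImplicit false

/-!
# MP_5c3080_gt: the model of a tower and an idempotent matrix
-/

namespace Pool.Agent.H59.FS

noncomputable section

variable {P : Type} [Group P] [Fintype P] {r : ℕ} {e : Fin r → Fin r → P → ℤ} (T : Tower P r e)

theorem sc_comb (k : Type) [CommRing k] (α β : ℤ) {n r' : ℕ} (u : Fin r' → ((Slc T α β).cub n →₀ k))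
    (x : Fin r' → (GG T →₀ k)) :
    sc T k α β n ((Slc T α β).comb u x) = ∑ j : Fin r', (x j).sum fun g a => a • cact T k g.1 n (sc T k α β n (u j)) := by
  unfold PreCub.comb
  rw [map_sum]
  refine Finset.sum_congr rfl fun j _ => ?_
  unfold Finsupp.sum
  rw [map_sum]
  refine Finset.sum_congr rfl fun g _ => ?_
  rw [map_smul, sc_cact]

theorem kb_Kx (k : Type) [CommRing k] (he : IsIdem e) (β : ℤ) (x : Fin r → (GG T →₀ k)) :
    kb T k (Kx T k he β x) =
      ∑ j : Fin r, (x j).sum fun g a => a • cact T k g.1 3 (kb T k (ins (y0 T β) (kj T k he β j))) := by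
  unfold Kx
  rw [map_sum]
  refine Finset.sum_congr rfl fun j _ => ?_
  unfold Finsupp.sum
  rw [map_sum]
  refine Finset.sum_congr rfl fun g _ => ?_
  rw [map_smul, kb_cact]

theorem slc_hom (he : IsIdem e) (α β : ℤ) (h : α + 4 ≤ β) (k : Type) [CommRing k] :
    (Slc T α β).Hom (T.ι) e k := by
  refine ⟨fun z hz => s0 T k he α β h z hz, fun n hn z hz => s1 T k he α β h n hn z hz, ?_⟩
  have hK : ∀ j : Fin r, KT T k (β + 1) (ins (y0 T β) (kj T k he β j)) := by
    intro j
    have h1 : chi (y0 T β) = β + 1 := by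
      unfold chi y0
      simp
    have h2 := kap_spec T k he (β + 1) (open Classical in fun b => if b = ((1 : P), j) then (1 : k) else 0)
    have h3 := kt_ins T k (y0 T β) (kj T k he β j) h2.1 h2.2.1
    rwa [h1] at h3
  choose u hu hu' using fun j => s2' T k α β h _ (hK j)
  have hc : ∀ x : Fin r → (GG T →₀ k), sc T k α β 3 ((Slc T α β).comb u x) = kb T k (Kx T k he β x) := by
    intro x
    rw [sc_comb, kb_Kx]
    simp only [hu]
  refine ⟨u, hu', ?_, ?_⟩
  · intro z hz
    obtain ⟨K, w, hKK, hw⟩ := s2 T k he α β h z hz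
    obtain ⟨x, rfl⟩ := kx_surj T k he β K hKK
    refine ⟨x, w, ?_⟩
    rw [← hc] at hw
    have h1 := sc_inj T k α β 3 hw
    rw [← h1]
    abel
  · intro x
    rw [← kx_zero T k he β x]
    constructor
    · rintro ⟨w, hw⟩
      refine s3 T k α β _ (kx_kt T k he β x) w ?_
      rw [hw, hc]
    · intro h0
      have h1 := hc x
      rw [h0, map_zero] at h1
      have h2 : (Slc T α β).comb u x = 0 := sc_inj T k α β 3 (h1.trans (map_zero _).symm)
      rw [h2]
      exact zero_mem _

/-- the vertex `(1, h)` of the slice -/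
def bvx (α β : ℤ) (h : α ≤ β) : (Slc T α β).cub 0 :=
  ⟨⟨((1, α), ⟨Fin.elim0, fun i => i.elim0⟩), fun i => i.elim0⟩, by
    have h1 : chi ((1, α) : Vx T) = α := by
      unfold chi
      simp
    change α ≤ chi ((1, α) : Vx T) ∧ chi ((1, α) : Vx T) + ((0 : ℕ) : ℤ) ≤ β
    rw [h1]
    simp [h]⟩

theorem bvx_fix (α β : ℤ) (h : α ≤ β) (p : P) : T.ι p • bvx T α β h = bvx T α β h := by
  apply Subtype.ext
  apply Subtype.ext
  refine Prod.ext (T.fix p α) ?_
  exact Subtype.ext (funext fun i => i.elim0)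

/-- the model -/
def model (he : IsIdem e) : Model P r e where
  G := GG T
  cnt := gg_countable T
  ι := T.ι
  π := T.π
  π_ι := T.π_ι
  tf g h n hn hg := gg_tf T g h n hn hg
  N := Slc T 0 4
  isAct := slc_act T 0 4
  fin := slc_fin T 0 4
  locFin := slc_locFin T 0 4
  dim n h := slc_dim T 0 4 n h
  conn := slc_conn T 0 4 (by norm_num)
  sc := slc_sc T 0 4 (by norm_num)
  b := bvx T 0 4 (by norm_num)
  b_fix p := bvx_fix T 0 4 (by norm_num) p
  hom k _ := slc_hom T he 0 4 (by norm_num) k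

end

end Pool.Agent.H59.FS
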