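import Pool.Agent.H59.FS.Lnk

set_option autoImplicit false

/-!
# MP_5c3080_gt, row [H59 FS MrA]: the connecting map from height `c` to height `c - 1` is an isomorphism

Top coordinates. `FT T c z`: the cubes of `z` are allowed, with top vertex of height `≤ c`. `KT T k c K`: `K` is a chain of
4-cubes with top vertices of height `c`, all the parts `pt y K` are cycles of the descending complexes.

`decomp`: `z = Σ_(y ∈ Y) ins y (pt y z)`, `Y` the finite set of the vertices of the support of `z` (extensionality).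
`bdT_add`, `bdT_neg`, `bdT_zero`, `bdT_smul`: clear.
`key`: for `y' = sgm ⊤ y`: `pt y (bb K) - lk ⊤ (pt y' K)` is a boundary in the descending complex at `y`: `decomp` of `K`,
`lnk_top` for the summand `y'` (`iv sgm ⊤ y' = y`; also if `pt y' K = 0`) and `lnk_ne` for the others, `bdT_add`.
`inj_top`: let `chi y' = c`, `y := iv sgm ⊤ y'`, `chi y = c - 1`, `y.2 = y'.2 - 1`. By `key` and the hypothesis
`lk ⊤ (pt y' K)` is `BdT` at `y`. By `dn4'` it is `zs k y'.2 x` with `emul e x = 0`, by `dn3_inj` (`l = y.2`) `x = emul e x'`; `e` is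
idempotent, so `emul e x = emul e (emul e x') = emul e x' = x` (`emul_emul`), `x = 0`, `lk ⊤ (pt y' K) = 0`, `pt y' K = 0` by
`dn4_uni`. So all parts of `K` are zero.
`emul_emul`: expand, exchange the sums, substitute `q' = q₁ q₂` and use `IsIdem`.
`surj_top`: for every `y` with `chi y = c - 1`, `pt y v ≠ 0` (finitely many): `dn3`: `pt y v = zs k (y.2 + 1) x + bdc κ'`;
`x₀ := x - emul e x` has `emul e x₀ = 0`; `dn4` at the level `y.2 + 1`: `κ` with `lk ⊤ κ = zs k (y.2 + 1) x₀`. Let `K` be the sum of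
`ins (sgm ⊤ y) κ`. Then `pt (sgm ⊤ y) K = κ`, and by `key` `pt y (bb K)` is `zs x₀` modulo `BdT`, so
`pt y v - pt y (bb K)` is `zs k (y.2 + 1) (emul e x)` modulo `BdT`, `BdT` by `dn3_zero` (`zs` is additive: `zs_add`). For the `y` with
`pt y v = 0`: `pt (sgm ⊤ y) K = 0` and `key`.
-/

namespace Pool.Agent.H59.FS

noncomputable section

variable {P : Type} [Group P] [Fintype P] {r : ℕ} {e : Fin r → Fin r → P → ℤ} (T : Tower P r e) (k : Type) [CommRing k]

/-- allowed, height at most `c` -/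
def FT (c : ℤ) {n : ℕ} (z : CC (WithTop T.V) (Vx T) k n) : Prop := ∀ c' ∈ z.support, AT T c' ∧ chi c'.1 ≤ c

/-- families of cycles of degree 4 at the vertices of height `c` -/
def KT (c : ℤ) (K : CC (WithTop T.V) (Vx T) k 4) : Prop :=
  (∀ c' ∈ K.support, AT T c' ∧ chi c'.1 = c) ∧ ∀ y, bdc (WithTop T.V) k 3 (pt y K) = 0

theorem decomp {W X : Type} [PartialOrder W] {n : ℕ} (z : CC W X k n) :
    ∃ Y : Finset X, (∀ y, y ∈ Y ↔ pt y z ≠ 0) ∧ z = ∑ y ∈ Y, ins y (pt y z) := by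
  classical
  have hmem : ∀ y, y ∈ z.support.image Prod.fst ↔ pt y z ≠ 0 := by
    intro y
    rw [Finset.mem_image]
    constructor
    · rintro ⟨c, hc, rfl⟩ h
      have h1 : pt c.1 z c.2 = 0 := by rw [h]; rfl
      exact (Finsupp.mem_support_iff.1 hc) h1
    · intro h
      obtain ⟨s, hs⟩ := Finsupp.ne_iff.1 h
      exact ⟨(y, s), Finsupp.mem_support_iff.2 hs, rfl⟩
  refine ⟨z.support.image Prod.fst, hmem, ?_⟩
  have hpt : ∀ x, pt x z = pt x (∑ y ∈ z.support.image Prod.fst, ins y (pt y z)) := by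
    intro x
    rw [map_sum]
    by_cases hx : x ∈ z.support.image Prod.fst
    · rw [Finset.sum_eq_single x (fun y _ hy => pt_ins_ne hy _) (fun h => absurd hx h), pt_ins]
    · have h0 : pt x z = 0 := by
        by_contra h
        exact hx ((hmem x).2 h)
      rw [h0]
      symm
      refine Finset.sum_eq_zero fun y hy => pt_ins_ne ?_ _
      rintro rfl
      exact hx hy
  refine Finsupp.ext fun c => ?_
  obtain ⟨x, s⟩ := c
  have h1 := congrArg (fun κ : Chn W n →₀ k => κ s) (hpt x)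
  exact h1

theorem bdT_zero (n : ℕ) (y : Vx T) : BdT T k n y 0 := by
  refine ⟨0, ?_, map_zero _⟩
  intro s hs
  simp at hs

theorem bdT_add (n : ℕ) (y : Vx T) (κ κ' : Chn (WithTop T.V) n →₀ k) (h : BdT T k n y κ) (h' : BdT T k n y κ') :
    BdT T k n y (κ + κ') := by
  classical
  obtain ⟨a, ha, rfl⟩ := h
  obtain ⟨b, hb, rfl⟩ := h'
  refine ⟨a + b, ?_, map_add _ _ _⟩
  intro s hs
  rcases Finset.mem_union.1 (Finsupp.support_add hs) with h | h
  · exact ha s h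
  · exact hb s h

theorem bdT_neg (n : ℕ) (y : Vx T) (κ : Chn (WithTop T.V) n →₀ k) (h : BdT T k n y κ) : BdT T k n y (-κ) := by
  obtain ⟨a, ha, rfl⟩ := h
  refine ⟨-a, ?_, map_neg _ _⟩
  intro s hs
  rw [Finsupp.support_neg] at hs
  exact ha s hs

private theorem bdT_sum (n : ℕ) (y : Vx T) (Y : Finset (Vx T)) (f : Vx T → (Chn (WithTop T.V) n →₀ k))
    (h : ∀ y' ∈ Y, BdT T k n y (f y')) : BdT T k n y (∑ y' ∈ Y, f y') := by
  classical
  induction Y using Finset.induction_on with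
  | empty =>
    rw [Finset.sum_empty]
    exact bdT_zero T k n y
  | insert a s ha ih =>
    rw [Finset.sum_insert ha]
    exact bdT_add T k n y _ _ (h a (Finset.mem_insert_self a s))
      (ih fun i hi => h i (Finset.mem_insert_of_mem hi))

private theorem iv_top (y' : Vx T) : sgm ⊤ (iv sgm ⊤ y') = y' := (sgm (⊤ : WithTop T.V)).apply_symm_apply y'

private theorem iv_top' (y : Vx T) : iv sgm ⊤ (sgm ⊤ y) = y := (sgm (⊤ : WithTop T.V)).symm_apply_apply y

private theorem sp_pt {c : ℤ} {K : CC (WithTop T.V) (Vx T) k 4} (hK : KT T k c K) (y : Vx T) :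
    Sp (AlT T.M y.2) (pt y K) := by
  intro s hs
  have h1 : pt y K s ≠ 0 := Finsupp.mem_support_iff.1 hs
  rw [pt_apply] at h1
  exact (hK.1 (y, s) (Finsupp.mem_support_iff.2 h1)).1

theorem key (c : ℤ) (K : CC (WithTop T.V) (Vx T) k 4) (hK : KT T k c K) (y : Vx T) :
    BdT T k 3 y (pt y (bb (iv sgm) 3 K) - lk k (⊤ : WithTop T.V) 3 (pt (sgm ⊤ y) K)) := by
  classical
  obtain ⟨Y, hY, hdec⟩ := decomp k K
  have h1 : pt y (bb (iv sgm) 3 K) = ∑ y' ∈ Y, pt y (bb (iv sgm) 3 (ins y' (pt y' K))) := by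
    have h2 : bb (iv sgm) 3 K = ∑ y' ∈ Y, bb (iv sgm) 3 (ins y' (pt y' K)) := by
      conv_lhs => rw [hdec]
      rw [map_sum]
    rw [h2, map_sum]
  have h3 : lk k (⊤ : WithTop T.V) 3 (pt (sgm ⊤ y) K) =
      ∑ y' ∈ Y, if y' = sgm ⊤ y then lk k (⊤ : WithTop T.V) 3 (pt (sgm ⊤ y) K) else 0 := by
    rw [Finset.sum_ite_eq' Y (sgm ⊤ y)]
    by_cases h4 : sgm ⊤ y ∈ Y
    · rw [if_pos h4]
    · rw [if_neg h4]
      have h5 : pt (sgm ⊤ y) K = 0 := by
        by_contra h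
        exact h4 ((hY _).2 h)
      rw [h5, map_zero]
  rw [h1, h3, ← Finset.sum_sub_distrib]
  refine bdT_sum T k 3 y Y _ fun y' _ => ?_
  by_cases h4 : y' = sgm ⊤ y
  · rw [if_pos h4, ← h4]
    have h5 : iv sgm ⊤ y' = y := by rw [h4, iv_top']
    have h6 := lnk_top T k 3 y' (pt y' K)
    rw [h5] at h6
    rw [h6, sub_self]
    exact bdT_zero T k 3 y
  · rw [if_neg h4, sub_zero]
    refine lnk_ne T k 3 y' (pt y' K) (sp_pt T k hK y') (hK.2 y') y ?_
    intro h5
    exact h4 (by rw [h5, iv_top])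

omit T in
theorem emul_emul (he : IsIdem e) (x : P × Fin r → k) : emul e (emul e x) = emul e x := by
  funext b
  have h1 : emul e x b = ∑ i : Fin r, ∑ l : Fin r, ∑ q : P, ∑ p : P,
      (((e i l q : ℤ) : k) * ((e l b.2 (q⁻¹ * p) : ℤ) : k)) * x (b.1 * p⁻¹, i) := by
    unfold emul
    refine Finset.sum_congr rfl fun i _ => ?_
    have h2 : ∀ p : P, ((e i b.2 p : ℤ) : k) * x (b.1 * p⁻¹, i) = ∑ l : Fin r, ∑ q : P,
        (((e i l q : ℤ) : k) * ((e l b.2 (q⁻¹ * p) : ℤ) : k)) * x (b.1 * p⁻¹, i) := by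
      intro p
      have h3 := congrArg (fun z : ℤ => (z : k)) (he i b.2 p)
      push_cast at h3
      rw [← h3, Finset.sum_mul]
      refine Finset.sum_congr rfl fun l _ => ?_
      rw [Finset.sum_mul]
    calc (∑ p : P, ((e i b.2 p : ℤ) : k) * x (b.1 * p⁻¹, i)) = ∑ p : P, ∑ l : Fin r, ∑ q : P,
        (((e i l q : ℤ) : k) * ((e l b.2 (q⁻¹ * p) : ℤ) : k)) * x (b.1 * p⁻¹, i) :=
          Finset.sum_congr rfl fun p _ => h2 p
      _ = ∑ l : Fin r, ∑ p : P, ∑ q : P,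
        (((e i l q : ℤ) : k) * ((e l b.2 (q⁻¹ * p) : ℤ) : k)) * x (b.1 * p⁻¹, i) := Finset.sum_comm
      _ = _ := Finset.sum_congr rfl fun l _ => Finset.sum_comm
  have h4 : emul e (emul e x) b = ∑ i : Fin r, ∑ l : Fin r, ∑ q : P, ∑ q' : P,
      (((e i l q : ℤ) : k) * ((e l b.2 q' : ℤ) : k)) * x (b.1 * q'⁻¹ * q⁻¹, i) := by
    have h5 : emul e (emul e x) b = ∑ l : Fin r, ∑ q' : P, ∑ i : Fin r, ∑ q : P,
      (((e i l q : ℤ) : k) * ((e l b.2 q' : ℤ) : k)) * x (b.1 * q'⁻¹ * q⁻¹, i) := by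
      unfold emul
      refine Finset.sum_congr rfl fun l _ => Finset.sum_congr rfl fun q' _ => ?_
      rw [Finset.mul_sum]
      refine Finset.sum_congr rfl fun i _ => ?_
      rw [Finset.mul_sum]
      refine Finset.sum_congr rfl fun q _ => ?_
      ring
    rw [h5]
    calc (∑ l : Fin r, ∑ q' : P, ∑ i : Fin r, ∑ q : P,
        (((e i l q : ℤ) : k) * ((e l b.2 q' : ℤ) : k)) * x (b.1 * q'⁻¹ * q⁻¹, i)) =
        ∑ l : Fin r, ∑ i : Fin r, ∑ q' : P, ∑ q : P,
        (((e i l q : ℤ) : k) * ((e l b.2 q' : ℤ) : k)) * x (b.1 * q'⁻¹ * q⁻¹, i) :=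
          Finset.sum_congr rfl fun l _ => Finset.sum_comm
      _ = ∑ i : Fin r, ∑ l : Fin r, ∑ q' : P, ∑ q : P,
        (((e i l q : ℤ) : k) * ((e l b.2 q' : ℤ) : k)) * x (b.1 * q'⁻¹ * q⁻¹, i) := Finset.sum_comm
      _ = _ := Finset.sum_congr rfl fun i _ => Finset.sum_congr rfl fun l _ => Finset.sum_comm
  rw [h4, h1]
  refine Finset.sum_congr rfl fun i _ => Finset.sum_congr rfl fun l _ =>
    Finset.sum_congr rfl fun q _ => ?_
  refine Fintype.sum_equiv (Equiv.mulLeft q) _ _ fun q' => ?_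
  have e1 : q⁻¹ * (Equiv.mulLeft q q') = q' := by
    rw [Equiv.coe_mulLeft, inv_mul_cancel_left]
  have e2 : b.1 * (Equiv.mulLeft q q')⁻¹ = b.1 * q'⁻¹ * q⁻¹ := by
    rw [Equiv.coe_mulLeft, mul_inv_rev, mul_assoc]
  rw [e1, e2]

private theorem zs_zero (l : ℤ) : T.zs k l 0 = 0 := by
  have h := zs_smul T k l (0 : k) 0
  rw [zero_smul, zero_smul] at h
  exact h

theorem inj_top (he : IsIdem e) (c : ℤ) (K : CC (WithTop T.V) (Vx T) k 4) (hK : KT T k c K)
    (h : ∀ y, chi y = c - 1 → BdT T k 3 y (pt y (bb (iv sgm) 3 K))) : K = 0 := by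
  have hall : ∀ y', pt y' K = 0 := by
    intro y'
    by_contra hne
    obtain ⟨s, hs⟩ := Finsupp.ne_iff.1 hne
    have hc : chi y' = c := (hK.1 (y', s) (Finsupp.mem_support_iff.2 hs)).2
    have h1 := chi_iv (⊤ : WithTop T.V) y'
    have h2 : chi (iv sgm ⊤ y') = c - 1 := by omega
    have h3 := h _ h2
    have h4 := key T k c K hK (iv sgm ⊤ y')
    rw [iv_top] at h4
    have h5 : BdT T k 3 (iv sgm ⊤ y') (lk k (⊤ : WithTop T.V) 3 (pt y' K)) := by
      have h6 := bdT_add T k 3 _ _ _ h3 (bdT_neg T k 3 _ _ h4)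
      have h7 : pt (iv sgm ⊤ y') (bb (iv sgm) 3 K) +
          -(pt (iv sgm ⊤ y') (bb (iv sgm) 3 K) - lk k (⊤ : WithTop T.V) 3 (pt y' K)) =
          lk k (⊤ : WithTop T.V) 3 (pt y' K) := by abel
      rwa [h7] at h6
    obtain ⟨x, hx, hx2⟩ := dn4' T k y'.2 (pt y' K) (sp_pt T k hK y') (hK.2 y')
    obtain ⟨κ', hκ, hκ2⟩ := h5
    have h8 : (iv sgm ⊤ y').2 + 1 = y'.2 := by
      have h9 : sgm ⊤ (iv sgm ⊤ y') = y' := iv_top T y'
      exact congrArg Prod.snd h9
    obtain ⟨x', hx'⟩ := dn3_inj T k (iv sgm ⊤ y').2 x κ' hκ (by rw [h8, ← hx2, hκ2])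
    have h10 : x = 0 := by
      rw [← hx]
      conv_lhs => rw [hx', ← emul_emul k he x', ← hx']
    refine hne (dn4_uni T k y'.2 (pt y' K) (sp_pt T k hK y') (hK.2 y') ?_)
    rw [hx2, h10, zs_zero]
  refine Finsupp.ext fun c' => ?_
  obtain ⟨y, s⟩ := c'
  exact congrArg (fun κ : Chn (WithTop T.V) 4 →₀ k => κ s) (hall y)

private theorem emul_sub (x y : P × Fin r → k) : emul e (x - y) = emul e x - emul e y := by
  funext b
  simp only [emul, Pi.sub_apply, mul_sub, Finset.sum_sub_distrib]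

theorem surj_top (he : IsIdem e) (c : ℤ) (v : CC (WithTop T.V) (Vx T) k 3)
    (hv : ∀ c' ∈ v.support, AT T c' ∧ chi c'.1 = c - 1) (h0 : ∀ y, bdc (WithTop T.V) k 2 (pt y v) = 0) :
    ∃ K : CC (WithTop T.V) (Vx T) k 4, KT T k c K ∧
      ∀ y, chi y = c - 1 → BdT T k 3 y (pt y v - pt y (bb (iv sgm) 3 K)) := by
  classical
  have hspv : ∀ y, Sp (AlT T.M y.2) (pt y v) := by
    intro y s hs
    have h1 : pt y v s ≠ 0 := Finsupp.mem_support_iff.1 hs
    rw [pt_apply] at h1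
    exact (hv (y, s) (Finsupp.mem_support_iff.2 h1)).1
  have hex : ∀ y : Vx T, ∃ κ : Chn (WithTop T.V) 4 →₀ k, (pt y v = 0 → κ = 0) ∧
      Sp (AlT T.M (y.2 + 1)) κ ∧ bdc (WithTop T.V) k 3 κ = 0 ∧
      BdT T k 3 y (pt y v - lk k (⊤ : WithTop T.V) 3 κ) := by
    intro y
    by_cases hy : pt y v = 0
    · refine ⟨0, fun _ => rfl, ?_, map_zero _, ?_⟩
      · intro s hs
        simp at hs
      · rw [hy, map_zero, sub_zero]
        exact bdT_zero T k 3 y
    · obtain ⟨x, κ', hκ', hdec⟩ := dn3 T k y.2 (pt y v) (hspv y) (h0 y)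
      have he0 : emul e (x - emul e x) = 0 := by
        rw [emul_sub, emul_emul k he, sub_self]
      obtain ⟨κ, hκ, hκ0, hκ1⟩ := dn4 T k (y.2 + 1) (x - emul e x) he0
      refine ⟨κ, fun h => absurd h hy, hκ, hκ0, ?_⟩
      have h1 : T.zs k (y.2 + 1) x = T.zs k (y.2 + 1) (x - emul e x) + T.zs k (y.2 + 1) (emul e x) := by
        rw [← zs_add, sub_add_cancel]
      have h2 : pt y v - lk k (⊤ : WithTop T.V) 3 κ =
          T.zs k (y.2 + 1) (emul e x) + bdc (WithTop T.V) k 3 κ' := by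
        rw [hdec, hκ1, h1]
        abel
      rw [h2]
      exact bdT_add T k 3 y _ _ (dn3_zero T k y.2 x) ⟨κ', hκ', rfl⟩
  choose κ hκz hκs hκ0 hκb using hex
  obtain ⟨Y, hY, -⟩ := decomp k v
  set K : CC (WithTop T.V) (Vx T) k 4 := ∑ y ∈ Y, ins (sgm ⊤ y) (κ y) with hKdef
  have hsg : ∀ y y' : Vx T, sgm ⊤ y = sgm ⊤ y' → y = y' := fun y y' h =>
    (sgm (⊤ : WithTop T.V)).injective h
  have hpt : ∀ y, pt (sgm ⊤ y) K = κ y := by
    intro y
    rw [hKdef, map_sum]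
    by_cases hy : y ∈ Y
    · rw [Finset.sum_eq_single y (fun y' _ hy' => pt_ins_ne (fun h => hy' (hsg _ _ h)) _)
        (fun h => absurd hy h), pt_ins]
    · have h1 : pt y v = 0 := by
        by_contra h
        exact hy ((hY y).2 h)
      rw [hκz y h1]
      refine Finset.sum_eq_zero fun y' hy' => pt_ins_ne ?_ _
      intro h
      have h2 := hsg _ _ h
      rw [h2] at hy'
      exact hy hy'
  have hK : KT T k c K := by
    constructor
    · intro c' hc'
      have h1 : ∃ y ∈ Y, (ins (sgm ⊤ y) (κ y) : CC (WithTop T.V) (Vx T) k 4) c' ≠ 0 := by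
        by_contra hcon
        push Not at hcon
        refine Finsupp.mem_support_iff.1 hc' ?_
        rw [hKdef, Finsupp.finsetSum_apply]
        exact Finset.sum_eq_zero hcon
      obtain ⟨y, hy, hy2⟩ := h1
      have h2 : c'.1 = sgm ⊤ y := by
        by_contra hne
        have h3 : pt c'.1 (ins (sgm ⊤ y) (κ y) : CC (WithTop T.V) (Vx T) k 4) = 0 :=
          pt_ins_ne (fun h => hne h.symm) _
        exact hy2 (congrArg (fun κ : Chn (WithTop T.V) 4 →₀ k => κ c'.2) h3)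
      have h4 : κ y c'.2 ≠ 0 := by
        have h5 : pt (sgm ⊤ y) (ins (sgm ⊤ y) (κ y) : CC (WithTop T.V) (Vx T) k 4) = κ y :=
          pt_ins _ _
        have h6 : (ins (sgm ⊤ y) (κ y) : CC (WithTop T.V) (Vx T) k 4) (sgm ⊤ y, c'.2) = κ y c'.2 :=
          congrArg (fun κ : Chn (WithTop T.V) 4 →₀ k => κ c'.2) h5
        have h7 : c' = (sgm ⊤ y, c'.2) := Prod.ext h2 rfl
        rw [← h6, ← h7]
        exact hy2
      have h6 : pt y v ≠ 0 := (hY y).1 hy
      obtain ⟨s, hs⟩ := Finsupp.ne_iff.1 h6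
      have h7 : chi y = c - 1 := (hv (y, s) (Finsupp.mem_support_iff.2 hs)).2
      constructor
      · change AlT T.M c'.1.2 c'.2
        rw [h2]
        exact hκs y c'.2 (Finsupp.mem_support_iff.2 h4)
      · rw [h2, chi_sgm, h7]
        ring
    · intro y
      have h1 : y = sgm ⊤ (iv sgm ⊤ y) := (iv_top T y).symm
      rw [h1, hpt]
      exact hκ0 _
  refine ⟨K, hK, fun y _ => ?_⟩
  have h1 := key T k c K hK y
  rw [hpt] at h1
  have h2 := bdT_add T k 3 y _ _ (hκb y) (bdT_neg T k 3 y _ h1)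
  have h3 : pt y v - lk k (⊤ : WithTop T.V) 3 (κ y) +
      -(pt y (bb (iv sgm) 3 K) - lk k (⊤ : WithTop T.V) 3 (κ y)) =
      pt y v - pt y (bb (iv sgm) 3 K) := by abel
  rwa [h3] at h2

end

end Pool.Agent.H59.FS
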