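import Pool.Agent.H59.FS.MrA

set_option autoImplicit false

/-!
# MP_5c3080_gt, row [H59 FS MrB]: the homology of `F_c` (top vertex of height at most `c`)

Top coordinates; the boundary is `bb (iv sgm)`, the height for `bb_low`, `step` (Sys.lean) is `h y = - chi y` (`chi_iv`), so
`F_c` is `h ≥ -c`. `cm`: `iv_comm sgm_comm`.
`red` (`m ≠ 3`): let `w` be a chain of degree `m + 1` in `F_(c+1)` with boundary in `F_c`. The parts `pt y w`, `chi y = c + 1`,
are cycles (`bb_low` with `c₀ = -(c+1)`). If `m ≠ 2, 3` they are boundaries by `dn_exact` and `step` gives `v` with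
`w' := w + bb v` without parts at height `c + 1` (`v` in `F_(c+1)`, so `w'` is allowed (`bb_supp`, `at_del`) of height `≤ c + 1`,
hence `≤ c`), `bb w' = bb w` (`bb_bb`). If `m = 2`: `surj_top` (with `c + 2` and `v` := the part of `w` at height `c + 1`:
`v := Σ ins y (pt y w)` over these `y`) gives `K` of height `c + 2`; `bb K` is in `F_(c+1)` (its part at the height `c + 2` is
`- bdc (pt y K) = 0`), and `w - bb K` has the same boundary and parts at height `c + 1` which are boundaries; `step` again.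
`exists_FT`: a chain with allowed cubes is in some `F_(c+j)` (finite support).
`redn`: by induction on `j` a chain of degree `m + 1` in `F_(c+j)` with boundary in `F_c` can be replaced by one in `F_c`.
`m1`: `top_acyclic` gives `w` with `bb w = z`, degree `n + 2`, `m = n + 1 ≠ 3`; `redn`. `m0` with `top_acyclic0`, `m = 0`.
`two`: `w` of degree 4 in `F_(c+2)` with boundary in `F_c`. Let `K` be the part of `w` at height `c + 2`, `KT T k (c+2) K`
(cycles by `bb_low`), `w = K + w'`, `w'` in `F_(c+1)`. For `chi y = c + 1`: `0 = pt y (bb w) = pt y (bb K) - bdc (pt y w')` (`bb_low` for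
`w'`), so `pt y (bb K)` is `BdT` and `K = 0` by `inj_top`. So `w` is in `F_(c+1)`.
`m2`: `top_acyclic`: `z = bb w₀`, `w₀` in `F_(c+j)`; by induction on `j` (for all `c`): a chain `w₀` of degree 4 in `F_(c+j)`,
`j ≥ 1`, with boundary in `F_c` is in `F_(c+1)`: for `j ≥ 2` the boundary is in `F_(c+1)`, so by induction (`c + 1`, `j - 1`) `w₀` is in
`F_(c+2)`, then `two`. Finally let `K` be the part of `w₀` at height `c + 1` (cycles, `KT`), `w := w₀ - K`.
`m3`: `K - w` is a cycle of degree 4, allowed, so `K - w = bb v` (`top_acyclic`), `v` of degree 5 allowed, `v = 0` by `no5`.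
So `K = w` has height `c + 1` and `≤ c`: zero.
-/

namespace Pool.Agent.H59.FS

noncomputable section

variable {P : Type} [Group P] [Fintype P] {r : ℕ} {e : Fin r → Fin r → P → ℤ} (T : Tower P r e) (k : Type) [CommRing k]

section aux

omit [Fintype P] in
private theorem hh' {V : Type} [PartialOrder V] (u : WithTop V) (x : RA V × ℤ) :
    (fun y : RA V × ℤ => -chi y) (iv sgm u x) = (fun y : RA V × ℤ => -chi y) x + 1 := chi_iv u x

private theorem chi_iv' {V : Type} [PartialOrder V] (u : WithTop V) (x : RA V × ℤ) :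
    chi (iv sgm u x) = chi x - 1 := by
  have h := chi_iv u x
  omega

private theorem mem_pt {n : ℕ} {z : CC (WithTop T.V) (Vx T) k n} {y : Vx T}
    {s : Chn (WithTop T.V) n} (h : (y, s) ∈ z.support) : pt y z ≠ 0 := by
  intro h1
  rw [Finsupp.mem_support_iff] at h
  apply h
  rw [← pt_apply, h1]
  rfl

private theorem ft_of {c : ℤ} {n : ℕ} {z : CC (WithTop T.V) (Vx T) k n}
    (hA : ∀ c' ∈ z.support, AT T c') (h : ∀ y, c < chi y → pt y z = 0) : FT T k c z := by
  rintro ⟨y, s⟩ hys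
  refine ⟨hA _ hys, ?_⟩
  by_contra hlt
  exact mem_pt T k hys (h y (not_le.1 hlt))

private theorem ft_pt {c : ℤ} {n : ℕ} {z : CC (WithTop T.V) (Vx T) k n} (hz : FT T k c z)
    (y : Vx T) (hy : c < chi y) : pt y z = 0 := by
  ext s
  rw [pt_apply]
  by_contra h
  have h1 := (hz (y, s) (Finsupp.mem_support_iff.2 h)).2
  simp only at h1
  omega

private theorem at_bb {n : ℕ} {z : CC (WithTop T.V) (Vx T) k (n + 1)}
    (hA : ∀ c' ∈ z.support, AT T c') : ∀ c' ∈ (bb (iv sgm) n z).support, AT T c' := by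
  intro c' hc'
  obtain ⟨⟨x, s⟩, hd, i, h | h⟩ := bb_supp z c' hc'
  · rw [h]
    exact (at_del T x s i (hA _ hd)).1
  · rw [h]
    exact (at_del T x s i (hA _ hd)).2

private theorem at_add {n : ℕ} {z z' : CC (WithTop T.V) (Vx T) k n}
    (hA : ∀ c' ∈ z.support, AT T c') (hA' : ∀ c' ∈ z'.support, AT T c') :
    ∀ c' ∈ (z + z').support, AT T c' := by
  classical
  intro c' hc'
  rcases Finset.mem_union.1 (Finsupp.support_add hc') with h | h
  · exact hA c' h
  · exact hA' c' h

private theorem at_neg {n : ℕ} {z : CC (WithTop T.V) (Vx T) k n}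
    (hA : ∀ c' ∈ z.support, AT T c') : ∀ c' ∈ (-z).support, AT T c' := by
  intro c' hc'
  rw [Finsupp.support_neg] at hc'
  exact hA c' hc'

private theorem at_sub {n : ℕ} {z z' : CC (WithTop T.V) (Vx T) k n}
    (hA : ∀ c' ∈ z.support, AT T c') (hA' : ∀ c' ∈ z'.support, AT T c') :
    ∀ c' ∈ (z - z').support, AT T c' := by
  rw [sub_eq_add_neg]
  exact at_add T k hA (at_neg T k hA')

private theorem ft_at {c : ℤ} {n : ℕ} {z : CC (WithTop T.V) (Vx T) k n} (hz : FT T k c z) :
    ∀ c' ∈ z.support, AT T c' := fun c' h => (hz c' h).1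

private theorem ft_mono {c c₁ : ℤ} (hc : c ≤ c₁) {n : ℕ} {z : CC (WithTop T.V) (Vx T) k n}
    (hz : FT T k c z) : FT T k c₁ z := fun c' h => ⟨(hz c' h).1, (hz c' h).2.trans hc⟩

private theorem ft_bb {c : ℤ} {n : ℕ} {z : CC (WithTop T.V) (Vx T) k (n + 1)}
    (hz : FT T k c z) : FT T k c (bb (iv sgm) n z) := by
  intro c' hc'
  refine ⟨at_bb T k (ft_at T k hz) c' hc', ?_⟩
  obtain ⟨⟨x, s⟩, hd, i, h | h⟩ := bb_supp z c' hc'
  · rw [h]
    exact (hz _ hd).2
  · rw [h]
    have h1 := (hz _ hd).2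
    simp only at h1 ⊢
    rw [chi_iv']
    omega

private theorem low {c : ℤ} {n : ℕ} {z : CC (WithTop T.V) (Vx T) k (n + 1)}
    (hz : FT T k c z) (y : Vx T) (hy : c ≤ chi y) :
    pt y (bb (iv sgm) n z) = - bdc (WithTop T.V) k n (pt y z) := by
  refine bb_low (h := fun y : RA T.V × ℤ => -chi y) hh' z (-c) ?_ y ?_
  · intro x hx
    refine ft_pt T k hz x ?_
    have hx' : -chi x < -c := hx
    omega
  · have : -chi y ≤ -c := by omega
    exact this

private theorem sp_pt {n : ℕ} {z : CC (WithTop T.V) (Vx T) k n}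
    (hA : ∀ c' ∈ z.support, AT T c') (y : Vx T) : Sp (AlT T.M y.2) (pt y z) := by
  intro s hs
  rw [Finsupp.mem_support_iff, pt_apply] at hs
  exact hA (y, s) (Finsupp.mem_support_iff.2 hs)

open Classical in
/-- the part at height `c` -/
private def prt (c : ℤ) {n : ℕ} (z : CC (WithTop T.V) (Vx T) k n) :
    CC (WithTop T.V) (Vx T) k n := Finsupp.filter (fun c' => chi c'.1 = c) z

private theorem prt_supp {c : ℤ} {n : ℕ} {z : CC (WithTop T.V) (Vx T) k n} :
    ∀ c' ∈ (prt T k c z).support, c' ∈ z.support ∧ chi c'.1 = c := by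
  classical
  intro c' hc'
  unfold prt at hc'
  rw [Finsupp.support_filter, Finset.mem_filter] at hc'
  exact hc'

private theorem prt_pt {c : ℤ} {n : ℕ} (z : CC (WithTop T.V) (Vx T) k n) {y : Vx T}
    (h : chi y = c) : pt y (prt T k c z) = pt y z := by
  classical
  ext s
  rw [pt_apply, pt_apply]
  unfold prt
  exact Finsupp.filter_apply_pos (fun c' : Vx T × Chn (WithTop T.V) n => chi c'.1 = c) z h

private theorem prt_pt' {c : ℤ} {n : ℕ} (z : CC (WithTop T.V) (Vx T) k n) {y : Vx T}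
    (h : chi y ≠ c) : pt y (prt T k c z) = 0 := by
  classical
  ext s
  rw [pt_apply]
  unfold prt
  exact Finsupp.filter_apply_neg (fun c' : Vx T × Chn (WithTop T.V) n => chi c'.1 = c) z h

private theorem prt_sub {c : ℤ} {n : ℕ} {z : CC (WithTop T.V) (Vx T) k n}
    (hz : FT T k (c + 1) z) : FT T k c (z - prt T k (c + 1) z) := by
  refine ft_of T k (at_sub T k (ft_at T k hz) fun c' h =>
    (hz c' (prt_supp T k c' h).1).1) fun y hy => ?_
  rw [map_sub]
  by_cases h : chi y = c + 1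
  · rw [prt_pt T k z h, sub_self]
  · rw [prt_pt' T k z h, ft_pt T k hz y (by omega), sub_zero]

/-- the part at the highest level of a chain of degree 4 is a family of cycles -/
private theorem prt_kt {c : ℤ} {z : CC (WithTop T.V) (Vx T) k 4} (hz : FT T k c z)
    {c₁ : ℤ} (hc : c₁ < c) (hb : FT T k c₁ (bb (iv sgm) 3 z)) : KT T k c (prt T k c z) := by
  refine ⟨fun c' h => ⟨(hz c' (prt_supp T k c' h).1).1, (prt_supp T k c' h).2⟩, fun y => ?_⟩
  by_cases h : chi y = c
  · have h1 := low T k hz y (le_of_eq h.symm)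
    rw [ft_pt T k hb y (by omega)] at h1
    rw [prt_pt T k z h]
    exact neg_eq_zero.1 h1.symm
  · rw [prt_pt' T k z h, map_zero]

end aux

/-- the boundary of a family of cycles at height `c + 1` is in `F_c` -/
theorem kt_ft (c : ℤ) (K : CC (WithTop T.V) (Vx T) k 4) (hK : KT T k (c + 1) K) : FT T k c (bb (iv sgm) 3 K) := by
  have h1 : FT T k (c + 1) K := fun c' h => ⟨(hK.1 c' h).1, le_of_eq (hK.1 c' h).2⟩
  refine ft_of T k (at_bb T k (ft_at T k h1)) fun y hy => ?_
  rw [low T k h1 y (by omega), hK.2 y, neg_zero]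

private theorem red_step (m : ℕ) (c : ℤ) (w : CC (WithTop T.V) (Vx T) k (m + 1))
    (hw : FT T k (c + 1) w) (hb : ∀ y, chi y = c + 1 → BdT T k (m + 1) y (pt y w)) :
    ∃ w' : CC (WithTop T.V) (Vx T) k (m + 1), FT T k c w' ∧ bb (iv sgm) m w' = bb (iv sgm) m w := by
  obtain ⟨v, hv, hv0⟩ := step (h := fun y : RA T.V × ℤ => -chi y) hh'
    (Al := fun (n : ℕ) (x : RA T.V × ℤ) (s : Chn (WithTop T.V) n) => AlT T.M x.2 s)
    w (-(c + 1)) (by
      intro x hx
      refine ft_pt T k hw x ?_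
      have hx' : -chi x < -(c + 1) := hx
      omega) (by
      intro x hx
      have hx' : -chi x = -(c + 1) := hx
      obtain ⟨κ', h1, h2⟩ := hb x (by omega)
      exact ⟨κ', h1, h2⟩)
  have hvA : ∀ c' ∈ v.support, AT T c' := fun c' h => (hv c' h).1
  refine ⟨w + bb (iv sgm) (m + 1) v, ?_, ?_⟩
  · refine ft_of T k (at_add T k (ft_at T k hw) (at_bb T k hvA)) fun y hy => hv0 y ?_
    have : -chi y ≤ -(c + 1) := by omega
    exact this
  · rw [map_add, bb_bb (iv_comm sgm_comm), add_zero]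

private theorem cyc_top (m : ℕ) (c : ℤ) (w : CC (WithTop T.V) (Vx T) k (m + 1))
    (hw : FT T k (c + 1) w) (hb : FT T k c (bb (iv sgm) m w)) (y : Vx T) (hy : chi y = c + 1) :
    bdc (WithTop T.V) k m (pt y w) = 0 := by
  have h1 := low T k hw y (le_of_eq hy.symm)
  rw [ft_pt T k hb y (by omega)] at h1
  exact neg_eq_zero.1 h1.symm

theorem red (he : IsIdem e) (m : ℕ) (hm : m ≠ 3) (c : ℤ) (w : CC (WithTop T.V) (Vx T) k (m + 1)) (hw : FT T k (c + 1) w)
    (hb : FT T k c (bb (iv sgm) m w)) :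
    ∃ w' : CC (WithTop T.V) (Vx T) k (m + 1), FT T k c w' ∧ bb (iv sgm) m w' = bb (iv sgm) m w := by
  by_cases hm2 : m = 2
  · subst hm2
    obtain ⟨K, hK, h1⟩ := surj_top T k he (c + 1 + 1) (prt T k (c + 1) w) (by
      intro c' h
      refine ⟨(hw c' (prt_supp T k c' h).1).1, ?_⟩
      rw [(prt_supp T k c' h).2]
      ring) (by
      intro y
      by_cases h : chi y = c + 1
      · rw [prt_pt T k w h]
        exact cyc_top T k 2 c w hw hb y h
      · rw [prt_pt' T k w h, map_zero])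
    have h2 := kt_ft T k (c + 1) K hK
    have h3 : FT T k (c + 1) (w - bb (iv sgm) 3 K) := by
      refine ft_of T k (at_sub T k (ft_at T k hw) (ft_at T k h2)) fun y hy => ?_
      rw [map_sub, ft_pt T k hw y hy, ft_pt T k h2 y hy, sub_zero]
    obtain ⟨w', hw', e'⟩ := red_step T k 2 c (w - bb (iv sgm) 3 K) h3 (by
      intro y hy
      have h4 := h1 y (by rw [hy]; ring)
      rw [prt_pt T k w hy] at h4
      rw [map_sub]
      exact h4)
    refine ⟨w', hw', ?_⟩
    rw [e', map_sub, bb_bb (iv_comm sgm_comm), sub_zero]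
  · refine red_step T k m c w hw fun y hy => ?_
    exact dn_exact T k y.2 m hm2 hm (pt y w) (sp_pt T k (ft_at T k hw) y)
      (cyc_top T k m c w hw hb y hy)

theorem exists_FT (c : ℤ) {n : ℕ} (w : CC (WithTop T.V) (Vx T) k n) (hw : ∀ c' ∈ w.support, AT T c') :
    ∃ j : ℕ, FT T k (c + j) w := by
  refine ⟨w.support.sup fun c' => (chi c'.1 - c).toNat, fun c' h => ⟨hw c' h, ?_⟩⟩
  have h1 : (chi c'.1 - c).toNat ≤ w.support.sup fun c' => (chi c'.1 - c).toNat :=
    Finset.le_sup (f := fun c' : Vx T × Chn (WithTop T.V) n => (chi c'.1 - c).toNat) h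
  omega

private theorem redj (he : IsIdem e) (m : ℕ) (hm : m ≠ 3) (c : ℤ) (j : ℕ) :
    ∀ w : CC (WithTop T.V) (Vx T) k (m + 1), FT T k (c + j) w → FT T k c (bb (iv sgm) m w) →
    ∃ w' : CC (WithTop T.V) (Vx T) k (m + 1), FT T k c w' ∧ bb (iv sgm) m w' = bb (iv sgm) m w := by
  induction j with
  | zero =>
    intro w hw _
    refine ⟨w, ?_, rfl⟩
    rw [Nat.cast_zero, add_zero] at hw
    exact hw
  | succ j ih =>
    intro w hw hb
    have hw1 : FT T k (c + j + 1) w := by
      have e1 : c + ((j + 1 : ℕ) : ℤ) = c + j + 1 := by push_cast; ring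
      rw [e1] at hw
      exact hw
    obtain ⟨w', hw', e'⟩ := red T k he m hm (c + j) w hw1 (ft_mono T k (by omega) hb)
    obtain ⟨w'', hw'', e''⟩ := ih w' hw' (by rw [e']; exact hb)
    exact ⟨w'', hw'', e''.trans e'⟩

theorem redn (he : IsIdem e) (m : ℕ) (hm : m ≠ 3) (c : ℤ) (w : CC (WithTop T.V) (Vx T) k (m + 1))
    (hw : ∀ c' ∈ w.support, AT T c') (hb : FT T k c (bb (iv sgm) m w)) :
    ∃ w' : CC (WithTop T.V) (Vx T) k (m + 1), FT T k c w' ∧ bb (iv sgm) m w' = bb (iv sgm) m w := by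
  obtain ⟨j, hj⟩ := exists_FT T k c w hw
  exact redj T k he m hm c j w hj hb

/-- no homology in degree `n + 1 ≠ 3` -/
theorem m1 (he : IsIdem e) (n : ℕ) (hn : n ≠ 2) (c : ℤ) (z : CC (WithTop T.V) (Vx T) k (n + 1)) (hz : FT T k c z)
    (h0 : bb (iv sgm) n z = 0) :
    ∃ w : CC (WithTop T.V) (Vx T) k (n + 2), FT T k c w ∧ bb (iv sgm) (n + 1) w = z := by
  obtain ⟨w, hw, e1⟩ := top_acyclic T k n z (ft_at T k hz) h0
  obtain ⟨w', hw', e'⟩ := redn T k he (n + 1) (by omega) c w hw (by rw [e1]; exact hz)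
  exact ⟨w', hw', e'.trans e1⟩

theorem m0 (he : IsIdem e) (c : ℤ) (z : CC (WithTop T.V) (Vx T) k 0) (hz : FT T k c z)
    (h0 : (z.sum fun _ a => a) = 0) :
    ∃ w : CC (WithTop T.V) (Vx T) k 1, FT T k c w ∧ bb (iv sgm) 0 w = z := by
  obtain ⟨w, hw, e1⟩ := top_acyclic0 T k z h0
  obtain ⟨w', hw', e'⟩ := redn T k he 0 (by omega) c w hw (by rw [e1]; exact hz)
  exact ⟨w', hw', e'.trans e1⟩

private theorem two (he : IsIdem e) (c : ℤ) (w : CC (WithTop T.V) (Vx T) k 4)
    (hw : FT T k (c + 1 + 1) w) (hb : FT T k c (bb (iv sgm) 3 w)) : FT T k (c + 1) w := by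
  have hK : KT T k (c + 1 + 1) (prt T k (c + 1 + 1) w) := prt_kt T k hw (by omega) hb
  have hw' : FT T k (c + 1) (w - prt T k (c + 1 + 1) w) := prt_sub T k hw
  have hz : prt T k (c + 1 + 1) w = 0 := by
    refine inj_top T k he (c + 1 + 1) _ hK fun y hy => ?_
    have hy' : chi y = c + 1 := by omega
    have h1 := low T k hw' y (by omega)
    have h2 := ft_pt T k hb y (by omega)
    refine ⟨pt y (w - prt T k (c + 1 + 1) w), sp_pt T k (ft_at T k hw') y, ?_⟩
    rw [map_sub, map_sub, h2, zero_sub] at h1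
    exact (neg_injective h1).symm
  rw [hz, sub_zero] at hw'
  exact hw'

private theorem down (he : IsIdem e) (c : ℤ) (j : ℕ) (w : CC (WithTop T.V) (Vx T) k 4)
    (hw : FT T k (c + 1 + j) w) (hb : FT T k c (bb (iv sgm) 3 w)) : FT T k (c + 1) w := by
  induction j with
  | zero =>
    rw [Nat.cast_zero, add_zero] at hw
    exact hw
  | succ j ih =>
    apply ih
    have e1 : c + 1 + ((j + 1 : ℕ) : ℤ) = c + j + 1 + 1 := by push_cast; ring
    rw [e1] at hw
    have h1 := two T k he (c + j) w hw (ft_mono T k (by omega) hb)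
    have e2 : c + 1 + (j : ℤ) = c + j + 1 := by ring
    rw [e2]
    exact h1

/-- homology in degree 3 -/
theorem m2 (he : IsIdem e) (c : ℤ) (z : CC (WithTop T.V) (Vx T) k 3) (hz : FT T k c z) (h0 : bb (iv sgm) 2 z = 0) :
    ∃ K w : CC (WithTop T.V) (Vx T) k 4, KT T k (c + 1) K ∧ FT T k c w ∧
      z = bb (iv sgm) 3 K + bb (iv sgm) 3 w := by
  obtain ⟨w, hw, e1⟩ := top_acyclic T k 2 z (ft_at T k hz) h0
  obtain ⟨j, hj⟩ := exists_FT T k (c + 1) w hw
  have hb : FT T k c (bb (iv sgm) 3 w) := by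
    rw [e1]
    exact hz
  have h1 := down T k he c j w hj hb
  refine ⟨prt T k (c + 1) w, w - prt T k (c + 1) w, prt_kt T k h1 (by omega) hb,
    prt_sub T k h1, ?_⟩
  rw [← map_add, add_sub_cancel]
  exact e1.symm

theorem m3 (c : ℤ) (K w : CC (WithTop T.V) (Vx T) k 4) (hK : KT T k (c + 1) K) (hw : FT T k c w)
    (h : bb (iv sgm) 3 K = bb (iv sgm) 3 w) : K = 0 := by
  obtain ⟨v, hv, e1⟩ := top_acyclic T k 3 (K - w)
    (at_sub T k (fun c' h => (hK.1 c' h).1) (ft_at T k hw)) (by rw [map_sub, h, sub_self])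
  have hv0 : v = 0 := by
    rw [← Finsupp.support_eq_empty]
    refine Finset.eq_empty_of_forall_notMem ?_
    rintro ⟨y, s⟩ hs
    exact (no5 T y.2 s).2 (hv _ hs)
  rw [hv0, map_zero] at e1
  have hKw : K = w := (sub_eq_zero.1 e1.symm)
  rw [← Finsupp.support_eq_empty]
  refine Finset.eq_empty_of_forall_notMem fun c' hc' => ?_
  have h1 := (hK.1 c' hc').2
  rw [hKw] at hc'
  have h2 := (hw c' hc').2
  omega

end

end Pool.Agent.H59.FS
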