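import Pool.Agent.H59.FS.MrB
import Pool.Agent.H59.FS.SlL

set_option autoImplicit false

/-!
# MP_5c3080_gt, row [H59 FS MrC]: bottom coordinates; cutting off the cubes with low bottom vertex

`FB T k β z`: the cubes of `z` (bottom coordinates) are allowed with top height `≤ β`.

`no_cube`: an allowed cube `c` with more than 4 directions is a cube of `Slc T (chi c.1) (chi c.1 + n)`, against `slc_dim`.
`down`: induction on `j` where all the cubes of `w` have bottom height `≥ α - j` (finite support). Let `j ≥ 1`,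
`c₀ = α - j`. For `chi x = c₀` the part `pt x w` is a cycle: `bb_low` (`h = chi`, `chi_sgm`) and `pt x (bb w) = 0`. By `up_exact`
(`l = x.2`) and `step` there is `v` with cubes at vertices of height exactly `c₀`, allowed, with `n + 2` directions, such that
`w + bb v` has no parts at heights `≤ c₀`. If `n + 2 ≤ 4` the top height of the cubes of `v` is `≤ c₀ + 4 ≤ β`, otherwise `v = 0`
(`no_cube`). So `w + bb v` is `FB β` (`bb_supp`, `ab_del`; the top height does not grow: `chi_sgm`), has the same boundary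
(`bb_bb`) and bottom heights `≥ c₀ + 1`.
`b0, b1, b2, b3`: from `m0, m1, m2, m3` by `flp`: if `z` is `FB β` then `z' := flp sgm z` is `FT β` (`flp_apply`, `ab_iff`, `pd_h`:
the height of the top vertex is `chi x + n`), `bb (iv sgm) z' = - flp sgm (bb sgm z)` (`flp_bb`). From `w'` with
`bb (iv sgm) w' = z'` put `w := - flp (iv sgm) w'`: `bb sgm w = z` (`flp_bb` for `iv sgm`; `iv (iv sgm) = sgm` by `inv_inv`;
`flp_flp`). For `b2` the family is `-K`: `kb K := bb sgm 3 (flp (iv sgm) 4 K)`.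
`kb_supp`: `kb K = - flp (iv sgm) (bb (iv sgm) K)`; by `kt_ft` and `bb_supp` the cubes of `bb (iv sgm) K` (top coordinates) have
height `≤ β` and are faces of cubes of height `β + 1`: the faces which do not move have height `β + 1`, so all have height
exactly `β`, and in bottom coordinates the bottom height is `β - 3`.
-/

namespace Pool.Agent.H59.FS

noncomputable section

variable {P : Type} [Group P] [Fintype P] {r : ℕ} {e : Fin r → Fin r → P → ℤ} (T : Tower P r e) (k : Type) [CommRing k]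

/-- allowed cubes with top height at most `β`, bottom coordinates -/
def FB (β : ℤ) {n : ℕ} (z : CC (WithTop T.V) (Vx T) k n) : Prop := ∀ c' ∈ z.support, AB T c' ∧ chi c'.1 + n ≤ β

/-- the 3-chain of the family `K` (given in top coordinates), bottom coordinates -/
def kb : CC (WithTop T.V) (Vx T) k 4 →ₗ[k] CC (WithTop T.V) (Vx T) k 3 := (bb sgm 3).comp (flp (iv sgm) 4)

theorem no_cube {n : ℕ} (hn : 4 < n) (c : Vx T × Chn (WithTop T.V) n) : ¬ AB T c := by
  intro h
  exact (slc_dim T (chi c.1) (chi c.1 + n) n hn).false ⟨⟨c, h⟩, le_refl _, le_refl _⟩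

private theorem c_bound (α : ℤ) {m : ℕ} (w : CC (WithTop T.V) (Vx T) k m) :
    ∃ j : ℕ, ∀ c' ∈ w.support, α - j ≤ chi c'.1 := by
  classical
  induction w.support using Finset.induction_on with
  | empty => exact ⟨0, fun c' hc' => absurd hc' (Finset.notMem_empty _)⟩
  | insert a s _ ih =>
    obtain ⟨j, hj⟩ := ih
    refine ⟨max j (α - chi a.1).toNat, fun c' hc' => ?_⟩
    rcases Finset.mem_insert.1 hc' with rfl | h
    · have h1 := Int.self_le_toNat (α - chi c'.1)
      push_cast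
      have h2 := le_max_right (j : ℤ) ((α - chi c'.1).toNat : ℤ)
      omega
    · have h1 := hj c' h
      push_cast
      have h2 := le_max_left (j : ℤ) ((α - chi a.1).toNat : ℤ)
      omega

theorem down (α β : ℤ) (h : α + 4 ≤ β) (n : ℕ) (w : CC (WithTop T.V) (Vx T) k (n + 1)) (hw : FB T k β w)
    (hb : ∀ c' ∈ (bb sgm n w).support, α ≤ chi c'.1) :
    ∃ w' : CC (WithTop T.V) (Vx T) k (n + 1),
      (∀ c' ∈ w'.support, AB T c' ∧ α ≤ chi c'.1 ∧ chi c'.1 + ((n + 1 : ℕ) : ℤ) ≤ β) ∧ bb sgm n w' = bb sgm n w := by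
  classical
  obtain ⟨j, hj⟩ := c_bound T k α w
  induction j generalizing w with
  | zero =>
    refine ⟨w, fun c' hc' => ⟨(hw c' hc').1, ?_, (hw c' hc').2⟩, rfl⟩
    have h1 := hj c' hc'
    push_cast at h1
    omega
  | succ j ih =>
    have hz : ∀ x : Vx T, chi x < α - ((j + 1 : ℕ) : ℤ) → pt x w = 0 := by
      intro x hx
      refine Finsupp.ext fun s => ?_
      rw [pt_apply, Finsupp.zero_apply]
      by_contra h1
      have h2 := hj (x, s) (Finsupp.mem_support_iff.2 h1)
      exact absurd hx (not_lt.2 h2)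
    have hbd : ∀ x : Vx T, chi x = α - ((j + 1 : ℕ) : ℤ) → ∃ κ' : Chn (WithTop T.V) (n + 1 + 1) →₀ k,
        Sp ((fun (m : ℕ) (y : Vx T) (s : Chn (WithTop T.V) m) => AB T (y, s)) (n + 1 + 1) x) κ' ∧
          bdc (WithTop T.V) k (n + 1) κ' = pt x w := by
      intro x hx
      refine up_exact T k x.2 n (pt x w) ?_ ?_
      · intro s hs
        rw [Finsupp.mem_support_iff, pt_apply] at hs
        exact (hw (x, s) (Finsupp.mem_support_iff.2 hs)).1
      · have h1 := bb_low (h := chi) (σ := sgm) chi_sgm w _ hz x hx.le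
        have h2 : pt x (bb sgm n w) = 0 := by
          refine Finsupp.ext fun s => ?_
          rw [pt_apply, Finsupp.zero_apply]
          by_contra h3
          have h4 := hb (x, s) (Finsupp.mem_support_iff.2 h3)
          change α ≤ chi x at h4
          push_cast at hx
          omega
        rw [h2] at h1
        exact neg_eq_zero.1 h1.symm
    obtain ⟨v, hv1, hv2⟩ := step (h := chi) (σ := sgm) chi_sgm
      (Al := fun (m : ℕ) (y : Vx T) (s : Chn (WithTop T.V) m) => AB T (y, s)) w _ hz hbd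
    have hbb : bb sgm n (w + bb sgm (n + 1) v) = bb sgm n w := by
      rw [map_add, bb_bb sgm_comm, add_zero]
    have hfb : FB T k β (w + bb sgm (n + 1) v) := by
      intro c' hc'
      rcases Finset.mem_union.1 (Finsupp.support_add hc') with h1 | h1
      · exact hw c' h1
      · obtain ⟨c'', hc'', i, hi⟩ := bb_supp v c' h1
        obtain ⟨h2, h3⟩ := hv1 c'' hc''
        have h4 := ab_del T c''.1 c''.2 i h2
        have h5 : n + 1 + 1 ≤ 4 := by
          by_contra h6
          exact no_cube T (not_le.1 h6) _ h2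
        have h7 : α - ((j + 1 : ℕ) : ℤ) + 1 + ((n + 1 : ℕ) : ℤ) ≤ β := by
          push_cast
          omega
        rcases hi with rfl | rfl
        · refine ⟨h4.1, ?_⟩
          change chi c''.1 + ((n + 1 : ℕ) : ℤ) ≤ β
          omega
        · refine ⟨h4.2, ?_⟩
          change chi (sgm (c''.2.1 i) c''.1) + ((n + 1 : ℕ) : ℤ) ≤ β
          rw [chi_sgm]
          omega
    obtain ⟨w', hw1, hw2⟩ := ih (w + bb sgm (n + 1) v) hfb (by rw [hbb]; exact hb) (by
      intro c' hc'
      by_contra h1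
      have h2 : pt c'.1 (w + bb sgm (n + 1) v) = 0 := by
        refine hv2 c'.1 ?_
        push_cast
        omega
      have h3 := DFunLike.congr_fun h2 c'.2
      rw [pt_apply] at h3
      exact (Finsupp.mem_support_iff.1 hc') h3)
    exact ⟨w', hw1, hw2.trans hbb⟩

private theorem iv_iv : iv (iv (sgm : WithTop T.V → Equiv.Perm (Vx T))) = sgm := by
  funext u
  exact inv_inv _

private theorem fb_ft (β : ℤ) {n : ℕ} {z : CC (WithTop T.V) (Vx T) k n} (hz : FB T k β z) :
    FT T k β (flp sgm n z) := by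
  rintro ⟨y, s⟩ hc'
  rw [Finsupp.mem_support_iff, flp_apply] at hc'
  obtain ⟨h1, h2⟩ := hz _ (Finsupp.mem_support_iff.2 hc')
  have h3 : pd sgm s ((pd sgm s)⁻¹ y) = y := (pd sgm s).apply_symm_apply y
  rw [ab_iff, h3] at h1
  refine ⟨h1, ?_⟩
  have h4 := pd_h (σ := sgm) (h := chi) chi_sgm s ((pd sgm s)⁻¹ y)
  rw [h3] at h4
  change chi y ≤ β
  rw [h4]
  exact h2

private theorem flp_iv_apply {n : ℕ} (z : CC (WithTop T.V) (Vx T) k n) (x : Vx T) (s : Chn (WithTop T.V) n) :
    flp (iv sgm) n z (x, s) = z (pd sgm s x, s) := by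
  rw [flp_apply, pd_inv sgm_comm, inv_inv]

private theorem ft_fb (β : ℤ) {n : ℕ} {z : CC (WithTop T.V) (Vx T) k n} (hz : FT T k β z) :
    FB T k β (flp (iv sgm) n z) := by
  rintro ⟨x, s⟩ hc'
  rw [Finsupp.mem_support_iff, flp_iv_apply] at hc'
  obtain ⟨h1, h2⟩ := hz _ (Finsupp.mem_support_iff.2 hc')
  refine ⟨(ab_iff T x s).2 h1, ?_⟩
  have h4 := pd_h (σ := sgm) (h := chi) chi_sgm s x
  change chi x + (n : ℤ) ≤ β
  rw [← h4]
  exact h2

private theorem fb_neg (β : ℤ) {n : ℕ} {z : CC (WithTop T.V) (Vx T) k n} (hz : FB T k β z) :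
    FB T k β (-z) := by
  intro c' hc'
  rw [Finsupp.support_neg] at hc'
  exact hz c' hc'

/-- the boundary of the chain which comes from top coordinates -/
private theorem bb_back (n : ℕ) (w' : CC (WithTop T.V) (Vx T) k (n + 1)) :
    bb sgm n (-flp (iv sgm) (n + 1) w') = flp (iv sgm) n (bb (iv sgm) n w') := by
  have h := flp_bb (σ := iv (sgm : WithTop T.V → Equiv.Perm (Vx T))) (iv_comm sgm_comm) n w'
  rw [iv_iv] at h
  rw [map_neg, h]

theorem b0 (he : IsIdem e) (β : ℤ) (z : CC (WithTop T.V) (Vx T) k 0) (hz : FB T k β z)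
    (h0 : (z.sum fun _ a => a) = 0) : ∃ w : CC (WithTop T.V) (Vx T) k 1, FB T k β w ∧ bb sgm 0 w = z := by
  have h1 : ((flp sgm 0 z).sum fun _ a => a) = 0 := by
    rw [← h0]
    unfold flp
    rw [Finsupp.lmapDomain_apply]
    exact Finsupp.sum_mapDomain_index (fun _ => rfl) (fun _ _ _ => rfl)
  obtain ⟨w', h2, h3⟩ := m0 T k he β (flp sgm 0 z) (fb_ft T k β hz) h1
  refine ⟨-flp (iv sgm) 1 w', fb_neg T k β (ft_fb T k β h2), ?_⟩
  rw [bb_back, h3, flp_flp sgm_comm]

theorem b1 (he : IsIdem e) (n : ℕ) (hn : n ≠ 2) (β : ℤ) (z : CC (WithTop T.V) (Vx T) k (n + 1)) (hz : FB T k β z)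
    (h0 : bb sgm n z = 0) : ∃ w : CC (WithTop T.V) (Vx T) k (n + 2), FB T k β w ∧ bb sgm (n + 1) w = z := by
  have h1 : bb (iv sgm) n (flp sgm (n + 1) z) = 0 := by
    have h := flp_bb sgm_comm n z
    rw [h0, map_zero] at h
    exact neg_eq_zero.1 h.symm
  obtain ⟨w', h2, h3⟩ := m1 T k he n hn β (flp sgm (n + 1) z) (fb_ft T k β hz) h1
  refine ⟨-flp (iv sgm) (n + 2) w', fb_neg T k β (ft_fb T k β h2), ?_⟩
  rw [bb_back, h3, flp_flp sgm_comm]

theorem b2 (he : IsIdem e) (β : ℤ) (z : CC (WithTop T.V) (Vx T) k 3) (hz : FB T k β z) (h0 : bb sgm 2 z = 0) :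
    ∃ K w : CC (WithTop T.V) (Vx T) k 4, KT T k (β + 1) K ∧ FB T k β w ∧ z = kb T k K + bb sgm 3 w := by
  have h1 : bb (iv sgm) 2 (flp sgm 3 z) = 0 := by
    have h := flp_bb sgm_comm 2 z
    rw [h0, map_zero] at h
    exact neg_eq_zero.1 h.symm
  obtain ⟨K, w', h2, h3, h4⟩ := m2 T k he β (flp sgm 3 z) (fb_ft T k β hz) h1
  refine ⟨-K, -flp (iv sgm) 4 w', ⟨?_, ?_⟩, fb_neg T k β (ft_fb T k β h3), ?_⟩
  · intro c' hc'
    rw [Finsupp.support_neg] at hc'
    exact h2.1 c' hc'
  · intro y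
    rw [map_neg, map_neg, h2.2 y, neg_zero]
  · have h5 := congrArg (flp (iv sgm) 3) h4
    rw [flp_flp sgm_comm, map_add, ← bb_back, ← bb_back] at h5
    rw [h5]
    congr 1
    have h6 : flp (iv sgm) 4 (-K) = -flp (iv sgm) 4 K := map_neg _ _
    change bb sgm 3 (-flp (iv sgm) 4 K) = bb sgm 3 (flp (iv sgm) 4 (-K))
    rw [h6]

theorem b3 (β : ℤ) (K w : CC (WithTop T.V) (Vx T) k 4) (hK : KT T k (β + 1) K) (hw : FB T k β w)
    (h : kb T k K = bb sgm 3 w) : K = 0 := by
  refine m3 T k β K (flp sgm 4 w) hK (fb_ft T k β hw) ?_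
  change bb sgm 3 (flp (iv sgm) 4 K) = bb sgm 3 w at h
  have h1 := congrArg (flp sgm 3) h
  rw [flp_bb sgm_comm, flp_bb sgm_comm, flp_flp' sgm_comm] at h1
  exact neg_injective h1

theorem kb_supp (β : ℤ) (K : CC (WithTop T.V) (Vx T) k 4) (hK : KT T k (β + 1) K) :
    (∀ c' ∈ (kb T k K).support, AB T c' ∧ chi c'.1 = β - 3) ∧ bb sgm 2 (kb T k K) = 0 := by
  refine ⟨?_, bb_bb sgm_comm 2 _⟩
  have h1 : kb T k K = -flp (iv sgm) 3 (bb (iv sgm) 3 K) := by
    rw [← bb_back]
    change bb sgm 3 (flp (iv sgm) 4 K) = -bb sgm 3 (-flp (iv sgm) 4 K)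
    rw [map_neg, neg_neg]
  rw [h1]
  rintro ⟨x, s⟩ hc'
  rw [Finsupp.support_neg, Finsupp.mem_support_iff, flp_iv_apply] at hc'
  have hmem := Finsupp.mem_support_iff.2 hc'
  obtain ⟨h2, h3⟩ := kt_ft T k β K hK _ hmem
  refine ⟨(ab_iff T x s).2 h2, ?_⟩
  have h4 := pd_h (σ := sgm) (h := chi) chi_sgm s x
  change chi (pd sgm s x) ≤ β at h3
  change chi x = β - 3
  obtain ⟨c'', hc'', i, hi⟩ := bb_supp K _ hmem
  have h5 := (hK.1 c'' hc'').2
  rcases hi with hi | hi
  · have h6 : pd sgm s x = c''.1 := congrArg Prod.fst hi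
    rw [h6] at h3
    omega
  · have h6 : pd sgm s x = iv sgm (c''.2.1 i) c''.1 := congrArg Prod.fst hi
    have h7 := chi_iv (c''.2.1 i) c''.1
    rw [← h6] at h7
    push_cast at h4
    omega

end

end Pool.Agent.H59.FS
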