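import Pool.Agent.H59.FS.MrC

set_option autoImplicit false

/-!
# MP_5c3080_gt, row [H59 FS MrD]: the homology of the slices

All from MrC.lean and the transfer `sc` (Cnc.lean). `s0`, `s1`: `sc z` is `FB β` (`sc_supp`), a cycle (`sc_bd`), so `bb sgm w` with
`w` `FB β`; its boundary `sc z` has bottom heights `≥ α` (`sc_supp`), so `down` gives `w'` in the slice, `sc_surj` gives `w''` and
`sc_inj` the claim. `s2` the same: `b2`, and `bb sgm w = sc z - kb K` has bottom heights `≥ α` by `kb_supp` (`β - 3 ≥ α`).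
`s2'`: `sc_surj` for `kb K` (`kb_supp`: `chi + 3 = β`), the boundary is zero by `sc_bd`, `sc_inj`. `s3`: `sc (bd w) = bb sgm (sc w)`, `b3`.
-/

namespace Pool.Agent.H59.FS

noncomputable section

variable {P : Type} [Group P] [Fintype P] {r : ℕ} {e : Fin r → Fin r → P → ℤ} (T : Tower P r e) (k : Type) [CommRing k]

private theorem sc_fb (α β : ℤ) {n : ℕ} (z : (Slc T α β).cub n →₀ k) : FB T k β (sc T k α β n z) := by
  intro c' hc'
  obtain ⟨h1, -, h3⟩ := sc_supp T k α β n z c' hc'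
  exact ⟨h1, h3⟩

/-- a boundary in the slice -/
private theorem sc_range (α β : ℤ) (h : α + 4 ≤ β) (n : ℕ) (z : (Slc T α β).cub n →₀ k)
    (w : CC (WithTop T.V) (Vx T) k (n + 1)) (hw : FB T k β w) (h1 : bb sgm n w = sc T k α β n z) :
    z ∈ LinearMap.range ((Slc T α β).bd k n) := by
  obtain ⟨w', hw1, hw2⟩ := down T k α β h n w hw (by
    rw [h1]
    exact fun c' hc' => (sc_supp T k α β n z c' hc').2.1)
  obtain ⟨w'', hw3⟩ := sc_surj T k α β (n + 1) w' hw1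
  refine ⟨w'', sc_inj T k α β n ?_⟩
  rw [sc_bd, hw3, hw2, h1]

theorem s0 (he : IsIdem e) (α β : ℤ) (h : α + 4 ≤ β) (z : (Slc T α β).cub 0 →₀ k) (h0 : (z.sum fun _ a => a) = 0) :
    z ∈ LinearMap.range ((Slc T α β).bd k 0) := by
  obtain ⟨w, hw, h1⟩ := b0 T k he β (sc T k α β 0 z) (sc_fb T k α β z) (by rw [sc_sum, h0])
  exact sc_range T k α β h 0 z w hw h1

theorem s1 (he : IsIdem e) (α β : ℤ) (h : α + 4 ≤ β) (n : ℕ) (hn : n ≠ 2) (z : (Slc T α β).cub (n + 1) →₀ k)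
    (h0 : (Slc T α β).bd k n z = 0) : z ∈ LinearMap.range ((Slc T α β).bd k (n + 1)) := by
  obtain ⟨w, hw, h1⟩ := b1 T k he n hn β (sc T k α β (n + 1) z) (sc_fb T k α β z)
    (by rw [← sc_bd, h0, map_zero])
  exact sc_range T k α β h (n + 1) z w hw h1

theorem s2 (he : IsIdem e) (α β : ℤ) (h : α + 4 ≤ β) (z : (Slc T α β).cub 3 →₀ k) (h0 : (Slc T α β).bd k 2 z = 0) :
    ∃ (K : CC (WithTop T.V) (Vx T) k 4) (w : (Slc T α β).cub 4 →₀ k), KT T k (β + 1) K ∧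
      sc T k α β 3 (z - (Slc T α β).bd k 3 w) = kb T k K := by
  classical
  obtain ⟨K, w, hK, hw, h1⟩ := b2 T k he β (sc T k α β 3 z) (sc_fb T k α β z) (by rw [← sc_bd, h0, map_zero])
  have h2 : bb sgm 3 w = sc T k α β 3 z - kb T k K := by
    rw [h1]
    abel
  obtain ⟨w', hw1, hw2⟩ := down T k α β h 3 w hw (by
    rw [h2]
    intro c' hc'
    rcases Finset.mem_union.1 (Finsupp.support_sub hc') with h3 | h3
    · exact (sc_supp T k α β 3 z c' h3).2.1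
    · have h4 := ((kb_supp T k β K hK).1 c' h3).2
      omega)
  obtain ⟨w'', hw3⟩ := sc_surj T k α β 4 w' hw1
  refine ⟨K, w'', hK, ?_⟩
  rw [map_sub, sc_bd, hw3, hw2, h2]
  abel

theorem s2' (α β : ℤ) (h : α + 4 ≤ β) (K : CC (WithTop T.V) (Vx T) k 4) (hK : KT T k (β + 1) K) :
    ∃ z : (Slc T α β).cub 3 →₀ k, sc T k α β 3 z = kb T k K ∧ (Slc T α β).bd k 2 z = 0 := by
  obtain ⟨h1, h2⟩ := kb_supp T k β K hK
  obtain ⟨z, hz⟩ := sc_surj T k α β 3 (kb T k K) (by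
    intro c' hc'
    obtain ⟨h3, h4⟩ := h1 c' hc'
    refine ⟨h3, by omega, ?_⟩
    rw [h4]
    push_cast
    omega)
  refine ⟨z, hz, sc_inj T k α β 2 ?_⟩
  rw [sc_bd, hz, h2, map_zero]

theorem s3 (α β : ℤ) (K : CC (WithTop T.V) (Vx T) k 4) (hK : KT T k (β + 1) K) (w : (Slc T α β).cub 4 →₀ k)
    (h : kb T k K = sc T k α β 3 ((Slc T α β).bd k 3 w)) : K = 0 := by
  refine b3 T k β K (sc T k α β 4 w) hK (sc_fb T k α β w) ?_
  rw [h, sc_bd]

end

end Pool.Agent.H59.FS
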