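import Pool.Agent.H59.FS.Blk

set_option autoImplicit false

/-!
# MP_5c3080_gt, row [H59 FS Sys]: cubical chains in vertex coordinates

`CC W X k n = (X × Chn W n) →₀ k`: combinations of cubes `(x, s)`, `x` a vertex, `s` a chain of directions with `n` elements.
`σ u` moves the vertex in the direction `u`. `bb σ (x, s) = Σ_i (-1)^i ((σ (s i) x, s.del i) - (x, s.del i))`.
`pt x z` is the part of `z` at the vertex `x` (`pt x z s = z (x, s)`), `ins x κ` the chain `κ` at the vertex `x`.

Proofs. `bb_low`: let `h (σ u x) = h x + 1`, `z` without cubes at vertices with `h < c`, `h x ≤ c`. Linear in `z`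
(`Finsupp.sum` over the support; or `Finsupp.induction_linear` for the statement about the span of the allowed cubes): for
`z = single (x', s) a`, `h x' ≥ c`: the value of the moved terms at `x` is zero because `h (σ (s i) x') ≥ c + 1`, the value of
the other terms is `- bdc` of `single s a` if `x' = x`, `0` otherwise.
`bb_bb`: enough for `z = single (x, s) 1`: with `A_i (x, s) = (σ (s i) x, s.del i)`, `B_i (x, s) = (x, s.del i)` the cubical
identities `F_i F'_(j.succ) = F'_j F_(i.castSucc)` for `i ≤ j`, `F, F' ∈ {A, B}` (`del_del` of Zed.lean and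
`(s.del j.succ) i = s i.castSucc`, `(s.del i.castSucc) j = s j.succ`, hypothesis `hc`), then the usual cancellation of the double
sum (any proof for precubical sets; for instance `Finset.sum_involution` or as for simplicial sets).
`step`: choose `κ' x` for the `x` with `h x = c`, `pt x z ≠ 0` (finitely many), `w := Σ_x ins x (κ' x)`; for `h x ≤ c`:
`pt x (bb w) = - bdc (pt x w) = - pt x z` if `h x = c` (`bb_low` for `w`), and `0` if `h x < c`.
`bb_supp`: a cube in the support of `bb z` is a face of a cube in the support of `z`.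
-/

namespace Pool.Agent.H59.FS

private theorem alt_sum {M : Type} [AddCommGroup M] {n : ℕ} (f : Fin (n + 2) → Fin (n + 1) → M)
    (h : ∀ i j : Fin (n + 1), i ≤ j → f j.succ i = - f i.castSucc j) : ∑ a, ∑ b, f a b = 0 := by
  have h1 : ∀ (a : Fin (n + 2)) (b : Fin (n + 1)), f a b =
      (if b.castSucc < a then f a b else 0) + (if a ≤ b.castSucc then f a b else 0) := by
    intro a b
    by_cases hc : b.castSucc < a
    · rw [if_pos hc, if_neg (not_le.2 hc), add_zero]
    · rw [if_neg hc, if_pos (not_lt.1 hc), zero_add]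
  have h2 : ∑ a, ∑ b, f a b = (∑ a, ∑ b : Fin (n + 1), if b.castSucc < a then f a b else 0) +
      ∑ a, ∑ b : Fin (n + 1), if a ≤ b.castSucc then f a b else 0 := by
    rw [← Finset.sum_add_distrib]
    refine Finset.sum_congr rfl fun a _ => ?_
    rw [← Finset.sum_add_distrib]
    exact Finset.sum_congr rfl fun b _ => h1 a b
  have h3 : (∑ a, ∑ b : Fin (n + 1), if b.castSucc < a then f a b else 0) =
      ∑ j : Fin (n + 1), ∑ i : Fin (n + 1), if i ≤ j then f j.succ i else 0 := by
    rw [Fin.sum_univ_succ]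
    have h4 : (∑ b : Fin (n + 1), if b.castSucc < (0 : Fin (n + 2)) then f 0 b else 0) = 0 :=
      Finset.sum_eq_zero fun b _ => if_neg (Fin.not_lt_zero _)
    rw [h4, zero_add]
    refine Finset.sum_congr rfl fun j _ => Finset.sum_congr rfl fun i _ => ?_
    have h5 : i.castSucc < j.succ ↔ i ≤ j := by
      rw [Fin.lt_def, Fin.le_def]
      simp only [Fin.val_castSucc, Fin.val_succ]
      omega
    simp only [h5]
  have h6 : (∑ a, ∑ b : Fin (n + 1), if a ≤ b.castSucc then f a b else 0) =
      ∑ i : Fin (n + 1), ∑ j : Fin (n + 1), if i ≤ j then f i.castSucc j else 0 := by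
    rw [Fin.sum_univ_castSucc]
    have h4 : (∑ b : Fin (n + 1), if Fin.last (n + 1) ≤ b.castSucc then f (Fin.last (n + 1)) b
        else 0) = 0 :=
      Finset.sum_eq_zero fun b _ => if_neg (not_le.2 (Fin.castSucc_lt_last b))
    rw [h4, add_zero]
    refine Finset.sum_congr rfl fun i _ => Finset.sum_congr rfl fun j _ => ?_
    simp only [Fin.castSucc_le_castSucc_iff]
  rw [h2, h3, h6, Finset.sum_comm, ← Finset.sum_add_distrib]
  refine Finset.sum_eq_zero fun i _ => ?_
  rw [← Finset.sum_add_distrib]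
  refine Finset.sum_eq_zero fun j _ => ?_
  by_cases hc : i ≤ j
  · rw [if_pos hc, if_pos hc, h i j hc, neg_add_cancel]
  · rw [if_neg hc, if_neg hc, add_zero]

noncomputable section

section
variable (W X : Type) [PartialOrder W] (k : Type) [CommRing k]

/-- chains in vertex coordinates -/
abbrev CC (n : ℕ) : Type := (X × Chn W n) →₀ k

end

section
variable {W X : Type} [PartialOrder W] {k : Type} [CommRing k] (σ : W → Equiv.Perm X)

/-- the boundary -/
def bb (n : ℕ) : CC W X k (n + 1) →ₗ[k] CC W X k n :=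
  Finsupp.linearCombination k fun c => ∑ i : Fin (n + 1), (-1 : k) ^ (i : ℕ) •
    (Finsupp.single (σ (c.2.1 i) c.1, c.2.del i) (1 : k) - Finsupp.single (c.1, c.2.del i) (1 : k))

/-- the part at the vertex `x` -/
def pt {n : ℕ} (x : X) : CC W X k n →ₗ[k] (Chn W n →₀ k) :=
  Finsupp.lcomapDomain (fun s : Chn W n => (x, s)) fun _ _ h => congrArg Prod.snd h

/-- the chain `κ` at the vertex `x` -/
def ins {n : ℕ} (x : X) : (Chn W n →₀ k) →ₗ[k] CC W X k n :=
  Finsupp.lmapDomain k k fun s : Chn W n => (x, s)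

theorem pt_apply {n : ℕ} (x : X) (z : CC W X k n) (s : Chn W n) : pt x z s = z (x, s) := rfl

theorem ins_single {n : ℕ} (x : X) (s : Chn W n) (a : k) :
    ins x (Finsupp.single s a) = Finsupp.single (x, s) a := by
  unfold ins
  rw [Finsupp.lmapDomain_apply, Finsupp.mapDomain_single]

variable {σ}

private theorem mk_inj {n : ℕ} (x : X) : Function.Injective (fun s : Chn W n => (x, s)) :=
  fun _ _ h => congrArg Prod.snd h

theorem pt_ins {n : ℕ} (x : X) (κ : Chn W n →₀ k) : pt x (ins x κ) = κ := by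
  ext s
  rw [pt_apply]
  unfold ins
  rw [Finsupp.lmapDomain_apply]
  exact Finsupp.mapDomain_apply (mk_inj x) κ s

theorem pt_ins_ne {n : ℕ} {x y : X} (h : x ≠ y) (κ : Chn W n →₀ k) : pt y (ins x κ) = 0 := by
  ext s
  rw [pt_apply]
  unfold ins
  rw [Finsupp.lmapDomain_apply, Finsupp.mapDomain_of_notMem_range]
  · rfl
  · rintro ⟨t, ht⟩
    exact h (congrArg Prod.fst ht)

open Classical in
private theorem pt_single {n : ℕ} (x y : X) (t : Chn W n) (a : k) :
    pt x (Finsupp.single (y, t) a) = if y = x then Finsupp.single t a else 0 := by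
  rw [← ins_single]
  split_ifs with h
  · rw [h, pt_ins]
  · rw [pt_ins_ne h]

private theorem bb_single {n : ℕ} (x : X) (s : Chn W (n + 1)) (a : k) :
    bb σ n (Finsupp.single (x, s) a) = a • ∑ i : Fin (n + 1), (-1 : k) ^ (i : ℕ) •
      (Finsupp.single (σ (s.1 i) x, s.del i) (1 : k) - Finsupp.single (x, s.del i) (1 : k)) := by
  unfold bb
  rw [Finsupp.linearCombination_single]

private theorem bdc_single' {n : ℕ} (s : Chn W (n + 1)) (a : k) :
    bdc W k n (Finsupp.single s a) =
      a • ∑ i : Fin (n + 1), (-1 : k) ^ (i : ℕ) • Finsupp.single (s.del i) (1 : k) := by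
  unfold bdc
  rw [Finsupp.linearCombination_single]

theorem bb_low {h : X → ℤ} (hh : ∀ u x, h (σ u x) = h x + 1) {n : ℕ} (z : CC W X k (n + 1)) (c : ℤ)
    (hz : ∀ x, h x < c → pt x z = 0) (x : X) (hx : h x ≤ c) : pt x (bb σ n z) = - bdc W k n (pt x z) := by
  classical
  set L : CC W X k (n + 1) →ₗ[k] (Chn W n →₀ k) :=
    (pt x).comp (bb σ n) + (bdc W k n).comp (pt x) with hL
  have hLz : L z = 0 := by
    have h1 : L z = z.sum fun c' a => L (Finsupp.single c' a) := by
      conv_lhs => rw [← Finsupp.sum_single z]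
      exact map_finsuppSum L z _
    rw [h1]
    apply Finset.sum_eq_zero
    rintro ⟨x', s⟩ hc'
    have hx' : c ≤ h x' := by
      by_contra hlt
      have h2 := hz x' (not_le.1 hlt)
      rw [Finsupp.mem_support_iff] at hc'
      apply hc'
      have h3 := DFunLike.congr_fun h2 s
      rw [pt_apply] at h3
      exact h3
    change L (Finsupp.single (x', s) (z (x', s))) = 0
    generalize z (x', s) = a
    rw [hL, LinearMap.add_apply, LinearMap.comp_apply, LinearMap.comp_apply, bb_single, map_smul,
      map_sum, pt_single]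
    have h4 : ∀ i : Fin (n + 1), pt x ((-1 : k) ^ (i : ℕ) •
        (Finsupp.single (σ (s.1 i) x', s.del i) (1 : k) - Finsupp.single (x', s.del i) (1 : k))) =
        -((-1 : k) ^ (i : ℕ) • if x' = x then Finsupp.single (s.del i) (1 : k) else 0) := by
      intro i
      rw [map_smul, map_sub, pt_single, pt_single, if_neg, zero_sub, smul_neg]
      intro h5
      have h6 := hh (s.1 i) x'
      rw [h5] at h6
      omega
    rw [Finset.sum_congr rfl fun i _ => h4 i, Finset.sum_neg_distrib, smul_neg]
    split_ifs with h5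
    · rw [bdc_single', neg_add_cancel]
    · simp
  rw [hL, LinearMap.add_apply, LinearMap.comp_apply, LinearMap.comp_apply] at hLz
  exact eq_neg_of_add_eq_zero_left hLz

theorem bb_bb (hc : ∀ u w, u < w → ∀ x, σ w (σ u x) = σ u (σ w x)) (n : ℕ) (z : CC W X k (n + 2)) :
    bb σ n (bb σ (n + 1) z) = 0 := by
  have h : (bb σ n).comp (bb σ (n + 1)) = (0 : CC W X k (n + 2) →ₗ[k] CC W X k n) := by
    apply Finsupp.lhom_ext'
    rintro ⟨x, s⟩
    apply LinearMap.ext_ring
    simp only [LinearMap.comp_apply, Finsupp.lsingle_apply, LinearMap.zero_apply]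
    rw [bb_single, one_smul, map_sum]
    simp only [map_smul, map_sub, bb_single, one_smul, smul_sub, Finset.smul_sum,
      ← Finset.sum_sub_distrib]
    apply alt_sum
    intro i j hij
    have h1 := del_del s hij
    have h2 : (s.del j.succ).1 i = s.1 i.castSucc :=
      congrArg s.1 (Fin.succAbove_of_castSucc_lt _ _
        (lt_of_le_of_lt (Fin.castSucc_le_castSucc_iff.2 hij) Fin.castSucc_lt_succ))
    have h3 : (s.del i.castSucc).1 j = s.1 j.succ :=
      congrArg s.1 (Fin.succAbove_of_le_castSucc _ _ (Fin.castSucc_le_castSucc_iff.2 hij))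
    have h4 : s.1 i.castSucc < s.1 j.succ := s.2 (by
      rw [Fin.lt_def]
      simp only [Fin.val_castSucc, Fin.val_succ]
      exact Nat.lt_succ_of_le hij)
    rw [h1, h2, h3, hc _ _ h4]
    have e1 : ((-1 : k) ^ ((j.succ : Fin (n + 2)) : ℕ)) = -((-1 : k) ^ (j : ℕ)) := by
      rw [Fin.val_succ, pow_succ]
      ring
    have e2 : ((-1 : k) ^ ((i.castSucc : Fin (n + 2)) : ℕ)) = (-1 : k) ^ (i : ℕ) := by
      rw [Fin.val_castSucc]
    rw [e1, e2]
    simp only [smul_smul, neg_smul, neg_mul, mul_comm ((-1 : k) ^ (j : ℕ)) ((-1 : k) ^ (i : ℕ))]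
    abel
  exact LinearMap.congr_fun h z

/-- one step of the filtration by the height: if the parts `pt x z`, `h x = c`, are boundaries of allowed chains
(`Al n x s`), they can be removed -/
theorem step {h : X → ℤ} (hh : ∀ u x, h (σ u x) = h x + 1) {Al : ∀ n : ℕ, X → Chn W n → Prop} {n : ℕ}
    (z : CC W X k n) (c : ℤ) (hz : ∀ x, h x < c → pt x z = 0)
    (hb : ∀ x, h x = c → ∃ κ' : Chn W (n + 1) →₀ k, Sp (Al (n + 1) x) κ' ∧ bdc W k n κ' = pt x z) :
    ∃ w : CC W X k (n + 1), (∀ c' ∈ w.support, Al (n + 1) c'.1 c'.2 ∧ h c'.1 = c) ∧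
      ∀ x, h x ≤ c → pt x (z + bb σ n w) = 0 := by
  classical
  choose! κ hκ1 hκ2 using hb
  set S : Finset X := (z.support.image Prod.fst).filter (fun x => h x = c) with hS
  have hSc : ∀ x ∈ S, h x = c := fun x hx => (Finset.mem_filter.1 hx).2
  set w : CC W X k (n + 1) := ∑ x ∈ S, ins x (κ x) with hw
  have hptw : ∀ y, pt y w = if y ∈ S then κ y else 0 := by
    intro y
    rw [hw, map_sum]
    split_ifs with hy
    · rw [Finset.sum_eq_single y]
      · exact pt_ins y _
      · intro x _ hxy
        exact pt_ins_ne hxy _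
      · intro hyn
        exact absurd hy hyn
    · apply Finset.sum_eq_zero
      intro x hx
      exact pt_ins_ne (x := x) (y := y) (fun hxy : x = y => hy (hxy ▸ hx)) (κ x)
  refine ⟨w, ?_, ?_⟩
  · rintro ⟨x, s⟩ hxs
    rw [Finsupp.mem_support_iff] at hxs
    have h1 : (pt x w) s ≠ 0 := hxs
    rw [hptw] at h1
    split_ifs at h1 with hx
    · exact ⟨hκ1 x (hSc x hx) s (Finsupp.mem_support_iff.2 h1), hSc x hx⟩
    · exact absurd rfl h1
  · intro x hx
    have hwl : ∀ y, h y < c → pt y w = 0 := by
      intro y hy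
      rw [hptw, if_neg]
      intro hyS
      have := hSc y hyS
      omega
    rw [map_add, bb_low hh w c hwl x hx, hptw]
    split_ifs with hxS
    · rw [hκ2 x (hSc x hxS), add_neg_cancel]
    · rw [map_zero, neg_zero, add_zero]
      rcases lt_or_eq_of_le hx with h1 | h1
      · exact hz x h1
      · ext s
        rw [pt_apply]
        by_contra h2
        apply hxS
        exact Finset.mem_filter.2 ⟨Finset.mem_image.2 ⟨(x, s), Finsupp.mem_support_iff.2 h2, rfl⟩, h1⟩

/-- the support of the boundary -/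
theorem bb_supp {n : ℕ} (z : CC W X k (n + 1)) (c : X × Chn W n) (hc : c ∈ (bb σ n z).support) :
    ∃ c' ∈ z.support, ∃ i : Fin (n + 1), c = (c'.1, c'.2.del i) ∨ c = (σ (c'.2.1 i) c'.1, c'.2.del i) := by
  classical
  rw [Finsupp.mem_support_iff] at hc
  unfold bb at hc
  rw [Finsupp.linearCombination_apply, Finsupp.sum, Finsupp.finsetSum_apply] at hc
  obtain ⟨c', hc', h1⟩ := Finset.exists_ne_zero_of_sum_ne_zero hc
  refine ⟨c', hc', ?_⟩
  rw [Finsupp.smul_apply, Finsupp.finsetSum_apply] at h1
  have h2 := right_ne_zero_of_smul h1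
  obtain ⟨i, -, h3⟩ := Finset.exists_ne_zero_of_sum_ne_zero h2
  refine ⟨i, ?_⟩
  by_contra hcon
  push Not at hcon
  apply h3
  rw [Finsupp.smul_apply, Finsupp.sub_apply, Finsupp.single_eq_of_ne hcon.2,
    Finsupp.single_eq_of_ne hcon.1, sub_zero, smul_zero]

end

end

end Pool.Agent.H59.FS
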