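import Pool.Agent.H59.FS.Slc
import Pool.Agent.H3.RA.Pot

set_option autoImplicit false

/-!
# MP_5c3080_gt, row [H59 FS ZdC]: `Zed T` is connected and simply connected

The proof is in the head of SlC.lean (`zed_sc`, `zed_conn`).
-/

namespace Pool.Agent.H59.FS

open Pool.Agent.H3.RA
open scoped Classical

variable {P : Type} [Group P] [Fintype P] {r : ℕ} {e : Fin r → Fin r → P → ℤ} (T : Tower P r e)

/-- the direction is allowed at the level `l` -/
def OkD (l : ℤ) (u : WithTop T.V) : Prop := ∀ v : T.V, u = ↑v → v ∈ T.M l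

/-- the pair of directions is allowed at the level `l` -/
def OkP (l : ℤ) (u w : WithTop T.V) : Prop :=
  (u < w ∨ w < u) ∧ OkD T l u ∧ OkD T l w ∧ (u = ⊤ → OkD T (l + 1) w) ∧ (w = ⊤ → OkD T (l + 1) u)

variable {T}

theorem OkP.symm {l : ℤ} {u w : WithTop T.V} (h : OkP T l u w) : OkP T l w u :=
  ⟨h.1.symm, h.2.2.1, h.2.1, h.2.2.2.2, h.2.2.2.1⟩

theorem okD_top (l : ℤ) : OkD T l ⊤ := fun _ hv => absurd hv WithTop.top_ne_coe

theorem okD_coe {l : ℤ} {v : T.V} : OkD T l (v : WithTop T.V) ↔ v ∈ T.M l :=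
  ⟨fun h => h v rfl, fun h v' hv' => by rw [← WithTop.coe_injective hv']; exact h⟩

theorem stp_swap (x : RA T.V × ℤ) {u w : WithTop T.V} (h : u < w ∨ w < u) : stp (stp x u) w = stp (stp x w) u :=
  h.elim (fun h => stp_comm x h) (fun h => (stp_comm x h).symm)

/-- the square relation for a function on the edges, in the slice `[α, β]` -/
def SQ {H : Type} [Group H] (α β : ℤ) (f : (RA T.V × ℤ) × WithTop T.V → H) : Prop :=
  ∀ (x : RA T.V × ℤ) (u w : WithTop T.V), OkP T x.2 u w → α ≤ chi x → chi x + 2 ≤ β →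
    f (x, u) * f (stp x u, w) = f (x, w) * f (stp x w, u)

/-- **potentials** on `Zed T` -/
theorem sq_pot {H : Type} [Group H] (f : (RA T.V × ℤ) × WithTop T.V → H) (hf : ∀ α β, SQ α β f) :
    ∃ h : RA T.V × ℤ → H, ∀ x u, OkD T x.2 u → f (x, u) = (h x)⁻¹ * h (stp x u) := by
  have hf' : ∀ (x : RA T.V × ℤ) (u w : WithTop T.V), OkP T x.2 u w →
      f (x, u) * f (stp x u, w) = f (x, w) * f (stp x w, u) :=
    fun x u w h => hf (chi x) (chi x + 2) x u w h le_rfl le_rfl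
  -- the lines
  have h1 : ∀ a : RA T.V, ∃ τ : ℤ → H, ∀ l, τ (l + 1) = τ l * f ((a, l), ⊤) := fun a => exists_line _
  choose τ hτ using h1
  -- a level of each `v`
  have h2 : ∀ v : T.V, ∃ j, v ∈ T.M j := fun v => (T.cov v v le_rfl).imp fun _ h => h.1
  choose lv hlv using h2
  -- the value does not depend on the level
  let F' : RA T.V → T.V → ℤ → H := fun a v j => τ a j * f ((a, j), (v : WithTop T.V)) * (τ (a * gn v) j)⁻¹
  have hF1 : ∀ a v j, v ∈ T.M j → v ∈ T.M (j + 1) → F' a v (j + 1) = F' a v j := by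
    intro a v j h3 h4
    have h5 := hf' (a, j) ↑v ⊤ ⟨Or.inl (WithTop.coe_lt_top v), okD_coe.2 h3, okD_top _, fun h => absurd h WithTop.coe_ne_top,
      fun _ => okD_coe.2 h4⟩
    change f ((a, j), ↑v) * f ((a * gn v, j), ⊤) = f ((a, j), ⊤) * f ((a, j + 1), ↑v) at h5
    change τ a (j + 1) * f ((a, j + 1), ↑v) * (τ (a * gn v) (j + 1))⁻¹ = τ a j * f ((a, j), ↑v) * (τ (a * gn v) j)⁻¹
    rw [hτ, hτ, mul_assoc (τ a j), ← h5]
    group
  have hF2 : ∀ a v j (m : ℕ), v ∈ T.M j → v ∈ T.M (j + m) → F' a v (j + m) = F' a v j := by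
    intro a v j m h3
    induction m with
    | zero => intro _; simp
    | succ m ih =>
      intro h4
      have h5 : v ∈ T.M (j + m) := T.conv v j (j + m) (j + (m + 1 : ℕ)) (by omega) (by push_cast; omega) h3 h4
      have h6 : j + ((m + 1 : ℕ) : ℤ) = j + m + 1 := by push_cast; ring
      rw [h6] at h4 ⊢
      rw [hF1 a v (j + m) h5 h4, ih h5]
  have hF : ∀ a v j j', v ∈ T.M j → v ∈ T.M j' → F' a v j = F' a v j' := by
    intro a v j j' h3 h4
    rcases le_total j j' with h5 | h5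
    · obtain ⟨m, rfl⟩ := Int.le.dest h5
      exact (hF2 a v j m h3 h4).symm
    · obtain ⟨m, rfl⟩ := Int.le.dest h5
      exact hF2 a v j' m h4 h3
  -- the potential on `RA V`
  have hcomm : ∀ a v w, v < w → F' a v (lv v) * F' (a * gn v) w (lv w) = F' a w (lv w) * F' (a * gn w) v (lv v) := by
    intro a v w hvw
    obtain ⟨j, hj1, hj2⟩ := T.cov v w hvw.le
    rw [hF a v (lv v) j (hlv v) hj1, hF (a * gn v) w (lv w) j (hlv w) hj2, hF a w (lv w) j (hlv w) hj2,
      hF (a * gn w) v (lv v) j (hlv v) hj1]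
    have h5 := hf' (a, j) ↑v ↑w ⟨Or.inl (WithTop.coe_lt_coe.2 hvw), okD_coe.2 hj1, okD_coe.2 hj2,
      fun h => absurd h WithTop.coe_ne_top, fun h => absurd h WithTop.coe_ne_top⟩
    change f ((a, j), ↑v) * f ((a * gn v, j), ↑w) = f ((a, j), ↑w) * f ((a * gn w, j), ↑v) at h5
    have h6 : a * gn v * gn w = a * gn w * gn v := by rw [mul_assoc, gn_comm hvw, mul_assoc]
    change τ a j * f ((a, j), ↑v) * (τ (a * gn v) j)⁻¹ * (τ (a * gn v) j * f ((a * gn v, j), ↑w) *
      (τ (a * gn v * gn w) j)⁻¹) = τ a j * f ((a, j), ↑w) * (τ (a * gn w) j)⁻¹ * (τ (a * gn w) j *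
      f ((a * gn w, j), ↑v) * (τ (a * gn w * gn v) j)⁻¹)
    rw [← h6]
    calc τ a j * f ((a, j), ↑v) * (τ (a * gn v) j)⁻¹ * (τ (a * gn v) j * f ((a * gn v, j), ↑w) *
      (τ (a * gn v * gn w) j)⁻¹) = τ a j * (f ((a, j), ↑v) * f ((a * gn v, j), ↑w)) * (τ (a * gn v * gn w) j)⁻¹ := by
          group
      _ = _ := by rw [h5]; group
  obtain ⟨h0, hh0⟩ := exists_pot (adj := adjP T.V) (fun a v => F' a v (lv v)) (by
    rintro a v w (h3 | h3)
    · exact hcomm a v w h3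
    · exact (hcomm a w v h3).symm)
  refine ⟨fun x => h0 x.1 * τ x.1 x.2, ?_⟩
  rintro ⟨a, l⟩ u hu
  cases u with
  | top =>
    change f ((a, l), ⊤) = (h0 a * τ a l)⁻¹ * (h0 a * τ a (l + 1))
    rw [hτ]
    group
  | coe v =>
    have h3 := hh0 a v
    have h4 : v ∈ T.M l := okD_coe.1 hu
    rw [hF a v (lv v) l (hlv v) h4] at h3
    change f ((a, l), ↑v) = (h0 a * τ a l)⁻¹ * (h0 (a * gen (adjP T.V) v) * τ (a * gn v) l)
    rw [h3]
    change _ = (h0 a * τ a l)⁻¹ * (h0 a * (τ a l * f ((a, l), (v : WithTop T.V)) * (τ (a * gn v) l)⁻¹) * τ (a * gn v) l)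
    group

variable (T) in
/-- an edge of `Zed T` -/
def mkE (x : RA T.V × ℤ) (u : WithTop T.V) (h : OkD T x.2 u) : (Zed T).cub 1 :=
  show {c : (RA T.V × ℤ) × Chn (WithTop T.V) 1 // Alw T.M c.1.2 c.2} from
  ⟨(x, ⟨fun _ => u, fun i j hij => absurd hij (by rw [Subsingleton.elim i j]; exact lt_irrefl _)⟩), by
    intro i v hv
    have hv' : u = ↑v := hv
    refine ⟨h v hv', ?_⟩
    rintro ⟨j, hj⟩
    have hj' : u = ⊤ := hj
    rw [hj'] at hv'
    exact absurd hv' WithTop.top_ne_coe⟩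

variable (T) in
/-- a square of `Zed T` -/
def mkS (x : RA T.V × ℤ) (u w : WithTop T.V) (huw : u < w) (h : OkP T x.2 u w) : (Zed T).cub 2 :=
  show {c : (RA T.V × ℤ) × Chn (WithTop T.V) 2 // Alw T.M c.1.2 c.2} from
  ⟨(x, ⟨![u, w], by
    intro i j hij
    fin_cases i <;> fin_cases j <;> simp_all⟩), by
    intro i v hv
    have hun : u ≠ ⊤ := (lt_of_lt_of_le huw le_top).ne
    fin_cases i
    · have hv' : u = ↑v := hv
      refine ⟨h.2.1 v hv', ?_⟩
      rintro ⟨j, hj⟩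
      fin_cases j
      · exact absurd hj hun
      · exact h.2.2.2.2 hj v hv'
    · have hv' : w = ↑v := hv
      refine ⟨h.2.2.1 v hv', ?_⟩
      rintro ⟨j, hj⟩
      fin_cases j
      · exact absurd hj hun
      · have hj' : w = ⊤ := hj
        rw [hj'] at hv'
        exact absurd hv' WithTop.top_ne_coe⟩

theorem eq_mkE (c : (Zed T).cub 1) : ∃ x u h, c = mkE T x u h := by
  obtain ⟨⟨x, s⟩, hc⟩ := c
  refine ⟨x, s.1 0, fun v hv => (hc 0 v hv).1, ?_⟩
  apply Subtype.ext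
  refine Prod.ext rfl (Subtype.ext (funext fun i => ?_))
  rw [Subsingleton.elim i 0]
  rfl

theorem fa_mkE_false (x : RA T.V × ℤ) (u : WithTop T.V) (h : OkD T x.2 u) : ((Zed T).fa 0 0 false (mkE T x u h)).1.1 = x := rfl

theorem fa_mkE_true (x : RA T.V × ℤ) (u : WithTop T.V) (h : OkD T x.2 u) :
    ((Zed T).fa 0 0 true (mkE T x u h)).1.1 = stp x u := rfl

theorem okD_stp {x : RA T.V × ℤ} {u w : WithTop T.V} (h : OkP T x.2 u w) : OkD T (stp x u).2 w := by
  cases u with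
  | top => exact h.2.2.2.1 rfl
  | coe v => exact h.2.2.1

theorem fa_mkS_1f (x : RA T.V × ℤ) (u w : WithTop T.V) (huw : u < w) (h : OkP T x.2 u w) :
    (Zed T).fa 1 1 false (mkS T x u w huw h) = mkE T x u h.2.1 := by
  apply Subtype.ext
  refine Prod.ext rfl (Subtype.ext (funext fun i => ?_))
  fin_cases i
  rfl

theorem fa_mkS_0f (x : RA T.V × ℤ) (u w : WithTop T.V) (huw : u < w) (h : OkP T x.2 u w) :
    (Zed T).fa 1 0 false (mkS T x u w huw h) = mkE T x w h.2.2.1 := by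
  apply Subtype.ext
  refine Prod.ext rfl (Subtype.ext (funext fun i => ?_))
  fin_cases i
  rfl

theorem fa_mkS_0t (x : RA T.V × ℤ) (u w : WithTop T.V) (huw : u < w) (h : OkP T x.2 u w) :
    (Zed T).fa 1 0 true (mkS T x u w huw h) = mkE T (stp x u) w (okD_stp h) := by
  apply Subtype.ext
  refine Prod.ext rfl (Subtype.ext (funext fun i => ?_))
  fin_cases i
  rfl

theorem fa_mkS_1t (x : RA T.V × ℤ) (u w : WithTop T.V) (huw : u < w) (h : OkP T x.2 u w) :
    (Zed T).fa 1 1 true (mkS T x u w huw h) = mkE T (stp x w) u (okD_stp h.symm) := by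
  apply Subtype.ext
  refine Prod.ext rfl (Subtype.ext (funext fun i => ?_))
  fin_cases i
  rfl

variable (T) in
theorem zed_sc : (Zed T).SC := by
  intro H _ f hf
  let g : (RA T.V × ℤ) × WithTop T.V → H := fun q => if h : OkD T q.1.2 q.2 then f (mkE T q.1 q.2 h) else 1
  have hg : ∀ x u (h : OkD T x.2 u), g (x, u) = f (mkE T x u h) := fun x u h => dif_pos h
  have key : ∀ (x : RA T.V × ℤ) (u w : WithTop T.V), u < w → OkP T x.2 u w →
      g (x, u) * g (stp x u, w) = g (x, w) * g (stp x w, u) := by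
    intro x u w huw h
    have h1 := hf (mkS T x u w huw h)
    rw [fa_mkS_1f, fa_mkS_0f, fa_mkS_0t, fa_mkS_1t] at h1
    rw [hg x u h.2.1, hg x w h.2.2.1, hg _ _ (okD_stp h), hg _ _ (okD_stp h.symm)]
    exact h1
  obtain ⟨h, hh⟩ := sq_pot g (fun α β x u w h _ _ => by
    rcases h.1 with h1 | h1
    · exact key x u w h1 h
    · exact (key x w u h1 h.symm).symm)
  refine ⟨fun c => h c.1.1, fun c => ?_⟩
  obtain ⟨x, u, hu, rfl⟩ := eq_mkE c
  rw [← hg x u hu]
  exact hh x u hu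

variable (T) in
theorem zed_conn : (Zed T).Conn := by
  refine ⟨⟨(show {c : (RA T.V × ℤ) × Chn (WithTop T.V) 0 // Alw T.M c.1.2 c.2} from
    ⟨((1, 0), ⟨fun i => i.elim0, fun i => i.elim0⟩), fun i => i.elim0⟩)⟩, ?_⟩
  intro f hf
  let vt : RA T.V × ℤ → (Zed T).cub 0 := fun x => (show {c : (RA T.V × ℤ) × Chn (WithTop T.V) 0 // Alw T.M c.1.2 c.2} from
    ⟨(x, ⟨fun i => i.elim0, fun i => i.elim0⟩), fun i => i.elim0⟩)
  have h0 : ∀ c : (Zed T).cub 0, c = vt c.1.1 := by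
    intro c
    apply Subtype.ext
    exact Prod.ext rfl (Subtype.ext (funext fun i => i.elim0))
  have h1 : ∀ x u, OkD T x.2 u → (f (vt x) ↔ f (vt (stp x u))) := by
    intro x u hu
    have h2 := hf (mkE T x u hu)
    rw [h0 ((Zed T).fa 0 0 false (mkE T x u hu)), h0 ((Zed T).fa 0 0 true (mkE T x u hu))] at h2
    exact h2
  have h2 : ∀ a (l : ℤ), f (vt (a, l)) ↔ f (vt (a, 0)) := by
    intro a l
    induction l using Int.induction_on with
    | zero => rfl
    | succ l ih => exact (h1 (a, (l : ℤ)) ⊤ (okD_top _)).symm.trans ih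
    | pred l ih =>
      have h3 := h1 (a, -(l : ℤ) - 1) ⊤ (okD_top _)
      have h4 : stp ((a, -(l : ℤ) - 1) : RA T.V × ℤ) (⊤ : WithTop T.V) = (a, -(l : ℤ)) := by
        change (a, -(l : ℤ) - 1 + 1) = _
        rw [sub_add_cancel]
      rw [h4] at h3
      exact h3.trans ih
  have h3 : ∀ a v, f (vt (a * gn v, 0)) ↔ f (vt (a, 0)) := by
    intro a v
    obtain ⟨j, hj, -⟩ := T.cov v v le_rfl
    have h4 := h1 (a, j) (v : WithTop T.V) (okD_coe.2 hj)
    have h5 : stp ((a, j) : RA T.V × ℤ) (v : WithTop T.V) = (a * gn v, j) := rfl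
    rw [h5, h2 a j, h2 (a * gn v) j] at h4
    exact h4.symm
  have h4 : ∀ a : RA T.V, f (vt (a, 0)) ↔ f (vt (1, 0)) := by
    intro a
    induction a using ind_right with
    | h1 => rfl
    | h2 a s ih =>
      unfold ltr
      split_ifs
      · exact (h3 a s.1).trans ih
      · have h5 := h3 (a * (gen (adjP T.V) s.1)⁻¹) s.1
        have h6 : a * (gen (adjP T.V) s.1)⁻¹ * gn s.1 = a := inv_mul_cancel_right a (gen (adjP T.V) s.1)
        rw [h6] at h5
        exact h5.symm.trans ih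
  intro c d
  rw [h0 c, h0 d]
  exact (h2 _ _).trans ((h4 _).trans ((h4 _).symm.trans (h2 _ _).symm))

end Pool.Agent.H59.FS
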