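import Pool.Agent.H59.FS.PC
import Pool.Agent.H59.FS.Twr
import Pool.Agent.H3.RA.Defs

set_option autoImplicit false

/-!
# MP_5c3080_gt: the precubical set `Z` of a tower, the groups `Gam` and `G`

`RA V`: the right-angled Artin group of the comparability graph of `V`. Vertices of `Z`: `RA V × ℤ`. A cube is a vertex
`(a, l)` with a chain `s` of `WithTop V` (`⊤` is the direction of `t`), `Alw`: the elements of `s` in `V` are in `M l`, and
in `M (l + 1)` if `⊤` is in `s`. `stp (a, l) v = (a v, l)`, `stp (a, l) ⊤ = (a, l + 1)`; the face `x_i = 0` forgets `s i`,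
the face `x_i = 1` forgets `s i` and moves the vertex by `stp`.
-/

namespace Pool.Agent.H59.FS

open Pool.Agent.H3.RA

/-- comparability -/
def adjP (V : Type) [PartialOrder V] (v w : V) : Prop := v < w ∨ w < v

/-- the right-angled Artin group of the comparability graph -/
abbrev RA (V : Type) [PartialOrder V] : Type := Raag (adjP V)

/-- the generators -/
def gn {V : Type} [PartialOrder V] (v : V) : RA V := gen (adjP V) v

theorem gn_comm {V : Type} [PartialOrder V] {v w : V} (h : v < w) : gn v * gn w = gn w * gn v :=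
  gen_comm (adj := adjP V) (Or.inl h)

/-- one step in the direction of an element of `WithTop V` -/
def stp {V : Type} [PartialOrder V] (x : RA V × ℤ) : WithTop V → RA V × ℤ
  | none => (x.1, x.2 + 1)
  | some v => (x.1 * gn v, x.2)

theorem stp_comm {V : Type} [PartialOrder V] (x : RA V × ℤ) {u w : WithTop V} (h : u < w) :
    stp (stp x u) w = stp (stp x w) u := by
  cases u with
  | top => exact absurd h not_top_lt
  | coe u =>
    cases w with
    | top => rfl
    | coe w =>
      have h1 : gn u * gn w = gn w * gn u := gn_comm (WithTop.coe_lt_coe.1 h)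
      change (x.1 * gn u * gn w, x.2) = (x.1 * gn w * gn u, x.2)
      rw [mul_assoc, h1, ← mul_assoc]

/-- the chain `s` is allowed at level `l` -/
def Alw {V : Type} [PartialOrder V] (M : ℤ → Set V) (l : ℤ) {n : ℕ} (s : Chn (WithTop V) n) : Prop :=
  ∀ (i : Fin n) (v : V), s.1 i = ↑v → v ∈ M l ∧ ((∃ j, s.1 j = ⊤) → v ∈ M (l + 1))

theorem Alw.del {V : Type} [PartialOrder V] {M : ℤ → Set V} {l : ℤ} {n : ℕ} {s : Chn (WithTop V) (n + 1)}
    (h : Alw M l s) (i : Fin (n + 1)) : Alw M l (s.del i) := by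
  intro j v hj
  refine ⟨(h (i.succAbove j) v hj).1, ?_⟩
  rintro ⟨a, ha⟩
  exact (h (i.succAbove j) v hj).2 ⟨i.succAbove a, ha⟩

theorem Alw.del' {V : Type} [PartialOrder V] {M : ℤ → Set V} {x : RA V × ℤ} {n : ℕ} {s : Chn (WithTop V) (n + 1)}
    (h : Alw M x.2 s) (i : Fin (n + 1)) : Alw M (stp x (s.1 i)).2 (s.del i) := by
  rcases hs : s.1 i with _ | v
  · intro j v hj
    refine ⟨(h (i.succAbove j) v hj).2 ⟨i, hs⟩, ?_⟩
    rintro ⟨a, ha⟩
    exact absurd (s.2.injective (show s.1 (i.succAbove a) = s.1 i from ha.trans hs.symm)) (Fin.succAbove_ne i a)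
  · exact h.del i

variable {P : Type} [Group P] [Fintype P] {r : ℕ} {e : Fin r → Fin r → P → ℤ}

theorem del_del {V : Type} [PartialOrder V] {n : ℕ} (s : Chn V (n + 2)) {i j : Fin (n + 1)} (h : i ≤ j) :
    (s.del j.succ).del i = (s.del i.castSucc).del j := by
  apply Subtype.ext
  funext a
  change s.1 (j.succ.succAbove (i.succAbove a)) = s.1 (i.castSucc.succAbove (j.succAbove a))
  refine congrArg s.1 (Fin.ext ?_)
  have h' : (i : ℕ) ≤ j := h
  simp only [Fin.succAbove, Fin.lt_def, Fin.val_castSucc, apply_ite Fin.val, Fin.val_succ]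
  split_ifs <;> omega

/-- the precubical set of a tower -/
def Zed (T : Tower P r e) : PreCub where
  cub n := {c : (RA T.V × ℤ) × Chn (WithTop T.V) n // Alw T.M c.1.2 c.2}
  fa n i b c := match b with
    | false => ⟨(c.1.1, c.1.2.del i), c.2.del i⟩
    | true => ⟨(stp c.1.1 (c.1.2.1 i), c.1.2.del i), c.2.del' i⟩
  fa_fa := by
    intro n i j a b c h
    have h1 := del_del c.1.2 h
    have h2 : (c.1.2.del j.succ).1 i = c.1.2.1 i.castSucc :=
      congrArg c.1.2.1 (Fin.succAbove_of_castSucc_lt _ _ (lt_of_le_of_lt (Fin.castSucc_le_castSucc_iff.2 h) Fin.castSucc_lt_succ))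
    have h3 : (c.1.2.del i.castSucc).1 j = c.1.2.1 j.succ :=
      congrArg c.1.2.1 (Fin.succAbove_of_le_castSucc _ _ (Fin.castSucc_le_castSucc_iff.2 h))
    have h4 : c.1.2.1 i.castSucc < c.1.2.1 j.succ := c.1.2.2 (by
      rw [Fin.lt_def]
      simp only [Fin.val_castSucc, Fin.val_succ]
      exact Nat.lt_succ_of_le h)
    cases a <;> cases b <;> apply Subtype.ext <;> simp only [h1, h2, h3]
    rw [stp_comm _ h4]

end Pool.Agent.H59.FS
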